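import Pool.Agent.AllNet.Defs

set_option linter.unusedSectionVars false

/-!
# Ridge unfoldings of convex polytopes
-/

namespace Pool.Agent.Unfold

open Module
open scoped RealInnerProductSpace

section Criterion

variable {E : Type*} [NormedAddCommGroup E] [InnerProductSpace ℝ E] [FiniteDimensional ℝ E]
variable {ι : Type*} [Fintype ι]

/-- The polytope given by the inequalities `⟪c i, x⟫ ≤ h`. -/
def poly (c : ι → E) (h : ℝ) : Set E := {x | ∀ i, ⟪c i, x⟫ ≤ h}

/-- The part of the polytope where the inequalities in `J` are tight. -/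
def flat (c : ι → E) (h : ℝ) (J : Set ι) : Set E := {x | x ∈ poly c h ∧ ∀ k ∈ J, ⟪c k, x⟫ = h}

lemma exists_eps (c : ι → E) (h : ℝ) (J : Set ι) {p w : E} (hp : ∀ k ∉ J, ⟪c k, p⟫ < h) :
    ∃ ε : ℝ, 0 < ε ∧ ∀ k ∉ J, ⟪c k, p + ε • w⟫ < h := by
  have h1 : ∀ k : ι, ∀ᶠ ε : ℝ in nhds 0, k ∉ J → ⟪c k, p + ε • w⟫ < h := by
    intro k
    by_cases hk : k ∈ J
    · exact Filter.Eventually.of_forall fun ε h => absurd hk h
    · have hc : Continuous fun ε : ℝ => ⟪c k, p + ε • w⟫ := by fun_prop
      have h0 : ⟪c k, p + (0 : ℝ) • w⟫ < h := by simpa using hp k hk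
      have := hc.continuousAt.eventually_lt (continuousAt_const (y := h)) h0
      exact this.mono fun ε hε _ => hε
  have h2 : ∀ᶠ ε : ℝ in nhds 0, ∀ k : ι, k ∉ J → ⟪c k, p + ε • w⟫ < h :=
    Filter.eventually_all.2 h1
  have h3 : ∀ᶠ ε : ℝ in nhdsWithin 0 (Set.Ioi 0), ∀ k : ι, k ∉ J → ⟪c k, p + ε • w⟫ < h :=
    h2.filter_mono nhdsWithin_le_nhds
  obtain ⟨ε, hε, hpos⟩ := (h3.and self_mem_nhdsWithin).exists
  exact ⟨ε, hpos, hε⟩

lemma vectorSpan_flat (c : ι → E) (h : ℝ) (J : Set ι) {p : E} (hpJ : ∀ k ∈ J, ⟪c k, p⟫ = h)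
    (hp : ∀ k ∉ J, ⟪c k, p⟫ < h) :
    vectorSpan ℝ (flat c h J) = (Submodule.span ℝ (c '' J))ᗮ := by
  apply le_antisymm
  · rw [vectorSpan_def, Submodule.span_le]
    rintro _ ⟨x, hx, y, hy, rfl⟩
    rw [SetLike.mem_coe, Submodule.mem_orthogonal]
    intro u hu
    refine Submodule.span_induction ?_ ?_ ?_ ?_ hu
    · rintro _ ⟨k, hk, rfl⟩
      simp only [vsub_eq_sub]
      rw [inner_sub_right, hx.2 k hk, hy.2 k hk, sub_self]
    · simp
    · intro a b _ _ ha hb
      rw [inner_add_left, ha, hb, add_zero]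
    · intro a x _ hx
      rw [inner_smul_left, hx, mul_zero]
  · intro w hw
    rw [Submodule.mem_orthogonal] at hw
    obtain ⟨ε, hε, hlt⟩ := exists_eps c h J (w := w) hp
    have hw0 : ∀ k ∈ J, ⟪c k, w⟫ = 0 := fun k hk => hw _ (Submodule.subset_span ⟨k, hk, rfl⟩)
    have hpm : p ∈ flat c h J := by
      refine ⟨fun k => ?_, hpJ⟩
      by_cases hk : k ∈ J
      · exact (hpJ k hk).le
      · exact (hp k hk).le
    have hqJ : ∀ k ∈ J, ⟪c k, p + ε • w⟫ = h := by
      intro k hk
      rw [inner_add_right, inner_smul_right, hw0 k hk, mul_zero, add_zero, hpJ k hk]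
    have hq : p + ε • w ∈ flat c h J := by
      refine ⟨fun k => ?_, hqJ⟩
      by_cases hk : k ∈ J
      · exact (hqJ k hk).le
      · exact (hlt k hk).le
    have := vsub_mem_vectorSpan ℝ hq hpm
    rw [vsub_eq_sub, add_sub_cancel_left] at this
    have h2 := Submodule.smul_mem _ ε⁻¹ this
    rwa [smul_smul, inv_mul_cancel₀ hε.ne', one_smul] at h2

lemma finrank_flat (c : ι → E) (h : ℝ) (J : Set ι) {p : E} (hpJ : ∀ k ∈ J, ⟪c k, p⟫ = h)
    (hp : ∀ k ∉ J, ⟪c k, p⟫ < h) :
    finrank ℝ (Submodule.span ℝ (c '' J)) + finrank ℝ (vectorSpan ℝ (flat c h J)) =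
      finrank ℝ E := by
  rw [vectorSpan_flat c h J hpJ hp]
  exact Submodule.finrank_add_finrank_orthogonal _

/-- Hypotheses on the normals of a polytope with regular-like facet arrangement. -/
structure Reg (c : ι → E) (h r m : ℝ) : Prop where
  h_pos : 0 < h
  norm : ∀ i, ⟪c i, c i⟫ = r
  le : ∀ i j, i ≠ j → ⟪c i, c j⟫ ≤ m
  m_lt : m < r
  neg_lt : 0 < r + m

namespace Reg

variable {c : ι → E} {h r m : ℝ}

lemma r_pos (R : Reg c h r m) : 0 < r := by linarith [R.m_lt, R.neg_lt]

lemma ne_zero (R : Reg c h r m) (i : ι) : c i ≠ 0 := by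
  intro h0
  have := R.norm i
  rw [h0, inner_zero_left] at this
  linarith [R.r_pos]

lemma center_self (R : Reg c h r m) (i : ι) : ⟪c i, (h / r) • c i⟫ = h := by
  rw [inner_smul_right, R.norm i, div_mul_cancel₀ _ R.r_pos.ne']

lemma center_lt (R : Reg c h r m) {i k : ι} (hk : k ≠ i) : ⟪c k, (h / r) • c i⟫ < h := by
  rw [inner_smul_right]
  have h1 := R.le k i hk
  have h2 : 0 < h / r := div_pos R.h_pos R.r_pos
  calc h / r * ⟪c k, c i⟫ ≤ h / r * m := mul_le_mul_of_nonneg_left h1 h2.le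
    _ < h / r * r := mul_lt_mul_of_pos_left R.m_lt h2
    _ = h := div_mul_cancel₀ _ R.r_pos.ne'

lemma isExposed_single (R : Reg c h r m) (i : ι) :
    IsExposed ℝ (poly c h) (flat c h {i}) := by
  intro _
  refine ⟨innerSL ℝ (c i), ?_⟩
  ext x
  simp only [flat, Set.mem_ofPred_eq, Set.mem_singleton_iff, forall_eq, innerSL_apply_apply]
  constructor
  · rintro ⟨hx, hi⟩
    exact ⟨hx, fun y hy => (hy i).trans hi.ge⟩
  · rintro ⟨hx, hmax⟩
    refine ⟨hx, le_antisymm (hx i) ?_⟩
    have hc : (h / r) • c i ∈ poly c h := by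
      intro k
      by_cases hk : k = i
      · rw [hk, R.center_self]
      · exact (R.center_lt hk).le
    have := hmax _ hc
    rwa [R.center_self] at this

lemma finrank_single (R : Reg c h r m) (i : ι) :
    finrank ℝ (vectorSpan ℝ (flat c h {i})) = finrank ℝ E - 1 := by
  have h1 := finrank_flat c h {i} (p := (h / r) • c i)
    (by rintro k rfl; exact R.center_self k) (fun k hk => R.center_lt hk)
  rw [Set.image_singleton, finrank_span_singleton (R.ne_zero i)] at h1
  omega

lemma isFace_single (R : Reg c h r m) (i : ι) :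
    IsFace (poly c h) (finrank ℝ E - 1) (flat c h {i}) := by
  refine ⟨⟨(h / r) • c i, fun k => ?_, ?_⟩, R.isExposed_single i, R.finrank_single i⟩
  · by_cases hk : k = i
    · rw [hk, R.center_self]
    · exact (R.center_lt hk).le
  · rintro k rfl
    exact R.center_self k

/-- The facet with normal `c i`. -/
def facet (R : Reg c h r m) (i : ι) : Facet (poly c h) := ⟨flat c h {i}, R.isFace_single i⟩

lemma mem_facet (R : Reg c h r m) {i : ι} {x : E} :
    x ∈ (R.facet i).1 ↔ x ∈ poly c h ∧ ⟪c i, x⟫ = h := by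
  simp [facet, flat]

lemma facet_injective (R : Reg c h r m) : Function.Injective R.facet := by
  intro i j hij
  by_contra hne
  have h1 : (h / r) • c i ∈ (R.facet i).1 := by
    rw [R.mem_facet]
    refine ⟨fun k => ?_, R.center_self i⟩
    by_cases hk : k = i
    · rw [hk, R.center_self]
    · exact (R.center_lt hk).le
  rw [hij, R.mem_facet] at h1
  exact absurd h1.2 (R.center_lt (Ne.symm hne)).ne

lemma convex_poly : Convex ℝ (poly c h) := by
  intro x hx y hy a b ha hb hab k
  rw [inner_add_right, inner_smul_right, inner_smul_right]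
  calc a * ⟪c k, x⟫ + b * ⟪c k, y⟫ ≤ a * h + b * h :=
        add_le_add (mul_le_mul_of_nonneg_left (hx k) ha) (mul_le_mul_of_nonneg_left (hy k) hb)
    _ = h := by rw [← add_mul, hab, one_mul]

lemma exists_subset (R : Reg c h r m) [Nonempty ι] (F : Facet (poly c h)) :
    ∃ i, F.1 ⊆ flat c h {i} := by
  classical
  by_contra hcon
  push Not at hcon
  obtain ⟨F, ⟨hne, hexp, hfin⟩⟩ := F
  simp only at hcon
  have hFP : F ⊆ poly c h := hexp.subset
  have hconv : Convex ℝ F := hexp.convex convex_poly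
  have h1 : ∀ i, ∃ x ∈ F, ⟪c i, x⟫ < h := by
    intro i
    obtain ⟨x, hx, hxi⟩ := Set.not_subset.1 (hcon i)
    refine ⟨x, hx, lt_of_le_of_ne (hFP hx i) ?_⟩
    intro he
    exact hxi ⟨hFP hx, by rintro k rfl; exact he⟩
  choose x hx hxlt using h1
  obtain ⟨N, hN⟩ : ∃ N : ℝ, N = ((Fintype.card ι : ℕ) : ℝ) := ⟨_, rfl⟩
  have hNpos : 0 < N := by rw [hN]; exact_mod_cast Fintype.card_pos
  set x0 : E := ∑ i, (1 / N) • x i with hx0
  have hx0F : x0 ∈ F := by
    apply hconv.sum_mem
    · intro i _; positivity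
    · rw [Finset.sum_const, Finset.card_univ, nsmul_eq_mul, ← hN]
      field_simp
    · intro i _; exact hx i
  have hx0lt : ∀ k, ⟪c k, x0⟫ < h := by
    intro k
    rw [hx0, inner_sum]
    have hsum : ∑ i : ι, (1 / N) * h = h := by
      rw [Finset.sum_const, Finset.card_univ, nsmul_eq_mul, ← hN]
      field_simp
    rw [← hsum]
    apply Finset.sum_lt_sum
    · intro i _
      rw [inner_smul_right]
      exact mul_le_mul_of_nonneg_left (hFP (hx i) k) (by positivity)
    · refine ⟨k, Finset.mem_univ _, ?_⟩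
      rw [inner_smul_right]
      exact mul_lt_mul_of_pos_left (hxlt k) (by positivity)
  obtain ⟨l, hl⟩ := hexp hne
  have hl0 : ∀ w, l w ≤ 0 := by
    intro w
    obtain ⟨ε, hε, hlt⟩ := exists_eps c h ∅ (p := x0) (w := w) (fun k _ => hx0lt k)
    have h2 : x0 + ε • w ∈ poly c h := fun k => (hlt k (Set.notMem_empty k)).le
    rw [hl] at hx0F
    have h3 := hx0F.2 _ h2
    rw [map_add, map_smul, smul_eq_mul] at h3
    have h4 : ε * l w ≤ 0 := by linarith
    by_contra h5
    push Not at h5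
    have := mul_pos hε h5
    linarith
  have hlz : ∀ w, l w = 0 := by
    intro w
    have h2 := hl0 w
    have h3 := hl0 (-w)
    rw [map_neg] at h3
    linarith
  have hFe : F = flat c h ∅ := by
    rw [hl]
    ext y
    simp [flat, hlz]
  have h2 := finrank_flat c h ∅ (p := x0) (by simp) (fun k _ => hx0lt k)
  rw [← hFe, hfin, Set.image_empty, Submodule.span_empty, finrank_bot] at h2
  have h3 : 0 < finrank ℝ E := by
    have : Nontrivial E := ⟨c (Classical.arbitrary ι), 0, R.ne_zero _⟩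
    exact finrank_pos
  omega

lemma facet_surjective (R : Reg c h r m) [Nonempty ι] : Function.Surjective R.facet := by
  intro F
  obtain ⟨i, hi⟩ := R.exists_subset F
  refine ⟨i, Subtype.ext ?_⟩
  obtain ⟨F, ⟨hne, hexp, hfin⟩⟩ := F
  simp only at hi
  have hFP : F ⊆ poly c h := hexp.subset
  have h1 : vectorSpan ℝ F = vectorSpan ℝ (flat c h {i}) := by
    apply Submodule.eq_of_le_of_finrank_eq (vectorSpan_mono ℝ hi)
    rw [hfin, R.finrank_single i]
  obtain ⟨l, hl⟩ := hexp hne
  obtain ⟨x1, hx1⟩ := hne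
  have hconst : ∀ v ∈ vectorSpan ℝ F, l v = 0 := by
    intro v hv
    rw [vectorSpan_def] at hv
    refine Submodule.span_induction ?_ ?_ ?_ ?_ hv
    · rintro _ ⟨x, hx, y, hy, rfl⟩
      simp only [vsub_eq_sub, map_sub]
      have hx' := hx
      have hy' := hy
      rw [hl] at hx' hy'
      have e1 := hx'.2 y hy'.1
      have e2 := hy'.2 x hx'.1
      linarith
    · simp
    · intro a b _ _ ha hb
      rw [map_add, ha, hb, add_zero]
    · intro a x _ hx
      rw [map_smul, hx, smul_zero]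
  show flat c h {i} = F
  apply le_antisymm _ hi
  intro x hx
  have h2 : x - x1 ∈ vectorSpan ℝ F := by
    rw [h1]
    exact vsub_mem_vectorSpan ℝ hx (hi hx1)
  have h3 := hconst _ h2
  rw [map_sub, sub_eq_zero] at h3
  rw [hl]
  refine ⟨hx.1, fun y hy => ?_⟩
  rw [h3]
  rw [hl] at hx1
  exact hx1.2 y hy

lemma linInd (R : Reg c h r m) {i j : ι} (hij : ⟪c i, c j⟫ = m) :
    LinearIndependent ℝ ![c i, c j] := by
  rw [LinearIndependent.pair_iff]
  intro a b hab
  have h1 : ⟪c i, a • c i + b • c j⟫ = 0 := by rw [hab, inner_zero_right]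
  have h2 : ⟪c j, a • c i + b • c j⟫ = 0 := by rw [hab, inner_zero_right]
  rw [inner_add_right, inner_smul_right, inner_smul_right, R.norm] at h1 h2
  rw [hij] at h1
  rw [real_inner_comm, hij] at h2
  have h3 := R.m_lt
  have h4 := R.neg_lt
  have h5 : (r - m) * (a - b) = 0 := by linear_combination h1 - h2
  have h6 : (r + m) * (a + b) = 0 := by linear_combination h1 + h2
  have h7 : a - b = 0 := by
    rcases mul_eq_zero.1 h5 with h | h
    · linarith
    · exact h
  have h8 : a + b = 0 := by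
    rcases mul_eq_zero.1 h6 with h | h
    · linarith
    · exact h
  constructor <;> linarith

lemma finrank_pair (R : Reg c h r m) {i j : ι} (hij : ⟪c i, c j⟫ = m) :
    finrank ℝ (Submodule.span ℝ (c '' {i, j})) = 2 := by
  have h1 := finrank_span_eq_card (R.linInd hij)
  rw [Set.image_pair]
  have h2 : Set.range ![c i, c j] = {c i, c j} := by
    simp [Matrix.range_cons, Matrix.range_empty, Set.pair_comm]
  rw [h2] at h1
  simpa using h1

/-- The centre of the ridge between adjacent facets. -/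
lemma ridge_self (R : Reg c h r m) {i j : ι} (hij : ⟪c i, c j⟫ = m) :
    ⟪c i, (h / (r + m)) • (c i + c j)⟫ = h := by
  rw [inner_smul_right, inner_add_right, R.norm i, hij, div_mul_cancel₀ _ R.neg_lt.ne']

lemma ridge_self' (R : Reg c h r m) {i j : ι} (hij : ⟪c i, c j⟫ = m) :
    ⟪c j, (h / (r + m)) • (c i + c j)⟫ = h := by
  rw [inner_smul_right, inner_add_right, R.norm j, real_inner_comm, hij, add_comm m r,
    div_mul_cancel₀ _ R.neg_lt.ne']

lemma ridge_lt (R : Reg c h r m) {i j k : ι} (hi : k ≠ i) (hj : k ≠ j) :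
    ⟪c k, (h / (r + m)) • (c i + c j)⟫ < h := by
  rw [inner_smul_right, inner_add_right]
  have h1 := R.le k i hi
  have h2 := R.le k j hj
  have h3 : 0 < h / (r + m) := div_pos R.h_pos R.neg_lt
  calc h / (r + m) * (⟪c k, c i⟫ + ⟪c k, c j⟫) ≤ h / (r + m) * (m + m) :=
        mul_le_mul_of_nonneg_left (add_le_add h1 h2) h3.le
    _ < h / (r + m) * (r + m) := mul_lt_mul_of_pos_left (by linarith [R.m_lt]) h3
    _ = h := div_mul_cancel₀ _ R.neg_lt.ne'

lemma ridge_mem (R : Reg c h r m) {i j : ι} (hij : ⟪c i, c j⟫ = m) :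
    (h / (r + m)) • (c i + c j) ∈ poly c h := by
  intro k
  by_cases hi : k = i
  · rw [hi, R.ridge_self hij]
  · by_cases hj : k = j
    · rw [hj, R.ridge_self' hij]
    · exact (R.ridge_lt hi hj).le

lemma inter_eq (i j : ι) : flat c h {i} ∩ flat c h {j} = flat c h {i, j} := by
  ext x
  simp only [flat, Set.mem_inter_iff, Set.mem_ofPred_eq, Set.mem_singleton_iff, forall_eq,
    Set.mem_insert_iff, forall_eq_or_imp]
  tauto

lemma adj (R : Reg c h r m) {i j : ι} (hij : ⟪c i, c j⟫ = m) :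
    (dualGraph (poly c h)).Adj (R.facet i) (R.facet j) := by
  have hne : i ≠ j := by
    rintro rfl
    rw [R.norm] at hij
    exact absurd hij R.m_lt.ne'
  refine ⟨fun he => hne (R.facet_injective he), ?_⟩
  show IsFace (poly c h) (finrank ℝ E - 2) (flat c h {i} ∩ flat c h {j})
  rw [inter_eq]
  refine ⟨⟨(h / (r + m)) • (c i + c j), R.ridge_mem hij, ?_⟩, ?_, ?_⟩
  · rintro k (rfl | rfl)
    · exact R.ridge_self hij
    · exact R.ridge_self' hij
  · intro _
    refine ⟨innerSL ℝ (c i + c j), ?_⟩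
    ext x
    simp only [flat, Set.mem_ofPred_eq, Set.mem_insert_iff, Set.mem_singleton_iff,
      forall_eq_or_imp, forall_eq, innerSL_apply_apply, inner_add_left]
    constructor
    · rintro ⟨hx, hi, hj⟩
      exact ⟨hx, fun y hy => by linarith [hy i, hy j]⟩
    · rintro ⟨hx, hmax⟩
      have h1 := hmax _ (R.ridge_mem hij)
      rw [R.ridge_self hij, R.ridge_self' hij] at h1
      exact ⟨hx, by linarith [hx i, hx j], by linarith [hx i, hx j]⟩
  · have h1 := finrank_flat c h {i, j} (p := (h / (r + m)) • (c i + c j))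
      (by
        rintro k (rfl | rfl)
        · exact R.ridge_self hij
        · exact R.ridge_self' hij)
      (by
        intro k hk
        simp only [Set.mem_insert_iff, Set.mem_singleton_iff, not_or] at hk
        exact R.ridge_lt hk.1 hk.2)
    rw [R.finrank_pair hij] at h1
    omega

end Reg

end Criterion

/-! ## Reflections -/

section Refl

variable {E : Type*} [NormedAddCommGroup E] [InnerProductSpace ℝ E] [FiniteDimensional ℝ E]

/-- Reflection in the hyperplane `⟪n, x⟫ = t`. -/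
noncomputable def hrefl (n : E) (t : ℝ) : E ≃ᵃⁱ[ℝ] E :=
  AffineIsometryEquiv.mk'
    (fun x => (Submodule.span ℝ {n})ᗮ.reflection (x - (t / ⟪n, n⟫) • n) + (t / ⟪n, n⟫) • n)
    ((Submodule.span ℝ {n})ᗮ.reflection) ((t / ⟪n, n⟫) • n)
    (fun x => by simp)

lemma hrefl_apply {n : E} (hn : ⟪n, n⟫ ≠ (0 : ℝ)) (t : ℝ) (x : E) :
    hrefl n t x = x - (2 * (⟪n, x⟫ - t) / ⟪n, n⟫) • n := by
  unfold hrefl
  rw [AffineIsometryEquiv.coe_mk']
  rw [Submodule.reflection_orthogonal_apply, Submodule.reflection_singleton_apply]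
  have h1 : ((‖n‖ : ℝ) : ℝ) ^ 2 = ⟪n, n⟫ := (real_inner_self_eq_norm_sq n).symm
  simp only [RCLike.ofReal_real_eq_id, id_eq]
  rw [h1, inner_sub_right, inner_smul_right, div_mul_cancel₀ _ hn]
  rw [two_smul, neg_sub]
  have h2 : (2 * (⟪n, x⟫ - t) / ⟪n, n⟫) • n =
      ((⟪n, x⟫ - t) / ⟪n, n⟫) • n + ((⟪n, x⟫ - t) / ⟪n, n⟫) • n := by
    rw [← add_smul]; congr 1; ring
  rw [h2]
  abel

lemma inner_hrefl {n : E} (hn : ⟪n, n⟫ ≠ (0 : ℝ)) (t : ℝ) (y x : E) :
    ⟪y, hrefl n t x⟫ = ⟪y, x⟫ - (2 * (⟪n, x⟫ - t) / ⟪n, n⟫) * ⟪y, n⟫ := by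
  rw [hrefl_apply hn, inner_sub_right, inner_smul_right]

lemma hrefl_hrefl {n : E} (hn : ⟪n, n⟫ ≠ (0 : ℝ)) (t : ℝ) (x : E) :
    hrefl n t (hrefl n t x) = x := by
  rw [hrefl_apply hn t (hrefl n t x), inner_hrefl hn, hrefl_apply hn]
  rw [div_mul_cancel₀ _ hn]
  have h1 : 2 * (⟪n, x⟫ - 2 * (⟪n, x⟫ - t) - t) / ⟪n, n⟫ = -(2 * (⟪n, x⟫ - t) / ⟪n, n⟫) := by
    ring
  rw [h1, neg_smul]
  abel

end Refl

section Tree

variable {E : Type*} [NormedAddCommGroup E] [InnerProductSpace ℝ E]
variable {V : Type*}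

/-- Composition of the transition isometries along a walk. -/
noncomputable def tr {G : SimpleGraph V} (σ : V → V → (E ≃ᵃⁱ[ℝ] E)) :
    ∀ {u v : V}, G.Walk u v → (E ≃ᵃⁱ[ℝ] E)
  | _, _, .nil => AffineIsometryEquiv.refl ℝ E
  | u, _, .cons (v := v) _ p => (tr σ p).trans (σ u v)

lemma tr_nil {G : SimpleGraph V} (σ : V → V → (E ≃ᵃⁱ[ℝ] E)) (u : V) (x : E) :
    tr σ (.nil : G.Walk u u) x = x := rfl

lemma tr_cons {G : SimpleGraph V} (σ : V → V → (E ≃ᵃⁱ[ℝ] E)) {u v w : V} (h : G.Adj u v)
    (p : G.Walk v w) (x : E) : tr σ (.cons h p) x = σ u v (tr σ p x) := rfl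

lemma tr_concat {G : SimpleGraph V} (σ : V → V → (E ≃ᵃⁱ[ℝ] E)) {u v w : V}
    (p : G.Walk u v) (h : G.Adj v w) (x : E) : tr σ (p.concat h) x = tr σ p (σ v w x) := by
  induction p with
  | nil => rfl
  | cons h' p ih =>
    rw [SimpleGraph.Walk.concat_cons, tr_cons, tr_cons, ih]

/-- In a tree, transition isometries which are symmetric involutions along edges can be
integrated. -/
lemma exists_place {T : SimpleGraph V} (hT : T.IsTree) (σ : V → V → (E ≃ᵃⁱ[ℝ] E))
    (hσ : ∀ u v, T.Adj u v → ∀ x, σ u v (σ v u x) = x) (root : V) :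
    ∃ φ : V → (E ≃ᵃⁱ[ℝ] E), (∀ x, φ root x = x) ∧
      ∀ v w, T.Adj v w → ∀ x, φ w x = φ v (σ v w x) := by
  classical
  have hpath : ∀ v, ∃ p : T.Walk root v, p.IsPath := fun v =>
    hT.connected.exists_isPath root v
  choose P hP using hpath
  refine ⟨fun v => tr σ (P v), ?_, ?_⟩
  · intro x
    have h1 : P root = .nil := by
      have := hT.isAcyclic.subsingleton_path root root |>.elim ⟨P root, hP root⟩
        ⟨.nil, SimpleGraph.Walk.IsPath.nil⟩
      exact congrArg Subtype.val this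
    simp only [h1]
    exact tr_nil σ root x
  · intro v w hadj x
    by_cases hv : v ∈ (P w).support
    · have h1 := hT.isAcyclic.path_concat (hP v) (hP w) hadj hv
      simp only [h1]
      rw [tr_concat]
    · have h2 : w ∈ (P v).support :=
        hT.isAcyclic.mem_support_of_ne_mem_support_of_adj_of_isPath (hP v) (hP w) hadj hv
      have h1 := hT.isAcyclic.path_concat (hP w) (hP v) hadj.symm h2
      simp only [h1]
      rw [tr_concat, hσ w v hadj.symm]

/-- The path graph along a list. -/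
def chainG : List V → SimpleGraph V
  | [] => ⊥
  | [_] => ⊥
  | a :: b :: l => chainG (b :: l) ⊔ SimpleGraph.edge a b

lemma chainG_mem : ∀ (l : List V) {u v : V}, (chainG l).Adj u v → u ∈ l ∧ v ∈ l
  | [], u, v, h => by simp [chainG] at h
  | [_], u, v, h => by simp [chainG] at h
  | a :: b :: l, u, v, h => by
    rw [chainG, SimpleGraph.sup_adj] at h
    rcases h with h | h
    · have := chainG_mem (b :: l) h
      exact ⟨List.mem_cons_of_mem _ this.1, List.mem_cons_of_mem _ this.2⟩
    · rw [SimpleGraph.edge_adj] at h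
      rcases h.1 with ⟨rfl, rfl⟩ | ⟨rfl, rfl⟩ <;> simp

lemma chainG_acyclic : ∀ (l : List V), l.Nodup → (chainG l).IsAcyclic
  | [], _ => SimpleGraph.isAcyclic_bot
  | [_], _ => SimpleGraph.isAcyclic_bot
  | a :: b :: l, h => by
    rw [chainG]
    apply SimpleGraph.IsAcyclic.sup_edge_of_not_reachable
    · rintro ⟨p⟩
      have hab : a ≠ b := by
        rintro rfl
        simp at h
      cases p with
      | nil => exact hab rfl
      | cons h1 _ =>
        have := (chainG_mem _ h1).1
        exact (List.nodup_cons.1 h).1 this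
    · exact chainG_acyclic _ (List.nodup_cons.1 h).2

lemma chainG_le {G : SimpleGraph V} : ∀ (l : List V), l.IsChain G.Adj → chainG l ≤ G
  | [], _ => bot_le
  | [_], _ => bot_le
  | a :: b :: l, h => by
    rw [List.isChain_cons_cons] at h
    rw [chainG]
    apply sup_le (chainG_le _ h.2)
    intro u v huv
    rw [SimpleGraph.edge_adj] at huv
    rcases huv.1 with ⟨rfl, rfl⟩ | ⟨rfl, rfl⟩
    · exact h.1
    · exact h.1.symm

lemma isChain_chainG : ∀ (l : List V), l.Nodup → l.IsChain (chainG l).Adj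
  | [], _ => List.IsChain.nil
  | [_], _ => List.IsChain.singleton _
  | a :: b :: l, h => by
    have hab : a ≠ b := by
      rintro rfl
      simp at h
    rw [List.isChain_cons_cons]
    refine ⟨?_, ?_⟩
    · rw [chainG, SimpleGraph.sup_adj, SimpleGraph.edge_adj]
      exact Or.inr ⟨Or.inl ⟨rfl, rfl⟩, hab⟩
    · refine (isChain_chainG (b :: l) (List.nodup_cons.1 h).2).imp ?_
      intro u v huv
      rw [chainG, SimpleGraph.sup_adj]
      exact Or.inl huv

end Tree

/-! ## The criterion -/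

section Main

variable {E : Type*} [NormedAddCommGroup E] [InnerProductSpace ℝ E] [FiniteDimensional ℝ E]
variable {ι : Type*} [Fintype ι] {c : ι → E} {h r m : ℝ}

namespace Reg

/-- The transition isometry between adjacent facets. -/
noncomputable def sig (c : ι → E) (h : ℝ) (i j : ι) : E ≃ᵃⁱ[ℝ] E := hrefl (c i + c j) (2 * h)

lemma normal_sq (R : Reg c h r m) {i j : ι} (hij : ⟪c i, c j⟫ = m) :
    ⟪c i + c j, c i + c j⟫ = 2 * (r + m) := by
  rw [inner_add_left, inner_add_right, inner_add_right, R.norm, R.norm, hij, real_inner_comm, hij]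
  ring

lemma sig_comm (i j : ι) : sig c h i j = sig c h j i := by
  unfold sig; rw [add_comm]

lemma sig_sig (R : Reg c h r m) {i j : ι} (hij : ⟪c i, c j⟫ = m) (x : E) :
    sig c h i j (sig c h i j x) = x := by
  apply hrefl_hrefl
  rw [R.normal_sq hij]
  have := R.neg_lt
  positivity

lemma inner_sig_left (R : Reg c h r m) {i j : ι} (hij : ⟪c i, c j⟫ = m) (x : E) :
    ⟪c i, sig c h i j x⟫ = 2 * h - ⟪c j, x⟫ := by
  have h0 : ⟪c i + c j, c i + c j⟫ ≠ (0 : ℝ) := by
    rw [R.normal_sq hij]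
    have := R.neg_lt
    positivity
  have h1 := R.neg_lt
  unfold sig
  rw [inner_hrefl h0, R.normal_sq hij, inner_add_left, inner_add_right, R.norm, hij]
  field_simp
  ring

lemma inner_sig_right (R : Reg c h r m) {i j : ι} (hij : ⟪c i, c j⟫ = m) (x : E) :
    ⟪c j, sig c h i j x⟫ = 2 * h - ⟪c i, x⟫ := by
  have hji : ⟪c j, c i⟫ = m := by rw [real_inner_comm]; exact hij
  rw [sig_comm]
  exact R.inner_sig_left hji x

/-- The transition isometry fixes the common ridge. -/
lemma sig_fix (R : Reg c h r m) {i j : ι} (hij : ⟪c i, c j⟫ = m) {x : E}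
    (hi : ⟪c i, x⟫ = h) (hj : ⟪c j, x⟫ = h) : sig c h i j x = x := by
  have h0 : ⟪c i + c j, c i + c j⟫ ≠ (0 : ℝ) := by
    rw [R.normal_sq hij]
    have := R.neg_lt
    positivity
  unfold sig
  rw [hrefl_apply h0, inner_add_left, hi, hj]
  rw [show h + h - 2 * h = 0 by ring, mul_zero, zero_div, zero_smul, sub_zero]

lemma oppSide_sig (R : Reg c h r m) {i j : ι} (hij : ⟪c i, c j⟫ = m) {x y : E}
    (hx : x ∈ (R.facet i).1 \ (R.facet j).1) (hy : y ∈ (R.facet j).1 \ (R.facet i).1) :
    (affineSpan ℝ ((R.facet i).1 ∩ (R.facet j).1)).SOppSide x (sig c h i j y) := by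
  have hji : ⟪c j, c i⟫ = m := by rw [real_inner_comm]; exact hij
  have hx1 := R.mem_facet.1 hx.1
  have hy1 := R.mem_facet.1 hy.1
  have hx2 : ⟪c j, x⟫ < h := by
    refine lt_of_le_of_ne (hx1.1 j) fun he => hx.2 (R.mem_facet.2 ⟨hx1.1, he⟩)
  have hy2 : ⟪c i, y⟫ < h := by
    refine lt_of_le_of_ne (hy1.1 i) fun he => hy.2 (R.mem_facet.2 ⟨hy1.1, he⟩)
  have hs : ((R.facet i).1 ∩ (R.facet j).1) = flat c h {i, j} := inter_eq i j
  have hg : (h / (r + m)) • (c i + c j) ∈ flat c h {i, j} := by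
    refine ⟨R.ridge_mem hij, ?_⟩
    rintro k (rfl | rfl)
    · exact R.ridge_self hij
    · exact R.ridge_self' hij
  have hvs : vectorSpan ℝ (flat c h {i, j}) = (Submodule.span ℝ (c '' {i, j}))ᗮ := by
    apply vectorSpan_flat c h {i, j} (p := (h / (r + m)) • (c i + c j)) hg.2
    intro k hk
    simp only [Set.mem_insert_iff, Set.mem_singleton_iff, not_or] at hk
    exact R.ridge_lt hk.1 hk.2
  have hmem : ∀ z : E, z ∈ affineSpan ℝ (flat c h {i, j}) ↔ ⟪c i, z⟫ = h ∧ ⟪c j, z⟫ = h := by
    intro z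
    have h1 : z ∈ affineSpan ℝ (flat c h {i, j}) ↔
        z - (h / (r + m)) • (c i + c j) ∈ vectorSpan ℝ (flat c h {i, j}) := by
      rw [← direction_affineSpan, ← vsub_eq_sub]
      exact (AffineSubspace.vsub_right_mem_direction_iff_mem (subset_affineSpan ℝ _ hg) z).symm
    rw [h1, hvs, Set.image_pair, Submodule.mem_orthogonal]
    constructor
    · intro h2
      have h3 := h2 (c i) (Submodule.subset_span (by simp))
      have h4 := h2 (c j) (Submodule.subset_span (by simp))
      rw [inner_sub_right, R.ridge_self hij] at h3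
      rw [inner_sub_right, R.ridge_self' hij] at h4
      constructor <;> linarith
    · rintro ⟨h3, h4⟩ u hu
      refine Submodule.span_induction ?_ ?_ ?_ ?_ hu
      · rintro _ (rfl | rfl)
        · rw [inner_sub_right, R.ridge_self hij, h3, sub_self]
        · rw [inner_sub_right, R.ridge_self' hij, h4, sub_self]
      · simp
      · intro a b _ _ ha hb
        rw [inner_add_left, ha, hb, add_zero]
      · intro a x _ hx
        rw [inner_smul_left, hx, mul_zero]
  have e1 : ⟪c i, sig c h i j y⟫ = h := by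
    rw [R.inner_sig_left hij, hy1.2]; ring
  have e2 : ⟪c j, sig c h i j y⟫ = 2 * h - ⟪c i, y⟫ := R.inner_sig_right hij y
  rw [hs]
  refine ⟨?_, ?_, ?_⟩
  · rw [AffineSubspace.wOppSide_iff_exists_wbtw]
    obtain ⟨t, ht⟩ : ∃ t, t = (h - ⟪c j, x⟫) / ((h - ⟪c i, y⟫) + (h - ⟪c j, x⟫)) := ⟨_, rfl⟩
    have hd : 0 < (h - ⟪c i, y⟫) + (h - ⟪c j, x⟫) := by linarith
    have ht0 : 0 ≤ t := by
      rw [ht]
      exact div_nonneg (by linarith) hd.le
    have ht1 : t ≤ 1 := by
      rw [ht]
      exact div_le_one_of_le₀ (by linarith) hd.le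
    have ht2 : t * ((h - ⟪c i, y⟫) + (h - ⟪c j, x⟫)) = h - ⟪c j, x⟫ := by
      rw [ht, div_mul_cancel₀ _ hd.ne']
    refine ⟨AffineMap.lineMap x (sig c h i j y) t, ?_, ⟨t, ⟨ht0, ht1⟩, rfl⟩⟩
    rw [hmem, AffineMap.lineMap_apply, vsub_eq_sub, vadd_eq_add]
    constructor
    · rw [inner_add_right, inner_smul_right, inner_sub_right, e1, hx1.2]
      ring
    · rw [inner_add_right, inner_smul_right, inner_sub_right, e2]
      linear_combination ht2
  · rw [hmem]
    rintro ⟨-, h1⟩
    linarith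
  · rw [hmem]
    rintro ⟨-, h1⟩
    linarith

/-- A strict point of a facet is in its relative interior. -/
lemma mem_intrinsicInterior_facet (R : Reg c h r m) {i : ι} {p : E} (h1 : ⟪c i, p⟫ = h)
    (h2 : ∀ k, k ≠ i → ⟪c k, p⟫ < h) : p ∈ intrinsicInterior ℝ (R.facet i).1 := by
  have hp : p ∈ (R.facet i).1 := by
    rw [R.mem_facet]
    refine ⟨fun k => ?_, h1⟩
    by_cases hk : k = i
    · rw [hk, h1]
    · exact (h2 k hk).le
  rw [mem_intrinsicInterior]
  refine ⟨⟨p, subset_affineSpan ℝ _ hp⟩, ?_, rfl⟩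
  rw [mem_interior_iff_mem_nhds]
  have hspan : ∀ z ∈ affineSpan ℝ (R.facet i).1, ⟪c i, z⟫ = h := by
    intro z hz
    refine affineSpan_induction (k := ℝ) (p := fun z => ⟪c i, z⟫ = h) hz ?_ ?_
    · intro x hx
      exact (R.mem_facet.1 hx).2
    · intro a u v w hu hv hw
      simp only [vsub_eq_sub, vadd_eq_add]
      rw [inner_add_right, inner_smul_right, inner_sub_right, hu, hv, hw]
      ring
  have hopen : ∀ k : ι, k ≠ i → IsOpen {z : (affineSpan ℝ (R.facet i).1) | ⟪c k, (z : E)⟫ < h} := by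
    intro k _
    apply isOpen_lt
    · fun_prop
    · exact continuous_const
  have hev : ∀ᶠ z : (affineSpan ℝ (R.facet i).1) in nhds ⟨p, subset_affineSpan ℝ _ hp⟩,
      ∀ k, k ≠ i → ⟪c k, (z : E)⟫ < h := by
    rw [Filter.eventually_all]
    intro k
    by_cases hk : k = i
    · exact Filter.Eventually.of_forall fun z hz => absurd hk hz
    · have h3 : {z : (affineSpan ℝ (R.facet i).1) | ⟪c k, (z : E)⟫ < h} ∈
          nhds (⟨p, subset_affineSpan ℝ _ hp⟩ : (affineSpan ℝ (R.facet i).1)) :=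
        (hopen k hk).mem_nhds (h2 k hk)
      exact Filter.mem_of_superset h3 fun z hz _ => hz
  filter_upwards [hev] with z hz
  rw [Set.mem_preimage, R.mem_facet]
  refine ⟨fun k => ?_, hspan z z.2⟩
  by_cases hk : k = i
  · rw [hk, hspan z z.2]
  · exact (hz k hk).le

/-- Push a point along a chain of facets. -/
noncomputable def push (c : ι → E) (h : ℝ) : List ι → E → E
  | [], x => x
  | [_], x => x
  | i :: j :: l, x => push c h (j :: l) (sig c h i j x)

/-- The criterion: a chain of pairwise distinct, consecutively adjacent facets, and a point in the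
relative interior of the first one whose transport lies in the relative interior of the last
one, show that the polytope is not all-net. -/
theorem not_allNet (R : Reg c h r m) (i₀ : ι) (l : List ι)
    (hconn : ∀ i, Relation.ReflTransGen (fun i j => ⟪c i, c j⟫ = m) i₀ i)
    (hnodup : (i₀ :: l).Nodup) (hne : l ≠ [])
    (hchain : (i₀ :: l).IsChain (fun i j => ⟪c i, c j⟫ = m))
    (p : E) (hp1 : ⟪c i₀, p⟫ = h) (hp2 : ∀ k, k ≠ i₀ → ⟪c k, p⟫ < h)
    (iₖ : ι) (hlast : (i₀ :: l).getLast? = some iₖ)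
    (hq1 : ⟪c iₖ, push c h (i₀ :: l) p⟫ = h)
    (hq2 : ∀ k, k ≠ iₖ → ⟪c k, push c h (i₀ :: l) p⟫ < h) :
    ¬ AllNet (poly c h) := by
  classical
  intro hall
  have hN : Nonempty ι := ⟨i₀⟩
  let e : ι ≃ Facet (poly c h) := Equiv.ofBijective R.facet ⟨R.facet_injective, R.facet_surjective⟩
  have he : ∀ i, e i = R.facet i := fun i => rfl
  -- the graph of special adjacencies
  let A : SimpleGraph (Facet (poly c h)) :=
    { Adj := fun F G => ⟪c (e.symm F), c (e.symm G)⟫ = m
      symm := ⟨fun F G hFG => by rw [real_inner_comm]; exact hFG⟩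
      loopless := ⟨fun F hF => by
        rw [R.norm] at hF
        exact absurd hF R.m_lt.ne'⟩ }
  have hA : ∀ F G, A.Adj F G ↔ ⟪c (e.symm F), c (e.symm G)⟫ = m := fun F G => Iff.rfl
  have hAe : ∀ i j, A.Adj (e i) (e j) ↔ ⟪c i, c j⟫ = m := by
    intro i j
    rw [hA, e.symm_apply_apply, e.symm_apply_apply]
  have hAle : A ≤ dualGraph (poly c h) := by
    intro F G hFG
    rw [hA] at hFG
    have := R.adj hFG
    rw [← he, ← he, e.apply_symm_apply, e.apply_symm_apply] at this
    exact this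
  have hAconn : A.Connected := by
    have hreach : ∀ i, A.Reachable (e i₀) (e i) := by
      intro i
      induction hconn i with
      | refl => exact SimpleGraph.Reachable.refl _
      | tail _ hbc ih => exact ih.trans (((hAe _ _).2 hbc).reachable)
    have : Nonempty (Facet (poly c h)) := ⟨e i₀⟩
    refine SimpleGraph.Connected.mk ?_
    intro F G
    have h1 := hreach (e.symm F)
    have h2 := hreach (e.symm G)
    rw [e.apply_symm_apply] at h1 h2
    exact h1.symm.trans h2
  -- the spanning tree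
  have hchainA : ((i₀ :: l).map e).IsChain A.Adj := by
    rw [List.isChain_map]
    exact hchain.imp fun i j hij => (hAe i j).2 hij
  have hnodupA : ((i₀ :: l).map e).Nodup := hnodup.map e.injective
  obtain ⟨T, hT1, hT2, hT3⟩ := hAconn.exists_isTree_le_of_le_of_isAcyclic
    (chainG_le _ hchainA) (chainG_acyclic _ hnodupA)
  have hTchain : ((i₀ :: l).map e).IsChain T.Adj :=
    (isChain_chainG _ hnodupA).imp fun F G hFG => hT1 hFG
  -- the placements
  obtain ⟨φ, hφ0, hφ⟩ := exists_place hT3 (fun F G => sig c h (e.symm F) (e.symm G))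
    (by
      intro F G hFG x
      rw [sig_comm (e.symm G) (e.symm F)]
      exact R.sig_sig ((hA _ _).1 (hT2 hFG)) x) (e i₀)
  have hmemF : ∀ F : Facet (poly c h), ∀ x, x ∈ F.1 ↔ x ∈ poly c h ∧ ⟪c (e.symm F), x⟫ = h := by
    intro F x
    have := R.mem_facet (i := e.symm F) (x := x)
    rwa [← he, e.apply_symm_apply] at this
  -- all images lie in the hyperplane of the root
  let Hn : AffineSubspace ℝ E := AffineSubspace.mk' ((h / r) • c i₀) (Submodule.span ℝ {c i₀})ᗮ
  have hHn : ∀ x, x ∈ Hn ↔ ⟪c i₀, x⟫ = h := by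
    intro x
    rw [AffineSubspace.mem_mk', vsub_eq_sub, Submodule.mem_orthogonal_singleton_iff_inner_right,
      inner_sub_right, R.center_self, sub_eq_zero]
  have hplace : ∀ F : Facet (poly c h), ∀ x, ⟪c (e.symm F), x⟫ = h → φ F x ∈ Hn := by
    intro F
    have hreach := (SimpleGraph.reachable_iff_reflTransGen _ _).1 (hT3.connected (e i₀) F)
    induction hreach with
    | refl =>
      intro x hx
      rw [e.symm_apply_apply] at hx
      rw [hφ0, hHn]
      exact hx
    | tail _ hbc ih =>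
      intro x hx
      rw [hφ _ _ hbc]
      apply ih
      have h1 := (hA _ _).1 (hT2 hbc)
      rw [R.inner_sig_left h1, hx]
      ring
  have hfin : finrank ℝ Hn.direction = finrank ℝ E - 1 := by
    have h1 : Hn.direction = (Submodule.span ℝ {c i₀})ᗮ := AffineSubspace.direction_mk' _ _
    have h2 := Submodule.finrank_add_finrank_orthogonal (Submodule.span ℝ {c i₀})
    rw [finrank_span_singleton (R.ne_zero i₀)] at h2
    rw [h1]
    omega
  let U : RidgeUnfolding (poly c h) :=
    { tree := T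
      tree_le := hT2.trans hAle
      isTree := hT3
      target := Hn
      finrank_target := hfin
      place := φ
      place_mem := fun F x hx => hplace F x ((hmemF F x).1 hx).2
      glue := by
        intro F G hFG x hx
        have h1 := (hA _ _).1 (hT2 hFG)
        rw [hφ _ _ hFG, R.sig_fix h1 ((hmemF F x).1 hx.1).2 ((hmemF G x).1 hx.2).2]
      oppSide := by
        intro F G hFG x hx y hy
        have h1 := (hA _ _).1 (hT2 hFG)
        have h2 := R.oppSide_sig h1 (x := x) (y := y)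
          (by rw [← he, ← he, e.apply_symm_apply, e.apply_symm_apply]; exact hx)
          (by rw [← he, ← he, e.apply_symm_apply, e.apply_symm_apply]; exact hy)
        rw [← he, ← he, e.apply_symm_apply, e.apply_symm_apply] at h2
        rw [hφ _ _ hFG]
        have h3 := ((φ F).toAffineEquiv.sOppSide_map_iff).2 h2
        have h4 : (affineSpan ℝ (F.1 ∩ G.1)).map ((φ F).toAffineEquiv : E →ᵃ[ℝ] E) =
            affineSpan ℝ ((φ F) '' (F.1 ∩ G.1)) := by
          rw [AffineSubspace.map_span]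
          rfl
        rw [h4] at h3
        exact h3 }
  -- the transport along the chain
  have hpush : ∀ (L : List ι) (i j : ι) (x : E), ((i :: L).map e).IsChain T.Adj →
      (i :: L).getLast? = some j → φ (e j) (push c h (i :: L) x) = φ (e i) x := by
    intro L
    induction L with
    | nil =>
      intro i j x _ hj
      simp only [List.getLast?_singleton, Option.some.injEq] at hj
      subst hj
      rfl
    | cons k L ih =>
      intro i j x hch hj
      rw [List.map_cons, List.map_cons, List.isChain_cons_cons] at hch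
      rw [List.getLast?_cons_cons] at hj
      have h1 := ih k j (sig c h i k x) hch.2 hj
      have h2 : push c h (i :: k :: L) x = push c h (k :: L) (sig c h i k x) := rfl
      rw [h2, h1, hφ _ _ hch.1.symm, e.symm_apply_apply, e.symm_apply_apply, sig_comm k i]
  have hk : φ (e iₖ) (push c h (i₀ :: l) p) = p := by
    rw [hpush l i₀ iₖ p hTchain hlast, hφ0]
  have hne' : e i₀ ≠ e iₖ := by
    intro h1
    have h2 := e.injective h1
    obtain ⟨a, l', rfl⟩ := List.exists_cons_of_ne_nil hne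
    rw [List.getLast?_cons_cons] at hlast
    have h3 : iₖ ∈ a :: l' := List.mem_of_getLast? hlast
    rw [← h2] at h3
    exact (List.nodup_cons.1 hnodup).1 h3
  have hdisj := hall U (e i₀) (e iₖ) hne'
  have hm1 : p ∈ intrinsicInterior ℝ (U.place (e i₀) '' (e i₀).1) := by
    show p ∈ intrinsicInterior ℝ (φ (e i₀) '' (e i₀).1)
    have h1 : (φ (e i₀) '' (e i₀).1) = (e i₀).1 := by
      ext x
      constructor
      · rintro ⟨y, hy, rfl⟩
        rw [hφ0]; exact hy
      · intro hx
        exact ⟨x, hx, hφ0 x⟩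
    rw [h1]
    exact R.mem_intrinsicInterior_facet hp1 hp2
  have hm2 : p ∈ intrinsicInterior ℝ (U.place (e iₖ) '' (e iₖ).1) := by
    show p ∈ intrinsicInterior ℝ (φ (e iₖ) '' (e iₖ).1)
    have h1 : intrinsicInterior ℝ (φ (e iₖ) '' (e iₖ).1) =
        φ (e iₖ) '' intrinsicInterior ℝ (e iₖ).1 :=
      AffineIsometry.intrinsicInterior_image (φ (e iₖ)).toAffineIsometry _
    rw [h1]
    exact ⟨_, R.mem_intrinsicInterior_facet hq1 hq2, hk⟩
  exact Set.disjoint_left.1 hdisj hm1 hm2

end Reg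

end Main

end Pool.Agent.Unfold
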