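import Pool.Agent.AllNet.HullData

/-!
# The cells as polytopes given by inequalities
-/

set_option linter.unusedSectionVars false

namespace Pool.Agent.Unfold

open Module
open scoped RealInnerProductSpace Pointwise

/-- coordinates -/
def cf (v : V8) : Fin 4 → ℤ × ℤ := ![(v.a0, v.b0), (v.a1, v.b1), (v.a2, v.b2), (v.a3, v.b3)]

/-- permuted vector -/
def permV (v : V8) (σ : Fin 4 → Fin 4) : V8 :=
  ⟨(cf v (σ 0)).1, (cf v (σ 0)).2, (cf v (σ 1)).1, (cf v (σ 1)).2,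
   (cf v (σ 2)).1, (cf v (σ 2)).2, (cf v (σ 3)).1, (cf v (σ 3)).2⟩

lemma co_eq_cf (v : V8) (i : Fin 4) : v.co i = zr (cf v i).1 (cf v i).2 := by
  fin_cases i <;> rfl

lemma co_permV (v : V8) (σ : Fin 4 → Fin 4) (i : Fin 4) : (permV v σ).co i = v.co (σ i) := by
  rw [co_eq_cf v (σ i)]
  fin_cases i <;> rfl

lemma mem_signedPerms_iff {A : Set (Equiv.Perm (Fin 4))} {b : Fin 4 → ℝ} {v : V8} {c : ℝ}
    (hc : c ≠ 0) (hb : ∀ i, v.co i = c * b i) (q : E4) :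
    q ∈ signedPerms A b ↔ ∃ σ ∈ A, ∃ s : Fin 4 → ℝ, (∀ i, s i = 1 ∨ s i = -1) ∧
      c • q = sE s (permV v σ) := by
  constructor
  · rintro ⟨σ, hσ, s, hs, h⟩
    refine ⟨σ, hσ, s, hs, ?_⟩
    ext i
    rw [PiLp.smul_apply, smul_eq_mul, sE_apply, co_permV, hb, h]
    ring
  · rintro ⟨σ, hσ, s, hs, h⟩
    refine ⟨σ, hσ, s, hs, fun i => ?_⟩
    have h1 : (c • q) i = sE s (permV v σ) i := by rw [h]
    rw [PiLp.smul_apply, smul_eq_mul, sE_apply, co_permV, hb] at h1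
    have h2 : c * (q i - s i * b (σ i)) = 0 := by linear_combination h1
    rcases mul_eq_zero.1 h2 with h3 | h3
    · exact absurd h3 hc
    · linarith

lemma dec1 : ∀ σ : Equiv.Perm (Fin 4), permV ⟨4, 0, 0, 0, 0, 0, 0, 0⟩ σ ∈ L120 := by
  decide +kernel

lemma dec2 : ∀ σ : Equiv.Perm (Fin 4), permV ⟨2, 0, 2, 0, 2, 0, 2, 0⟩ σ ∈ L120 := by
  decide +kernel

lemma dec3 : ∀ σ : Equiv.Perm (Fin 4), Equiv.Perm.sign σ = 1 →
    permV ⟨1, 1, 2, 0, -1, 1, 0, 0⟩ σ ∈ L120 := by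
  decide +kernel

lemma dec4 : ∀ u ∈ L120, (∃ σ : Equiv.Perm (Fin 4), u = permV ⟨4, 0, 0, 0, 0, 0, 0, 0⟩ σ) ∨
    (∃ σ : Equiv.Perm (Fin 4), u = permV ⟨2, 0, 2, 0, 2, 0, 2, 0⟩ σ) ∨
    (∃ σ : Equiv.Perm (Fin 4), Equiv.Perm.sign σ = 1 ∧
      u = permV ⟨1, 1, 2, 0, -1, 1, 0, 0⟩ σ) := by
  decide +kernel

lemma inv_golden : Real.goldenRatio⁻¹ = (r5 - 1) / 2 := by
  rw [Real.inv_goldenRatio, Real.goldenConj]
  ring

lemma mem_icosians_iff (q : E4) : q ∈ icosians ↔ (4 : ℝ) • q ∈ nset L120 := by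
  have h4 : (4 : ℝ) ≠ 0 := by norm_num
  have b1 : ∀ i, V8.co ⟨4, 0, 0, 0, 0, 0, 0, 0⟩ i = 4 * (![1, 0, 0, 0] : Fin 4 → ℝ) i := by
    intro i
    fin_cases i <;> simp [V8.co, zr]
  have b2 : ∀ i, V8.co ⟨2, 0, 2, 0, 2, 0, 2, 0⟩ i =
      4 * (![1 / 2, 1 / 2, 1 / 2, 1 / 2] : Fin 4 → ℝ) i := by
    intro i
    fin_cases i <;> simp [V8.co, zr] <;> norm_num
  have b3 : ∀ i, V8.co ⟨1, 1, 2, 0, -1, 1, 0, 0⟩ i =
      4 * (![Real.goldenRatio / 2, 1 / 2, Real.goldenRatio⁻¹ / 2, 0] : Fin 4 → ℝ) i := by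
    intro i
    rw [inv_golden, Real.goldenRatio]
    fin_cases i
    · simp [V8.co, zr]; ring
    · simp [V8.co, zr]; norm_num
    · simp [V8.co, zr]; ring
    · simp [V8.co, zr]
  unfold icosians
  rw [Set.mem_union, Set.mem_union, mem_signedPerms_iff h4 b1, mem_signedPerms_iff h4 b2,
    mem_signedPerms_iff h4 b3, mem_nset]
  constructor
  · rintro ((⟨σ, -, s, hs, h⟩ | ⟨σ, -, s, hs, h⟩) | ⟨σ, hσ, s, hs, h⟩)
    · exact ⟨_, dec1 σ, s, hs, h⟩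
    · exact ⟨_, dec2 σ, s, hs, h⟩
    · exact ⟨_, dec3 σ hσ, s, hs, h⟩
  · rintro ⟨u, hu, s, hs, h⟩
    rcases dec4 u hu with ⟨σ, rfl⟩ | ⟨σ, rfl⟩ | ⟨σ, hσ, rfl⟩
    · exact Or.inl (Or.inl ⟨σ, Set.mem_univ _, s, hs, h⟩)
    · exact Or.inl (Or.inr ⟨σ, Set.mem_univ _, s, hs, h⟩)
    · exact Or.inr ⟨σ, hσ, s, hs, h⟩

theorem cell120_eq : cell120 = poly (fun q : nset L120 => (q : E4)) (zr 4 0) := by
  have h0 : zr 4 0 = 4 := by rw [zr_int]; norm_num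
  ext x
  constructor
  · rintro hx ⟨q, hq⟩
    have h1 : (4 : ℝ)⁻¹ • q ∈ icosians := by
      rw [mem_icosians_iff, smul_inv_smul₀ (by norm_num)]
      exact hq
    have h2 := hx _ (subset_convexHull ℝ _ h1)
    rw [inner_smul_left] at h2
    simp only [map_inv₀, conj_trivial] at h2
    show ⟪q, x⟫ ≤ zr 4 0
    rw [h0]
    linarith
  · intro hx y hy
    have h3 : icosians ⊆ {y : E4 | ⟪y, x⟫ ≤ 1} := by
      intro q hq
      have h4 := hx ⟨(4 : ℝ) • q, (mem_icosians_iff q).1 hq⟩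
      simp only at h4
      rw [inner_smul_left, h0] at h4
      simp only [conj_trivial] at h4
      show ⟪q, x⟫ ≤ 1
      linarith
    have h5 : Convex ℝ {y : E4 | ⟪y, x⟫ ≤ 1} := by
      intro a ha b hb s t hs ht hst
      simp only [Set.mem_ofPred_eq] at ha hb ⊢
      rw [inner_add_left, inner_smul_left, inner_smul_left]
      simp only [conj_trivial]
      nlinarith
    exact convexHull_min h3 h5 hy

theorem cell600_eq : cell600 = poly (fun q : nset L600 => (q : E4)) (zr 3 1) := by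
  have h1 := hull_eq checkHull600 (by simp [L600])
  have h2 : icosians = (4 : ℝ)⁻¹ • nset L120 := by
    ext q
    rw [mem_icosians_iff, Set.mem_inv_smul_set_iff₀ (by norm_num)]
  have h3 : zr 12 4 = 4 * zr 3 1 := by unfold zr; push_cast; ring
  unfold cell600
  rw [h2, convexHull_smul, h1]
  ext x
  rw [Set.mem_inv_smul_set_iff₀ (by norm_num)]
  constructor
  · rintro hx ⟨q, hq⟩
    have h4 := hx q hq
    rw [inner_smul_right, h3] at h4
    show ⟪q, x⟫ ≤ zr 3 1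
    linarith
  · intro hx q hq
    have h4 : ⟪q, x⟫ ≤ zr 3 1 := hx ⟨q, hq⟩
    rw [inner_smul_right, h3]
    linarith

/-! ## The 24-cell -/

lemma abs_form {x : E4} (h : ∀ q ∈ nset L24, ⟪q, x⟫ ≤ 2) :
    (∀ i, |x i| ≤ 1) ∧ ∑ i, |x i| ≤ 2 := by
  have hs : ∀ i, (if 0 ≤ x i then (1 : ℝ) else -1) = 1 ∨ (if 0 ≤ x i then (1 : ℝ) else -1) = -1 := by
    intro i; split_ifs <;> simp
  have habs : ∀ i, (if 0 ≤ x i then (1 : ℝ) else -1) * x i = |x i| := by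
    intro i
    split_ifs with h
    · rw [abs_of_nonneg h, one_mul]
    · rw [abs_of_neg (not_le.1 h)]; ring
  have key : ∀ u ∈ L24, ∑ i, u.co i * |x i| ≤ 2 := by
    intro u hu
    have h1 := h (sE (fun i => if 0 ≤ x i then (1 : ℝ) else -1) u)
      (mem_nset.2 ⟨u, hu, _, hs, rfl⟩)
    rw [inner_E4] at h1
    simp only [sE_apply] at h1
    rw [Fin.sum_univ_four, ← habs 0, ← habs 1, ← habs 2, ← habs 3]
    linarith
  constructor
  · intro i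
    have e0 := key ⟨2, 0, 0, 0, 0, 0, 0, 0⟩ (by simp [L24])
    have e1 := key ⟨0, 0, 2, 0, 0, 0, 0, 0⟩ (by simp [L24])
    have e2 := key ⟨0, 0, 0, 0, 2, 0, 0, 0⟩ (by simp [L24])
    have e3 := key ⟨0, 0, 0, 0, 0, 0, 2, 0⟩ (by simp [L24])
    rw [Fin.sum_univ_four] at e0 e1 e2 e3
    simp [V8.co, zr] at e0 e1 e2 e3
    fin_cases i
    · exact e0
    · exact e1
    · exact e2
    · exact e3
  · have e0 := key ⟨1, 0, 1, 0, 1, 0, 1, 0⟩ (by simp [L24])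
    rw [Fin.sum_univ_four] at e0 ⊢
    simpa [V8.co, zr] using e0

lemma exists_two_max (b : Fin 4 → ℝ) : ∃ i j : Fin 4, i ≠ j ∧ (∀ k, b k ≤ b i) ∧
    ∀ k, k ≠ i → b k ≤ b j := by
  obtain ⟨i, -, hi⟩ := Finset.exists_max_image Finset.univ b ⟨0, Finset.mem_univ _⟩
  obtain ⟨j, hj, hj2⟩ := Finset.exists_max_image (Finset.univ.erase i) b (by
    rw [← Finset.card_pos, Finset.card_erase_of_mem (Finset.mem_univ _)]
    simp)
  refine ⟨i, j, (Finset.ne_of_mem_erase hj).symm, fun k => hi k (Finset.mem_univ _), fun k hk => ?_⟩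
  exact hj2 k (Finset.mem_erase.2 ⟨hk, Finset.mem_univ _⟩)

lemma exists_perm {i j : Fin 4} (hij : i ≠ j) : ∃ σ : Equiv.Perm (Fin 4), ∀ k,
    (![1, 1, 0, 0] : Fin 4 → ℝ) (σ k) = if k = i ∨ k = j then 1 else 0 := by
  have h : ∀ i j : Fin 4, i ≠ j → ∃ σ : Equiv.Perm (Fin 4), ∀ k,
    (![1, 1, 0, 0] : Fin 4 → ℤ) (σ k) = if k = i ∨ k = j then 1 else 0 := by
    decide +kernel
  obtain ⟨σ, hσ⟩ := h i j hij
  refine ⟨σ, fun k => ?_⟩
  have h1 := hσ k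
  have h2 : ∀ l : Fin 4, (![1, 1, 0, 0] : Fin 4 → ℝ) l = (((![1, 1, 0, 0] : Fin 4 → ℤ) l : ℤ) : ℝ) := by
    intro l; fin_cases l <;> simp
  rw [h2, h1]
  push_cast
  rfl

lemma signedPerms_finite : (signedPerms Set.univ ![1, 1, 0, 0]).Finite := by
  have h1 : signedPerms Set.univ ![1, 1, 0, 0] ⊆
      nset [⟨1, 0, 1, 0, 0, 0, 0, 0⟩, ⟨1, 0, 0, 0, 1, 0, 0, 0⟩, ⟨1, 0, 0, 0, 0, 0, 1, 0⟩,
        ⟨0, 0, 1, 0, 1, 0, 0, 0⟩, ⟨0, 0, 1, 0, 0, 0, 1, 0⟩, ⟨0, 0, 0, 0, 1, 0, 1, 0⟩] := by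
    intro q hq
    have b1 : ∀ i, V8.co ⟨1, 0, 1, 0, 0, 0, 0, 0⟩ i = 1 * (![1, 1, 0, 0] : Fin 4 → ℝ) i := by
      intro i
      fin_cases i <;> simp [V8.co, zr]
    rw [mem_signedPerms_iff one_ne_zero b1] at hq
    obtain ⟨σ, -, s, hs, h⟩ := hq
    rw [one_smul] at h
    have h2 : ∀ σ : Equiv.Perm (Fin 4), permV ⟨1, 0, 1, 0, 0, 0, 0, 0⟩ σ ∈
      ([⟨1, 0, 1, 0, 0, 0, 0, 0⟩, ⟨1, 0, 0, 0, 1, 0, 0, 0⟩, ⟨1, 0, 0, 0, 0, 0, 1, 0⟩,
        ⟨0, 0, 1, 0, 1, 0, 0, 0⟩, ⟨0, 0, 1, 0, 0, 0, 1, 0⟩, ⟨0, 0, 0, 0, 1, 0, 1, 0⟩] :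
          List V8) := by decide +kernel
    exact mem_nset.2 ⟨_, h2 σ, s, hs, h⟩
  exact (nset_finite _).subset h1

lemma mem_cell24 {x : E4} (h1 : ∀ i, |x i| ≤ 1) (h2 : ∑ i, |x i| ≤ 2) : x ∈ cell24 := by
  by_contra hcon
  unfold cell24 at hcon
  have hclosed : IsClosed (convexHull ℝ (signedPerms Set.univ ![1, 1, 0, 0])) := by
    have h := signedPerms_finite.isCompact_convexHull (𝕜 := ℝ)
    exact h.isClosed
  obtain ⟨f, u, hf1, hf2⟩ :=
    geometric_hahn_banach_closed_point (convex_convexHull ℝ _) hclosed hcon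
  obtain ⟨a, ha⟩ : ∃ a : E4, ∀ y, f y = ⟪a, y⟫ :=
    ⟨(InnerProductSpace.toDual ℝ E4).symm f, fun y =>
      (InnerProductSpace.toDual_symm_apply (𝕜 := ℝ)).symm⟩
  obtain ⟨i, j, hij, hi, hj⟩ := exists_two_max (fun k => |a k|)
  simp only at hi hj
  obtain ⟨σ, hσ⟩ := exists_perm hij
  have hs : ∀ k, (if 0 ≤ a k then (1 : ℝ) else -1) = 1 ∨ (if 0 ≤ a k then (1 : ℝ) else -1) = -1 := by
    intro k; split_ifs <;> simp
  have habs : ∀ k, a k * (if 0 ≤ a k then (1 : ℝ) else -1) = |a k| := by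
    intro k
    split_ifs with h
    · rw [abs_of_nonneg h, mul_one]
    · rw [abs_of_neg (not_le.1 h)]; ring
  have h3 := hf1 (WithLp.toLp 2 fun k => (if 0 ≤ a k then (1 : ℝ) else -1) *
    (![1, 1, 0, 0] : Fin 4 → ℝ) (σ k)) (subset_convexHull ℝ _
      ⟨σ, Set.mem_univ _, fun k => if 0 ≤ a k then (1 : ℝ) else -1, hs, fun k => rfl⟩)
  have h4 : f (WithLp.toLp 2 fun k => (if 0 ≤ a k then (1 : ℝ) else -1) *
    (![1, 1, 0, 0] : Fin 4 → ℝ) (σ k)) = |a i| + |a j| := by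
    rw [ha, PiLp.inner_apply]
    have h5 : ∀ k, ⟪a k, (WithLp.toLp 2 fun k => (if 0 ≤ a k then (1 : ℝ) else -1) *
        (![1, 1, 0, 0] : Fin 4 → ℝ) (σ k) : E4) k⟫ = if k = i ∨ k = j then |a k| else 0 := by
      intro k
      have h6 : ⟪a k, (WithLp.toLp 2 fun k => (if 0 ≤ a k then (1 : ℝ) else -1) *
        (![1, 1, 0, 0] : Fin 4 → ℝ) (σ k) : E4) k⟫ = (a k * (if 0 ≤ a k then (1 : ℝ) else -1)) *
          (![1, 1, 0, 0] : Fin 4 → ℝ) (σ k) := by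
        simp only [RCLike.inner_apply, conj_trivial]
        ring
      rw [h6, habs, hσ k]
      by_cases h7 : k = i ∨ k = j
      · rw [if_pos h7, if_pos h7, mul_one]
      · rw [if_neg h7, if_neg h7, mul_zero]
    rw [Finset.sum_congr rfl fun k _ => h5 k, ← Finset.sum_filter]
    have h6 : Finset.univ.filter (fun k : Fin 4 => k = i ∨ k = j) = {i, j} := by
      ext k; simp
    rw [h6, Finset.sum_pair hij]
  rw [h4] at h3
  rw [ha] at hf2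
  have h7 : ⟪a, x⟫ ≤ ∑ k, |a k| * |x k| := by
    rw [inner_E4, Fin.sum_univ_four]
    have h8 : ∀ k, a k * x k ≤ |a k| * |x k| := fun k => by
      rw [← abs_mul]; exact le_abs_self _
    linarith [h8 0, h8 1, h8 2, h8 3]
  have h9 : ∑ k, |a k| * |x k| ≤ (|a i| - |a j|) * |x i| + |a j| * ∑ k, |x k| := by
    rw [Finset.mul_sum, ← Finset.add_sum_erase _ _ (Finset.mem_univ i),
      ← Finset.add_sum_erase _ (fun k => |a j| * |x k|) (Finset.mem_univ i)]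
    have h10 : ∑ k ∈ Finset.univ.erase i, |a k| * |x k| ≤
        ∑ k ∈ Finset.univ.erase i, |a j| * |x k| := by
      apply Finset.sum_le_sum
      intro k hk
      exact mul_le_mul_of_nonneg_right (hj k (Finset.ne_of_mem_erase hk)) (abs_nonneg _)
    linarith
  have h11 : (|a i| - |a j|) * |x i| ≤ |a i| - |a j| := by
    have := mul_le_mul_of_nonneg_left (h1 i) (sub_nonneg.2 (hi j))
    linarith
  have h12 : |a j| * ∑ k, |x k| ≤ |a j| * 2 := mul_le_mul_of_nonneg_left h2 (abs_nonneg _)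
  linarith

theorem cell24_eq : cell24 = poly (fun q : nset L24 => (q : E4)) (zr 2 0) := by
  have h0 : zr 2 0 = 2 := by rw [zr_int]; norm_num
  apply le_antisymm
  · unfold cell24
    apply convexHull_min
    · rintro q ⟨σ, -, s, hs, h⟩ ⟨n, hn⟩
      show ⟪n, q⟫ ≤ zr 2 0
      obtain ⟨u, hu, t, ht, rfl⟩ := mem_nset.1 hn
      have b1 : ∀ i, V8.co ⟨1, 0, 1, 0, 0, 0, 0, 0⟩ i = (![1, 1, 0, 0] : Fin 4 → ℝ) i := by
        intro i
        fin_cases i <;> simp [V8.co, zr]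
      have h1 : q = sE s (permV ⟨1, 0, 1, 0, 0, 0, 0, 0⟩ σ) := by
        ext i
        rw [sE_apply, co_permV, b1, h]
      rw [h1, inner_sE]
      have h2 : ∀ σ : Equiv.Perm (Fin 4), ∀ u ∈ L24,
          leQ (ipA u (permV ⟨1, 0, 1, 0, 0, 0, 0, 0⟩ σ) - 2)
            (ipB u (permV ⟨1, 0, 1, 0, 0, 0, 0, 0⟩ σ) - 0) = true := by decide +kernel
      have h3 := leQ_sound (h2 σ u hu)
      rw [← zr_sub, ← inner_toE, inner_toE_sum] at h3
      have h4 : ∀ i, 0 ≤ u.co i := fun i => co_nonneg (L := L24) (by decide +kernel) hu i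
      have h5 : ∀ i, 0 ≤ (permV ⟨1, 0, 1, 0, 0, 0, 0, 0⟩ σ).co i := by
        intro i
        rw [co_permV, b1]
        generalize σ i = k
        fin_cases k <;> simp
      have h8 : ∑ i, (t i * s i) * (u.co i * (permV ⟨1, 0, 1, 0, 0, 0, 0, 0⟩ σ).co i) ≤
          ∑ i, u.co i * (permV ⟨1, 0, 1, 0, 0, 0, 0, 0⟩ σ).co i := by
        apply Finset.sum_le_sum
        intro i _
        have h9 : t i * s i ≤ 1 := by
          rcases sign_mul (ht i) (hs i) with h | h <;> rw [h]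
          norm_num
        have h10 := mul_nonneg (h4 i) (h5 i)
        nlinarith
      linarith
    · intro y hy z hz a b ha hb hab k
      rw [inner_add_right, inner_smul_right, inner_smul_right]
      calc a * ⟪(k : E4), y⟫ + b * ⟪(k : E4), z⟫ ≤ a * zr 2 0 + b * zr 2 0 :=
            add_le_add (mul_le_mul_of_nonneg_left (hy k) ha) (mul_le_mul_of_nonneg_left (hz k) hb)
        _ = zr 2 0 := by rw [← add_mul, hab, one_mul]
  · intro x hx
    have h1 : ∀ q ∈ nset L24, ⟪q, x⟫ ≤ 2 := by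
      intro q hq
      have := hx ⟨q, hq⟩
      rw [h0] at this
      exact this
    obtain ⟨h2, h3⟩ := abs_form h1
    exact mem_cell24 h2 h3

end Pool.Agent.Unfold
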