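import Pool.Agent.AllNet.Basic

/-!
# A finite check for polytopes with normals in `ℤ[√5]⁴` which are invariant under sign changes
-/

set_option linter.unusedSectionVars false

namespace Pool.Agent.Unfold

open Module
open scoped RealInnerProductSpace

/-- Euclidean 4-space. -/
abbrev E4 : Type := EuclideanSpace ℝ (Fin 4)

/-- Vectors over `ℤ[√5]`. -/
structure V8 where
  a0 : ℤ
  b0 : ℤ
  a1 : ℤ
  b1 : ℤ
  a2 : ℤ
  b2 : ℤ
  a3 : ℤ
  b3 : ℤ
deriving DecidableEq

/-- `√5` -/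
noncomputable abbrev r5 : ℝ := Real.sqrt 5

lemma r5_sq : r5 * r5 = 5 := Real.mul_self_sqrt (by norm_num)

lemma r5_pos : 0 < r5 := Real.sqrt_pos.2 (by norm_num)

/-- The real number `a + b√5`. -/
noncomputable def zr (a b : ℤ) : ℝ := (a : ℝ) + (b : ℝ) * r5

lemma zr_mul (a b c d : ℤ) : zr a b * zr c d = zr (a * c + 5 * (b * d)) (a * d + b * c) := by
  unfold zr
  push_cast
  linear_combination ((b : ℝ) * d) * r5_sq

lemma zr_add (a b c d : ℤ) : zr a b + zr c d = zr (a + c) (b + d) := by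
  unfold zr; push_cast; ring

lemma zr_sub (a b c d : ℤ) : zr a b - zr c d = zr (a - c) (b - d) := by
  unfold zr; push_cast; ring

lemma zr_zero : zr 0 0 = 0 := by unfold zr; simp

lemma zr_int (a : ℤ) : zr a 0 = a := by unfold zr; simp

/-- Sufficient test for `a + b√5 < 0`. -/
def negQ (a b : ℤ) : Bool :=
  (decide (a < 0) && (decide (b ≤ 0) || decide (5 * (b * b) < a * a))) ||
  (decide (b < 0) && (decide (a ≤ 0) || decide (a * a < 5 * (b * b))))

lemma negQ_sound {a b : ℤ} (h : negQ a b = true) : zr a b < 0 := by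
  unfold negQ at h
  simp only [Bool.or_eq_true, Bool.and_eq_true, decide_eq_true_eq] at h
  have h5 := r5_pos
  have h6 := r5_sq
  unfold zr
  rcases h with ⟨ha, hb | hb⟩ | ⟨hb, ha | ha⟩
  · have ha' : (a : ℝ) < 0 := by exact_mod_cast ha
    have hb' : (b : ℝ) ≤ 0 := by exact_mod_cast hb
    nlinarith
  · have ha' : (a : ℝ) < 0 := by exact_mod_cast ha
    have hb' : 5 * ((b : ℝ) * b) < a * a := by exact_mod_cast hb
    by_contra hcon
    push Not at hcon
    have h7 : 0 < (b : ℝ) * r5 := by linarith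
    have h8 : -(a : ℝ) ≤ b * r5 := by linarith
    have h9 : (-(a : ℝ)) * (-a) ≤ (b * r5) * (b * r5) := mul_self_le_mul_self (by linarith) h8
    nlinarith
  · have ha' : (a : ℝ) ≤ 0 := by exact_mod_cast ha
    have hb' : (b : ℝ) < 0 := by exact_mod_cast hb
    nlinarith
  · have ha' : (a : ℝ) * a < 5 * (b * b) := by exact_mod_cast ha
    have hb' : (b : ℝ) < 0 := by exact_mod_cast hb
    by_contra hcon
    push Not at hcon
    have h8 : -((b : ℝ) * r5) ≤ a := by linarith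
    have h7 : 0 < -((b : ℝ) * r5) := by nlinarith
    have h9 : (-((b : ℝ) * r5)) * (-(b * r5)) ≤ a * a := mul_self_le_mul_self h7.le h8
    nlinarith

/-- Sufficient test for `a + b√5 ≤ 0`. -/
def leQ (a b : ℤ) : Bool := (decide (a = 0) && decide (b = 0)) || negQ a b

lemma leQ_sound {a b : ℤ} (h : leQ a b = true) : zr a b ≤ 0 := by
  unfold leQ at h
  simp only [Bool.or_eq_true, Bool.and_eq_true, decide_eq_true_eq] at h
  rcases h with ⟨rfl, rfl⟩ | h
  · rw [zr_zero]
  · exact (negQ_sound h).le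

namespace V8

/-- real coordinates -/
noncomputable def co (v : V8) : Fin 4 → ℝ :=
  ![zr v.a0 v.b0, zr v.a1 v.b1, zr v.a2 v.b2, zr v.a3 v.b3]

/-- the corresponding vector -/
noncomputable def toE (v : V8) : E4 := WithLp.toLp 2 v.co

lemma toE_apply (v : V8) (i : Fin 4) : v.toE i = v.co i := rfl

end V8

/-- rational part of the inner product -/
def ipA (v w : V8) : ℤ :=
  v.a0 * w.a0 + v.a1 * w.a1 + v.a2 * w.a2 + v.a3 * w.a3 +
    5 * (v.b0 * w.b0 + v.b1 * w.b1 + v.b2 * w.b2 + v.b3 * w.b3)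

/-- `√5` part of the inner product -/
def ipB (v w : V8) : ℤ :=
  v.a0 * w.b0 + v.b0 * w.a0 + v.a1 * w.b1 + v.b1 * w.a1 +
    v.a2 * w.b2 + v.b2 * w.a2 + v.a3 * w.b3 + v.b3 * w.a3

lemma inner_E4 (x y : E4) : ⟪x, y⟫ = x 0 * y 0 + x 1 * y 1 + x 2 * y 2 + x 3 * y 3 := by
  rw [PiLp.inner_apply, Fin.sum_univ_four]
  simp only [RCLike.inner_apply, conj_trivial]
  ring

lemma inner_toE (v w : V8) : ⟪v.toE, w.toE⟫ = zr (ipA v w) (ipB v w) := by
  rw [inner_E4]
  simp only [V8.toE_apply, V8.co, Matrix.cons_val_zero, Matrix.cons_val_one, Matrix.cons_val]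
  rw [zr_mul, zr_mul, zr_mul, zr_mul, zr_add, zr_add, zr_add]
  congr 1
  · unfold ipA; ring
  · unfold ipB; ring

/-- The normals: all sign changes of the vectors in the list. -/
def nset (L : List V8) : Set E4 :=
  {q | ∃ u ∈ L, ∃ s : Fin 4 → ℝ, (∀ i, s i = 1 ∨ s i = -1) ∧ ∀ i, q i = s i * u.co i}

/-- The vector obtained from `u` with the signs `s`. -/
noncomputable def sE (s : Fin 4 → ℝ) (u : V8) : E4 := WithLp.toLp 2 (fun i => s i * u.co i)

lemma sE_apply (s : Fin 4 → ℝ) (u : V8) (i : Fin 4) : sE s u i = s i * u.co i := rfl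

lemma mem_nset {L : List V8} {q : E4} : q ∈ nset L ↔
    ∃ u ∈ L, ∃ s : Fin 4 → ℝ, (∀ i, s i = 1 ∨ s i = -1) ∧ q = sE s u := by
  constructor
  · rintro ⟨u, hu, s, hs, hq⟩
    exact ⟨u, hu, s, hs, by ext i; rw [hq, sE_apply]⟩
  · rintro ⟨u, hu, s, hs, rfl⟩
    exact ⟨u, hu, s, hs, fun i => rfl⟩

/-- integer sign changes -/
def sgn (e : ℤ × ℤ × ℤ × ℤ) (u : V8) : V8 :=
  ⟨e.1 * u.a0, e.1 * u.b0, e.2.1 * u.a1, e.2.1 * u.b1,
    e.2.2.1 * u.a2, e.2.2.1 * u.b2, e.2.2.2 * u.a3, e.2.2.2 * u.b3⟩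

/-- all sign patterns -/
def S16 : List (ℤ × ℤ × ℤ × ℤ) :=
  [(1, 1, 1, 1), (1, 1, 1, -1), (1, 1, -1, 1), (1, 1, -1, -1),
   (1, -1, 1, 1), (1, -1, 1, -1), (1, -1, -1, 1), (1, -1, -1, -1),
   (-1, 1, 1, 1), (-1, 1, 1, -1), (-1, 1, -1, 1), (-1, 1, -1, -1),
   (-1, -1, 1, 1), (-1, -1, 1, -1), (-1, -1, -1, 1), (-1, -1, -1, -1)]

lemma zr_smul (e a b : ℤ) : zr (e * a) (e * b) = e * zr a b := by
  unfold zr; push_cast; ring

lemma toE_sgn (e : ℤ × ℤ × ℤ × ℤ) (u : V8) :
    (sgn e u).toE = sE ![(e.1 : ℝ), (e.2.1 : ℝ), (e.2.2.1 : ℝ), (e.2.2.2 : ℝ)] u := by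
  ext i
  rw [V8.toE_apply, sE_apply]
  fin_cases i <;> simp [V8.co, sgn, zr_smul]

lemma exists_sgn {s : Fin 4 → ℝ} (hs : ∀ i, s i = 1 ∨ s i = -1) :
    ∃ e ∈ S16, ∀ u, sE s u = (sgn e u).toE := by
  have h1 : ∀ i, ∃ e : ℤ, (e = 1 ∨ e = -1) ∧ s i = (e : ℝ) := by
    intro i
    rcases hs i with h | h
    · exact ⟨1, Or.inl rfl, by rw [h]; norm_num⟩
    · exact ⟨-1, Or.inr rfl, by rw [h]; norm_num⟩
  obtain ⟨e0, g0, h0⟩ := h1 0
  obtain ⟨e1, g1, h1'⟩ := h1 1
  obtain ⟨e2, g2, h2⟩ := h1 2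
  obtain ⟨e3, g3, h3⟩ := h1 3
  refine ⟨(e0, e1, e2, e3), ?_, fun u => ?_⟩
  · rcases g0 with rfl | rfl <;> rcases g1 with rfl | rfl <;> rcases g2 with rfl | rfl <;>
      rcases g3 with rfl | rfl <;> simp [S16]
  · rw [toE_sgn]
    congr 1
    ext i
    fin_cases i <;> simp [h0, h1', h2, h3]

lemma signs_of_S16 {e : ℤ × ℤ × ℤ × ℤ} (he : e ∈ S16) :
    ∀ i, (![(e.1 : ℝ), (e.2.1 : ℝ), (e.2.2.1 : ℝ), (e.2.2.2 : ℝ)] : Fin 4 → ℝ) i = 1 ∨
      (![(e.1 : ℝ), (e.2.1 : ℝ), (e.2.2.1 : ℝ), (e.2.2.2 : ℝ)] : Fin 4 → ℝ) i = -1 := by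
  simp only [S16, List.mem_cons, List.not_mem_nil, or_false] at he
  intro i
  rcases he with rfl | rfl | rfl | rfl | rfl | rfl | rfl | rfl | rfl | rfl | rfl | rfl | rfl |
    rfl | rfl | rfl <;> fin_cases i <;> simp

lemma sgn_mem_nset {L : List V8} {e : ℤ × ℤ × ℤ × ℤ} (he : e ∈ S16) {u : V8} (hu : u ∈ L) :
    (sgn e u).toE ∈ nset L := by
  rw [mem_nset]
  exact ⟨u, hu, _, signs_of_S16 he, toE_sgn e u⟩

lemma exists_of_mem_nset {L : List V8} {q : E4} (hq : q ∈ nset L) :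
    ∃ u ∈ L, ∃ e ∈ S16, q = (sgn e u).toE := by
  obtain ⟨u, hu, s, hs, rfl⟩ := mem_nset.1 hq
  obtain ⟨e, he, h⟩ := exists_sgn hs
  exact ⟨u, hu, e, he, h u⟩

/-! ## Checks on the list -/

/-- all vectors have squared norm `r` -/
def allNorm (r : ℤ) (L : List V8) : Bool :=
  L.all fun u => decide (ipA u u = r) && decide (ipB u u = 0)

/-- all coordinates are nonnegative -/
def allNonneg (L : List V8) : Bool :=
  L.all fun u => leQ (-u.a0) (-u.b0) && leQ (-u.a1) (-u.b1) && leQ (-u.a2) (-u.b2) &&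
    leQ (-u.a3) (-u.b3)

/-- inner products of different vectors are at most `m` -/
def pwLe (ma mb : ℤ) : List V8 → Bool
  | [] => true
  | v :: l => (l.all fun w => leQ (ipA v w - ma) (ipB v w - mb)) && pwLe ma mb l

/-- the sign of the coordinate `a + b√5` may be changed -/
def flip1 (r ma mb a b : ℤ) : Bool :=
  (decide (a = 0) && decide (b = 0)) || leQ (r - 2 * (a * a + 5 * (b * b)) - ma) (-(4 * (a * b)) - mb)

/-- all coordinates may change their signs -/
def allFlip (r ma mb : ℤ) (L : List V8) : Bool :=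
  L.all fun u => flip1 r ma mb u.a0 u.b0 && flip1 r ma mb u.a1 u.b1 && flip1 r ma mb u.a2 u.b2 &&
    flip1 r ma mb u.a3 u.b3

lemma co_nonneg {L : List V8} (h : allNonneg L = true) {u : V8} (hu : u ∈ L) (i : Fin 4) :
    0 ≤ u.co i := by
  have h1 := List.all_eq_true.1 h u hu
  simp only [Bool.and_eq_true] at h1
  obtain ⟨⟨⟨h0, h1⟩, h2⟩, h3⟩ := h1
  have key : ∀ a b : ℤ, leQ (-a) (-b) = true → 0 ≤ zr a b := by
    intro a b hab
    have := leQ_sound hab
    unfold zr at this ⊢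
    push_cast at this
    linarith
  fin_cases i
  · exact key _ _ h0
  · exact key _ _ h1
  · exact key _ _ h2
  · exact key _ _ h3

lemma norm_of {r : ℤ} {L : List V8} (h : allNorm r L = true) {u : V8} (hu : u ∈ L) :
    ⟪u.toE, u.toE⟫ = (r : ℝ) := by
  have h1 := List.all_eq_true.1 h u hu
  simp only [Bool.and_eq_true, decide_eq_true_eq] at h1
  rw [inner_toE, h1.1, h1.2, zr_int]

lemma pw_of {ma mb : ℤ} : ∀ {L : List V8}, pwLe ma mb L = true →
    L.Pairwise fun v w => ⟪v.toE, w.toE⟫ ≤ zr ma mb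
  | [], _ => List.Pairwise.nil
  | v :: l, h => by
    rw [pwLe, Bool.and_eq_true] at h
    refine List.Pairwise.cons ?_ (pw_of h.2)
    intro w hw
    have h1 := List.all_eq_true.1 h.1 w hw
    have h2 := leQ_sound h1
    rw [← zr_sub] at h2
    rw [inner_toE]
    linarith

lemma le_of_ne {ma mb : ℤ} {L : List V8} (h : pwLe ma mb L = true) {u v : V8} (hu : u ∈ L)
    (hv : v ∈ L) (hne : u ≠ v) : ⟪u.toE, v.toE⟫ ≤ zr ma mb := by
  have h1 := pw_of h
  have hsymm : Std.Symm fun v w : V8 => ⟪v.toE, w.toE⟫ ≤ zr ma mb :=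
    ⟨fun x y hxy => by rw [real_inner_comm]; exact hxy⟩
  exact h1.forall hu hv hne

lemma flip1_sound {r ma mb a b : ℤ} (h : flip1 r ma mb a b = true) :
    zr a b = 0 ∨ (r : ℝ) - 2 * (zr a b * zr a b) ≤ zr ma mb := by
  unfold flip1 at h
  simp only [Bool.or_eq_true, Bool.and_eq_true, decide_eq_true_eq] at h
  rcases h with ⟨rfl, rfl⟩ | h
  · left; exact zr_zero
  · right
    have h1 := leQ_sound h
    rw [zr_mul]
    unfold zr at h1 ⊢
    push_cast at h1 ⊢
    linarith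

lemma flip_of {r ma mb : ℤ} {L : List V8} (h : allFlip r ma mb L = true) {u : V8} (hu : u ∈ L)
    (i : Fin 4) : u.co i = 0 ∨ (r : ℝ) - 2 * (u.co i * u.co i) ≤ zr ma mb := by
  have h1 := List.all_eq_true.1 h u hu
  simp only [Bool.and_eq_true] at h1
  obtain ⟨⟨⟨h0, h1⟩, h2⟩, h3⟩ := h1
  fin_cases i
  · exact flip1_sound h0
  · exact flip1_sound h1
  · exact flip1_sound h2
  · exact flip1_sound h3

lemma inner_sE (s t : Fin 4 → ℝ) (u v : V8) :
    ⟪sE s u, sE t v⟫ = ∑ i, (s i * t i) * (u.co i * v.co i) := by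
  rw [inner_E4, Fin.sum_univ_four]
  simp only [sE_apply]
  ring

lemma inner_toE_sum (u v : V8) : ⟪u.toE, v.toE⟫ = ∑ i, u.co i * v.co i := by
  rw [inner_E4, Fin.sum_univ_four]
  simp only [V8.toE_apply]

lemma sign_mul {a b : ℝ} (ha : a = 1 ∨ a = -1) (hb : b = 1 ∨ b = -1) : a * b = 1 ∨ a * b = -1 := by
  rcases ha with rfl | rfl <;> rcases hb with rfl | rfl <;> simp

lemma norm_sE {r : ℤ} {L : List V8} (h : allNorm r L = true) {u : V8} (hu : u ∈ L)
    {s : Fin 4 → ℝ} (hs : ∀ i, s i = 1 ∨ s i = -1) : ⟪sE s u, sE s u⟫ = (r : ℝ) := by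
  rw [← norm_of h hu, inner_sE, inner_toE_sum]
  apply Finset.sum_congr rfl
  intro i _
  rcases hs i with h | h <;> rw [h] <;> ring

lemma le_nset {r ma mb : ℤ} {L : List V8} (h1 : allNorm r L = true) (h2 : allNonneg L = true)
    (h3 : pwLe ma mb L = true) (h4 : allFlip r ma mb L = true) {p q : E4} (hp : p ∈ nset L)
    (hq : q ∈ nset L) (hne : p ≠ q) : ⟪p, q⟫ ≤ zr ma mb := by
  obtain ⟨u, hu, s, hs, rfl⟩ := mem_nset.1 hp
  obtain ⟨v, hv, t, ht, rfl⟩ := mem_nset.1 hq
  have hst : ∀ i, s i * t i ≤ 1 := by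
    intro i
    rcases sign_mul (hs i) (ht i) with h | h <;> rw [h]
    norm_num
  rw [inner_sE]
  by_cases huv : u = v
  · subst huv
    -- some coordinate differs
    have hex : ∃ i, s i * u.co i ≠ t i * u.co i := by
      by_contra hcon
      push Not at hcon
      apply hne
      ext i
      rw [sE_apply, sE_apply, hcon i]
    obtain ⟨i, hi⟩ := hex
    have hui : u.co i ≠ 0 := by
      intro h0
      rw [h0, mul_zero, mul_zero] at hi
      exact hi rfl
    have hsti : s i * t i = -1 := by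
      rcases hs i with h | h <;> rcases ht i with h' | h'
      · rw [h, h'] at hi; exact absurd rfl hi
      · rw [h, h']; norm_num
      · rw [h, h']; norm_num
      · rw [h, h'] at hi; exact absurd rfl hi
    have h5 := (flip_of h4 hu i).resolve_left hui
    have h6 := norm_of h1 hu
    rw [inner_toE_sum] at h6
    refine le_trans ?_ h5
    rw [← h6, ← Finset.add_sum_erase _ _ (Finset.mem_univ i),
      ← Finset.add_sum_erase _ (fun i => u.co i * u.co i) (Finset.mem_univ i), hsti]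
    have h7 : ∑ x ∈ Finset.univ.erase i, s x * t x * (u.co x * u.co x) ≤
        ∑ x ∈ Finset.univ.erase i, u.co x * u.co x := by
      apply Finset.sum_le_sum
      intro x _
      have := hst x
      have h8 := mul_self_nonneg (u.co x)
      nlinarith
    linarith
  · refine le_trans ?_ (le_of_ne h3 hu hv huv)
    rw [inner_toE_sum]
    apply Finset.sum_le_sum
    intro x _
    have := hst x
    have h8 := mul_nonneg (co_nonneg h2 hu x) (co_nonneg h2 hv x)
    nlinarith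

lemma nset_finite (L : List V8) : (nset L).Finite := by
  have h1 : nset L ⊆ (fun p : V8 × (ℤ × ℤ × ℤ × ℤ) => (sgn p.2 p.1).toE) ''
      {p | p.1 ∈ L ∧ p.2 ∈ S16} := by
    intro q hq
    obtain ⟨u, hu, e, he, rfl⟩ := exists_of_mem_nset hq
    exact ⟨(u, e), ⟨hu, he⟩, rfl⟩
  refine Set.Finite.subset (Set.Finite.image _ ?_) h1
  have h2 : {p : V8 × (ℤ × ℤ × ℤ × ℤ) | p.1 ∈ L ∧ p.2 ∈ S16} =
      {u | u ∈ L} ×ˢ {e | e ∈ S16} := by
    ext p; simp
  rw [h2]
  exact (List.finite_toSet L).prod (List.finite_toSet S16)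

lemma reg_nset {r ma mb ha hb : ℤ} {L : List V8} (h1 : allNorm r L = true)
    (h2 : allNonneg L = true)
    (h3 : pwLe ma mb L = true) (h4 : allFlip r ma mb L = true) (h5 : negQ (ma - r) mb = true)
    (h6 : negQ (-r - ma) (-mb) = true) (h7 : negQ (-ha) (-hb) = true) :
    Reg (fun q : nset L => (q : E4)) (zr ha hb) (r : ℝ) (zr ma mb) where
  h_pos := by
    have := negQ_sound h7
    unfold zr at this ⊢
    push_cast at this
    linarith
  norm := by
    rintro ⟨q, hq⟩
    obtain ⟨u, hu, s, hs, rfl⟩ := mem_nset.1 hq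
    exact norm_sE h1 hu hs
  le := by
    rintro ⟨p, hp⟩ ⟨q, hq⟩ hne
    exact le_nset h1 h2 h3 h4 hp hq (fun h => hne (Subtype.ext h))
  m_lt := by
    have := negQ_sound h5
    unfold zr at this ⊢
    push_cast at this
    linarith
  neg_lt := by
    have := negQ_sound h6
    unfold zr at this ⊢
    push_cast at this
    linarith

/-! ## Connectivity -/

/-- the parents in the list are adjacent and earlier -/
def parOK (ma mb : ℤ) (L : List V8) (par : List ℕ) : Bool :=
  (List.range L.length).all fun k => decide (k = 0) ||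
    (decide (par.getD k 0 < k) &&
      match L[k]?, L[par.getD k 0]? with
      | some u, some v => decide (ipA v u = ma) && decide (ipB v u = mb)
      | _, _ => false)

/-- every coordinate vanishes for some vector -/
def zerosOK (L : List V8) : Bool :=
  (L.any fun u => decide (u.a0 = 0) && decide (u.b0 = 0)) &&
  (L.any fun u => decide (u.a1 = 0) && decide (u.b1 = 0)) &&
  (L.any fun u => decide (u.a2 = 0) && decide (u.b2 = 0)) &&
  (L.any fun u => decide (u.a3 = 0) && decide (u.b3 = 0))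

lemma zeros_of {L : List V8} (h : zerosOK L = true) (i : Fin 4) : ∃ u ∈ L, u.co i = 0 := by
  unfold zerosOK at h
  simp only [Bool.and_eq_true, List.any_eq_true, decide_eq_true_eq] at h
  obtain ⟨⟨⟨h0, h1⟩, h2⟩, h3⟩ := h
  fin_cases i
  · obtain ⟨u, hu, ha, hb⟩ := h0
    exact ⟨u, hu, by show zr u.a0 u.b0 = 0; rw [ha, hb, zr_zero]⟩
  · obtain ⟨u, hu, ha, hb⟩ := h1
    exact ⟨u, hu, by show zr u.a1 u.b1 = 0; rw [ha, hb, zr_zero]⟩
  · obtain ⟨u, hu, ha, hb⟩ := h2
    exact ⟨u, hu, by show zr u.a2 u.b2 = 0; rw [ha, hb, zr_zero]⟩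
  · obtain ⟨u, hu, ha, hb⟩ := h3
    exact ⟨u, hu, by show zr u.a3 u.b3 = 0; rw [ha, hb, zr_zero]⟩

/-- adjacency of normals -/
def AdjN (ma mb : ℤ) (L : List V8) : nset L → nset L → Prop :=
  fun p q => ⟪(p : E4), (q : E4)⟫ = zr ma mb

lemma adjN_symm' {ma mb : ℤ} {L : List V8} {p q : nset L} (h : AdjN ma mb L p q) :
    AdjN ma mb L q p := by
  unfold AdjN at h ⊢
  rw [real_inner_comm]; exact h

lemma reach_symm {ma mb : ℤ} {L : List V8} {p q : nset L}
    (h : Relation.ReflTransGen (AdjN ma mb L) p q) :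
    Relation.ReflTransGen (AdjN ma mb L) q p := by
  induction h with
  | refl => exact Relation.ReflTransGen.refl
  | tail _ h2 ih => exact (Relation.ReflTransGen.single (adjN_symm' h2)).trans ih

/-- the element of the index type -/
noncomputable def elt {L : List V8} {s : Fin 4 → ℝ} (hs : ∀ i, s i = 1 ∨ s i = -1) {u : V8}
    (hu : u ∈ L) : nset L := ⟨sE s u, mem_nset.2 ⟨u, hu, s, hs, rfl⟩⟩

lemma reach_list {ma mb : ℤ} {L : List V8} {par : List ℕ} (hpar : parOK ma mb L par = true)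
    (hL : 0 < L.length) {s : Fin 4 → ℝ} (hs : ∀ i, s i = 1 ∨ s i = -1) :
    ∀ k (hk : k < L.length), Relation.ReflTransGen (AdjN ma mb L)
      (elt hs (List.getElem_mem hL)) (elt hs (List.getElem_mem hk)) := by
  intro k
  induction k using Nat.strong_induction_on with
  | _ k ih =>
    intro hk
    have h1 := List.all_eq_true.1 hpar k (List.mem_range.2 hk)
    rw [Bool.or_eq_true, decide_eq_true_eq] at h1
    rcases h1 with h1 | h1
    · subst h1
      exact Relation.ReflTransGen.refl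
    · rw [Bool.and_eq_true, decide_eq_true_eq] at h1
      obtain ⟨h2, h3⟩ := h1
      have hj : par.getD k 0 < L.length := h2.trans hk
      rw [List.getElem?_eq_getElem hk, List.getElem?_eq_getElem hj] at h3
      simp only [Bool.and_eq_true, decide_eq_true_eq] at h3
      refine (ih _ h2 hj).tail ?_
      show ⟪sE s _, sE s _⟫ = zr ma mb
      rw [inner_sE]
      rw [← h3.1, ← h3.2, ← inner_toE, inner_toE_sum]
      apply Finset.sum_congr rfl
      intro i _
      rcases hs i with h | h <;> rw [h] <;> ring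

lemma reach_all {ma mb : ℤ} {L : List V8} {par : List ℕ} (hpar : parOK ma mb L par = true)
    (hL : 0 < L.length) {s : Fin 4 → ℝ} (hs : ∀ i, s i = 1 ∨ s i = -1) {u : V8} (hu : u ∈ L) :
    Relation.ReflTransGen (AdjN ma mb L) (elt hs (List.getElem_mem hL)) (elt hs hu) := by
  obtain ⟨k, hk, rfl⟩ := List.mem_iff_getElem.1 hu
  exact reach_list hpar hL hs k hk

lemma reach_flip {ma mb : ℤ} {L : List V8} {par : List ℕ} (hpar : parOK ma mb L par = true)
    (hz : zerosOK L = true) (hL : 0 < L.length) {s t : Fin 4 → ℝ}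
    (hs : ∀ i, s i = 1 ∨ s i = -1) (ht : ∀ i, t i = 1 ∨ t i = -1) (j : Fin 4)
    (hst : ∀ i, i ≠ j → s i = t i) :
    Relation.ReflTransGen (AdjN ma mb L) (elt hs (List.getElem_mem hL))
      (elt ht (List.getElem_mem hL)) := by
  obtain ⟨u, hu, hu0⟩ := zeros_of hz j
  have h1 : elt hs hu = elt ht hu := by
    apply Subtype.ext
    show sE s u = sE t u
    ext i
    rw [sE_apply, sE_apply]
    by_cases hi : i = j
    · rw [hi, hu0, mul_zero, mul_zero]
    · rw [hst i hi]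
  have h2 := reach_all hpar hL hs hu
  have h3 := reach_symm (reach_all hpar hL ht hu)
  rw [h1] at h2
  exact h2.trans h3

lemma reach_from_one {ma mb : ℤ} {L : List V8} {par : List ℕ} (hpar : parOK ma mb L par = true)
    (hz : zerosOK L = true) (hL : 0 < L.length) (q : nset L) :
    Relation.ReflTransGen (AdjN ma mb L)
      (elt (s := fun _ => 1) (fun _ => Or.inl rfl) (List.getElem_mem hL)) q := by
  obtain ⟨q, hq⟩ := q
  obtain ⟨u, hu, s, hs, rfl⟩ := mem_nset.1 hq
  have hk : ∀ k : ℕ, ∀ i : Fin 4, (if (i : ℕ) < k then s i else 1) = 1 ∨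
      (if (i : ℕ) < k then s i else 1) = -1 := by
    intro k i
    split_ifs
    · exact hs i
    · exact Or.inl rfl
  have key : ∀ k : ℕ, k ≤ 4 → Relation.ReflTransGen (AdjN ma mb L)
      (elt (s := fun _ => 1) (fun _ => Or.inl rfl) (List.getElem_mem hL))
      (elt (hk k) (List.getElem_mem hL)) := by
    intro k
    induction k with
    | zero =>
      intro _
      have h0 : elt (s := fun _ => (1 : ℝ)) (fun _ => Or.inl rfl) (List.getElem_mem hL) =
          elt (hk 0) (List.getElem_mem hL) := by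
        apply Subtype.ext
        show sE _ _ = sE _ _
        congr 1
      rw [h0]
    | succ k ih =>
      intro hk4
      refine (ih (by omega)).trans ?_
      refine reach_flip hpar hz hL (hk k) (hk (k + 1)) ⟨k, by omega⟩ ?_
      intro i hi
      have hi' : (i : ℕ) ≠ k := fun h => hi (Fin.ext h)
      by_cases h1 : (i : ℕ) < k
      · rw [if_pos h1, if_pos (by omega)]
      · rw [if_neg h1, if_neg (by omega)]
  have h4 := key 4 le_rfl
  have h5 : elt (hk 4) (List.getElem_mem hL) = elt hs (List.getElem_mem hL) := by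
    apply Subtype.ext
    show sE _ _ = sE _ _
    congr 1
    ext i
    rw [if_pos i.2]
  rw [h5] at h4
  exact h4.trans (reach_all hpar hL hs hu)

/-! ## The path -/

/-- sum -/
def addV (v w : V8) : V8 :=
  ⟨v.a0 + w.a0, v.b0 + w.b0, v.a1 + w.a1, v.b1 + w.b1, v.a2 + w.a2, v.b2 + w.b2,
    v.a3 + w.a3, v.b3 + w.b3⟩

/-- `den • v - (ta + tb√5) • n` -/
def combV (den ta tb : ℤ) (v n : V8) : V8 :=
  ⟨den * v.a0 - (ta * n.a0 + 5 * (tb * n.b0)), den * v.b0 - (ta * n.b0 + tb * n.a0),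
   den * v.a1 - (ta * n.a1 + 5 * (tb * n.b1)), den * v.b1 - (ta * n.b1 + tb * n.a1),
   den * v.a2 - (ta * n.a2 + 5 * (tb * n.b2)), den * v.b2 - (ta * n.b2 + tb * n.a2),
   den * v.a3 - (ta * n.a3 + 5 * (tb * n.b3)), den * v.b3 - (ta * n.b3 + tb * n.a3)⟩

lemma toE_addV (v w : V8) : (addV v w).toE = v.toE + w.toE := by
  ext i
  rw [PiLp.add_apply, V8.toE_apply, V8.toE_apply, V8.toE_apply]
  fin_cases i <;> simp [V8.co, addV, zr_add]

lemma zr_comb (den ta tb a b c d : ℤ) :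
    zr (den * a - (ta * c + 5 * (tb * d))) (den * b - (ta * d + tb * c)) =
      (den : ℝ) * zr a b - zr ta tb * zr c d := by
  rw [zr_mul]
  unfold zr
  push_cast
  ring

lemma toE_combV (den ta tb : ℤ) (v n : V8) :
    (combV den ta tb v n).toE = (den : ℝ) • v.toE - zr ta tb • n.toE := by
  ext i
  rw [PiLp.sub_apply, PiLp.smul_apply, PiLp.smul_apply, V8.toE_apply, V8.toE_apply, V8.toE_apply,
    smul_eq_mul, smul_eq_mul]
  fin_cases i <;> exact zr_comb _ _ _ _ _ _ _

/-- one step of the development -/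
def stepZ (κa κb den ha hb : ℤ) (x : ℤ × V8) (n : V8) : ℤ × V8 :=
  let A := ipA n x.2 - 2 * ha * x.1
  let B := ipB n x.2 - 2 * hb * x.1
  (den * x.1, combV den (A * κa + 5 * (B * κb)) (A * κb + B * κa) x.2 n)

/-- development along a path -/
def pushZ (κa κb den ha hb : ℤ) : List V8 → ℤ × V8 → ℤ × V8
  | [], x => x
  | [_], x => x
  | u :: v :: l, x => pushZ κa κb den ha hb (v :: l) (stepZ κa κb den ha hb x (addV u v))

/-- the point given by a common denominator and integral numerators -/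
noncomputable def ptE (x : ℤ × V8) : E4 := (x.1 : ℝ)⁻¹ • x.2.toE

/-- consecutive vectors are adjacent -/
def chainOK (ma mb : ℤ) : List V8 → Bool
  | [] => true
  | [_] => true
  | u :: v :: l => (decide (ipA u v = ma) && decide (ipB u v = mb)) && chainOK ma mb (v :: l)

/-- the vectors are pairwise distinct -/
def pwNe (r : ℤ) : List V8 → Bool
  | [] => true
  | v :: l => (l.all fun w => negQ (ipA v w - r) (ipB v w)) && pwNe r l

/-- the vectors of the path come from the list -/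
def pathV (path : List (V8 × (ℤ × ℤ × ℤ × ℤ))) : List V8 := path.map fun x => sgn x.2 x.1

/-- membership of the path -/
def pathOK (L : List V8) (path : List (V8 × (ℤ × ℤ × ℤ × ℤ))) : Bool :=
  path.all fun x => decide (x.1 ∈ L) && decide (x.2 ∈ S16)

/-- `x` is a strict point of the facet with normal `v` -/
def strictAt (ha hb : ℤ) (L : List V8) (x : ℤ × V8) (v : V8) : Bool :=
  decide (0 < x.1) && (decide (ipA v x.2 = ha * x.1) && decide (ipB v x.2 = hb * x.1)) &&
    L.all fun u => S16.all fun e => decide (sgn e u = v) ||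
      negQ (ipA (sgn e u) x.2 - ha * x.1) (ipB (sgn e u) x.2 - hb * x.1)

lemma inner_ptE (v : V8) (x : ℤ × V8) :
    ⟪v.toE, ptE x⟫ = (x.1 : ℝ)⁻¹ * zr (ipA v x.2) (ipB v x.2) := by
  unfold ptE
  rw [inner_smul_right, inner_toE]

lemma strictAt_sound {ha hb : ℤ} {L : List V8} {x : ℤ × V8} {v : V8}
    (hs : strictAt ha hb L x v = true) :
    0 < x.1 ∧ ⟪v.toE, ptE x⟫ = zr ha hb ∧ ∀ q ∈ nset L, q ≠ v.toE → ⟪q, ptE x⟫ < zr ha hb := by
  unfold strictAt at hs
  simp only [Bool.and_eq_true, decide_eq_true_eq] at hs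
  obtain ⟨⟨h1, h2, h3⟩, h4⟩ := hs
  have hx : (0 : ℝ) < x.1 := by exact_mod_cast h1
  refine ⟨h1, ?_, ?_⟩
  · rw [inner_ptE, h2, h3]
    unfold zr
    push_cast
    field_simp
  · intro q hq hne
    obtain ⟨u, hu, e, he, rfl⟩ := exists_of_mem_nset hq
    have h5 := List.all_eq_true.1 (List.all_eq_true.1 h4 u hu) e he
    rw [Bool.or_eq_true, decide_eq_true_eq] at h5
    rcases h5 with h5 | h5
    · exact absurd (by rw [h5]) hne
    · have h6 := negQ_sound h5
      rw [inner_ptE]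
      have h7 : zr (ipA (sgn e u) x.2) (ipB (sgn e u) x.2) < zr ha hb * x.1 := by
        unfold zr at h6 ⊢
        push_cast at h6
        linarith
      rw [inv_mul_lt_iff₀ hx]
      linarith

/-- The full check. -/
def fullCheck (r ma mb ha hb κa κb den : ℤ) (L : List V8) (par : List ℕ)
    (path : List (V8 × (ℤ × ℤ × ℤ × ℤ))) (p : ℤ × V8) : Bool :=
  allNorm r L && allNonneg L && pwLe ma mb L && allFlip r ma mb L && negQ (ma - r) mb &&
    negQ (-r - ma) (-mb) && negQ (-ha) (-hb) && parOK ma mb L par && zerosOK L &&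
    decide (0 < L.length) && decide (κa * (r + ma) + 5 * (κb * mb) = den) &&
    decide (κa * mb + κb * (r + ma) = 0) && decide (0 < den) && pathOK L path &&
    chainOK ma mb (pathV path) && pwNe r (pathV path) && decide (2 ≤ path.length) &&
    (match (pathV path).head? with
      | some v => strictAt ha hb L p v
      | none => false) &&
    (match (pathV path).getLast? with
      | some v => strictAt ha hb L (pushZ κa κb den ha hb (pathV path) p) v
      | none => false)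

/-- The path as a list of elements of the index set. -/
noncomputable def pathI (L : List V8) : (path : List (V8 × (ℤ × ℤ × ℤ × ℤ))) →
    (∀ x ∈ path, x.1 ∈ L ∧ x.2 ∈ S16) → List (nset L)
  | [], _ => []
  | x :: l, h => ⟨(sgn x.2 x.1).toE, sgn_mem_nset (h x (by simp)).2 (h x (by simp)).1⟩ ::
      pathI L l (fun y hy => h y (by simp [hy]))

lemma stepZ_eq {κa κb den ha hb r ma mb : ℤ} (hκ : κa * (r + ma) + 5 * (κb * mb) = den)
    (hκ' : κa * mb + κb * (r + ma) = 0) (hden : 0 < den) (hrm : 0 < (r : ℝ) + zr ma mb)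
    {x : ℤ × V8} (hx : 0 < x.1) {u v : V8} (hn : ⟪u.toE + v.toE, u.toE + v.toE⟫ =
      2 * ((r : ℝ) + zr ma mb)) :
    hrefl (u.toE + v.toE) (2 * zr ha hb) (ptE x) = ptE (stepZ κa κb den ha hb x (addV u v)) := by
  have hx' : (0 : ℝ) < x.1 := by exact_mod_cast hx
  have hden' : (0 : ℝ) < den := by exact_mod_cast hden
  have hk : zr κa κb * ((r : ℝ) + zr ma mb) = den := by
    rw [← hκ]
    have h2 : ((κa * mb + κb * (r + ma) : ℤ) : ℝ) = 0 := by rw [hκ']; norm_num
    unfold zr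
    push_cast at h2 ⊢
    linear_combination (r5) * h2 + (κb * mb : ℝ) * r5_sq
  rw [hrefl_apply (by rw [hn]; positivity), hn, ← toE_addV, inner_ptE]
  unfold stepZ
  simp only
  rw [ptE, ptE]
  simp only
  rw [toE_combV, smul_sub, smul_smul, smul_smul]
  have e1 : (((den * x.1 : ℤ) : ℝ))⁻¹ * (den : ℝ) = ((x.1 : ℤ) : ℝ)⁻¹ := by
    push_cast
    field_simp
  rw [e1]
  congr 2
  have e2 : zr ((ipA (addV u v) x.2 - 2 * ha * x.1) * κa +
        5 * ((ipB (addV u v) x.2 - 2 * hb * x.1) * κb))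
      ((ipA (addV u v) x.2 - 2 * ha * x.1) * κb + (ipB (addV u v) x.2 - 2 * hb * x.1) * κa) =
      zr (ipA (addV u v) x.2 - 2 * ha * x.1) (ipB (addV u v) x.2 - 2 * hb * x.1) * zr κa κb := by
    rw [zr_mul]
  rw [e2]
  have e3 : zr (ipA (addV u v) x.2 - 2 * ha * x.1) (ipB (addV u v) x.2 - 2 * hb * x.1) =
      zr (ipA (addV u v) x.2) (ipB (addV u v) x.2) - 2 * zr ha hb * x.1 := by
    unfold zr; push_cast; ring
  rw [e3]
  have hk' : zr κa κb = den / ((r : ℝ) + zr ma mb) := by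
    rw [eq_div_iff hrm.ne', hk]
  rw [hk']
  push_cast
  field_simp

lemma pushZ_eq {κa κb den ha hb r ma mb : ℤ} (hκ : κa * (r + ma) + 5 * (κb * mb) = den)
    (hκ' : κa * mb + κb * (r + ma) = 0) (hden : 0 < den) {L : List V8} [Fintype (nset L)]
    (R : Reg (fun q : nset L => (q : E4)) (zr ha hb) (r : ℝ) (zr ma mb)) :
    ∀ (path : List (V8 × (ℤ × ℤ × ℤ × ℤ))) (hp : ∀ x ∈ path, x.1 ∈ L ∧ x.2 ∈ S16)
      (_ : chainOK ma mb (pathV path) = true) (x : ℤ × V8) (_ : 0 < x.1),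
      Reg.push (fun q : nset L => (q : E4)) (zr ha hb) (pathI L path hp) (ptE x) =
        ptE (pushZ κa κb den ha hb (pathV path) x)
  | [], _, _, x, _ => rfl
  | [_], _, _, x, _ => rfl
  | y :: z :: l, hp, hc, x, hx => by
    have hc' : ((decide (ipA (sgn y.2 y.1) (sgn z.2 z.1) = ma) &&
        decide (ipB (sgn y.2 y.1) (sgn z.2 z.1) = mb)) && chainOK ma mb (pathV (z :: l))) = true :=
      hc
    simp only [Bool.and_eq_true, decide_eq_true_eq] at hc'
    obtain ⟨⟨hc1, hc2⟩, hc3⟩ := hc'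
    have hip : ⟪(sgn y.2 y.1).toE, (sgn z.2 z.1).toE⟫ = zr ma mb := by
      rw [inner_toE, hc1, hc2]
    have hn : ⟪(sgn y.2 y.1).toE + (sgn z.2 z.1).toE, (sgn y.2 y.1).toE + (sgn z.2 z.1).toE⟫ =
        2 * ((r : ℝ) + zr ma mb) := by
      have hy := hp y (by simp)
      have hz := hp z (by simp)
      exact R.normal_sq (i := ⟨_, sgn_mem_nset hy.2 hy.1⟩) (j := ⟨_, sgn_mem_nset hz.2 hz.1⟩) hip
    have h1 := stepZ_eq (κa := κa) (κb := κb) (ha := ha) (hb := hb) hκ hκ' hden R.neg_lt hx hn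
    have h2 := pushZ_eq hκ hκ' hden R (z :: l) (fun w hw => hp w (List.mem_cons_of_mem _ hw)) hc3
      (stepZ κa κb den ha hb x (addV (sgn y.2 y.1) (sgn z.2 z.1)))
      (by show 0 < den * x.1; positivity)
    have h3 : Reg.push (fun q : nset L => (q : E4)) (zr ha hb) (pathI L (y :: z :: l) hp)
          (ptE x) =
        Reg.push (fun q : nset L => (q : E4)) (zr ha hb)
          (pathI L (z :: l) (fun w hw => hp w (List.mem_cons_of_mem _ hw)))
          (hrefl ((sgn y.2 y.1).toE + (sgn z.2 z.1).toE) (2 * zr ha hb) (ptE x)) := rfl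
    rw [h3, h1, h2]
    rfl

lemma pathI_chain {ma mb : ℤ} {L : List V8} :
    ∀ (path : List (V8 × (ℤ × ℤ × ℤ × ℤ))) (hp : ∀ x ∈ path, x.1 ∈ L ∧ x.2 ∈ S16)
      (_ : chainOK ma mb (pathV path) = true),
      (pathI L path hp).IsChain (fun i j : nset L => ⟪(i : E4), (j : E4)⟫ = zr ma mb)
  | [], _, _ => List.IsChain.nil
  | [_], _, _ => List.IsChain.singleton _
  | y :: z :: l, hp, hc => by
    have hc' : ((decide (ipA (sgn y.2 y.1) (sgn z.2 z.1) = ma) &&
        decide (ipB (sgn y.2 y.1) (sgn z.2 z.1) = mb)) && chainOK ma mb (pathV (z :: l))) = true :=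
      hc
    simp only [Bool.and_eq_true, decide_eq_true_eq] at hc'
    obtain ⟨⟨hc1, hc2⟩, hc3⟩ := hc'
    have h1 := pathI_chain (z :: l) (fun w hw => hp w (List.mem_cons_of_mem _ hw)) hc3
    have h2 : pathI L (y :: z :: l) hp = ⟨(sgn y.2 y.1).toE, sgn_mem_nset (hp y (by simp)).2
      (hp y (by simp)).1⟩ :: pathI L (z :: l) (fun w hw => hp w (List.mem_cons_of_mem _ hw)) := rfl
    have h3 : pathI L (z :: l) (fun w hw => hp w (List.mem_cons_of_mem _ hw)) =
      ⟨(sgn z.2 z.1).toE, sgn_mem_nset (hp z (by simp)).2 (hp z (by simp)).1⟩ ::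
        pathI L l (fun w hw => hp w (by simp [hw])) := rfl
    rw [h2, h3, List.isChain_cons_cons, ← h3]
    refine ⟨?_, h1⟩
    show ⟪(sgn y.2 y.1).toE, (sgn z.2 z.1).toE⟫ = zr ma mb
    rw [inner_toE, hc1, hc2]

lemma mem_pathI {L : List V8} {q : nset L} :
    ∀ (path : List (V8 × (ℤ × ℤ × ℤ × ℤ))) (hp : ∀ x ∈ path, x.1 ∈ L ∧ x.2 ∈ S16),
      q ∈ pathI L path hp → ∃ v ∈ pathV path, (q : E4) = v.toE
  | [], _, h => by simp [pathI] at h
  | y :: l, hp, h => by
    rw [pathI, List.mem_cons] at h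
    rcases h with h | h
    · exact ⟨sgn y.2 y.1, by simp [pathV], by rw [h]⟩
    · obtain ⟨v, hv, he⟩ := mem_pathI l _ h
      exact ⟨v, by
        have : pathV (y :: l) = sgn y.2 y.1 :: pathV l := rfl
        rw [this]
        exact List.mem_cons_of_mem _ hv, he⟩

lemma pathI_nodup {r ma mb ha hb : ℤ} {L : List V8}
    (R : Reg (fun q : nset L => (q : E4)) (zr ha hb) (r : ℝ) (zr ma mb)) :
    ∀ (path : List (V8 × (ℤ × ℤ × ℤ × ℤ))) (hp : ∀ x ∈ path, x.1 ∈ L ∧ x.2 ∈ S16)
      (_ : pwNe r (pathV path) = true), (pathI L path hp).Nodup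
  | [], _, _ => List.nodup_nil
  | y :: l, hp, hc => by
    have hc' : (((pathV l).all fun w => negQ (ipA (sgn y.2 y.1) w - r) (ipB (sgn y.2 y.1) w)) &&
      pwNe r (pathV l)) = true := hc
    rw [Bool.and_eq_true] at hc'
    rw [pathI, List.nodup_cons]
    refine ⟨?_, pathI_nodup R l _ hc'.2⟩
    intro hmem
    obtain ⟨v, hv, he⟩ := mem_pathI l _ hmem
    have h1 := negQ_sound (List.all_eq_true.1 hc'.1 v hv)
    have h2 : ⟪(sgn y.2 y.1).toE, v.toE⟫ = (r : ℝ) := by
      rw [← he]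
      exact R.norm ⟨_, sgn_mem_nset (hp y (by simp)).2 (hp y (by simp)).1⟩
    rw [inner_toE] at h2
    unfold zr at h1 h2
    push_cast at h1
    linarith

lemma pathI_getLast? {L : List V8} :
    ∀ (path : List (V8 × (ℤ × ℤ × ℤ × ℤ))) (hp : ∀ x ∈ path, x.1 ∈ L ∧ x.2 ∈ S16) (v : V8),
      (pathV path).getLast? = some v → ∃ i : nset L, (pathI L path hp).getLast? = some i ∧
        (i : E4) = v.toE
  | [], _, v, h => by simp [pathV] at h
  | [y], hp, v, h => by
    have h1 : sgn y.2 y.1 = v := by simpa [pathV] using h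
    subst h1
    exact ⟨⟨(sgn y.2 y.1).toE, sgn_mem_nset (hp y (by simp)).2 (hp y (by simp)).1⟩, rfl, rfl⟩
  | y :: z :: l, hp, v, h => by
    have h1 : pathV (y :: z :: l) = sgn y.2 y.1 :: sgn z.2 z.1 :: pathV l := rfl
    rw [h1, List.getLast?_cons_cons] at h
    obtain ⟨i, hi, he⟩ := pathI_getLast? (z :: l)
      (fun w hw => hp w (List.mem_cons_of_mem _ hw)) v h
    refine ⟨i, ?_, he⟩
    rw [← hi]
    exact List.getLast?_cons_cons

theorem not_allNet_of_check {r ma mb ha hb κa κb den : ℤ} {L : List V8} {par : List ℕ}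
    {path : List (V8 × (ℤ × ℤ × ℤ × ℤ))} {p : ℤ × V8}
    (hc : fullCheck r ma mb ha hb κa κb den L par path p = true) :
    ¬ AllNet (poly (fun q : nset L => (q : E4)) (zr ha hb)) := by
  unfold fullCheck at hc
  simp only [Bool.and_eq_true, decide_eq_true_eq] at hc
  obtain ⟨⟨⟨⟨⟨⟨⟨⟨⟨⟨⟨⟨⟨⟨⟨⟨⟨⟨h1, h2⟩, h3⟩, h4⟩, h5⟩, h6⟩, h7⟩, h8⟩, h9⟩, h10⟩, h11⟩, h12⟩, h13⟩,
    h14⟩, h15⟩, h16⟩, h17⟩, h18⟩, h19⟩ := hc
  have hfin : Finite (nset L) := (nset_finite L).to_subtype
  have := Fintype.ofFinite (nset L)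
  have R := reg_nset h1 h2 h3 h4 h5 h6 h7
  have hp : ∀ x ∈ path, x.1 ∈ L ∧ x.2 ∈ S16 := by
    intro x hx
    have := List.all_eq_true.1 h14 x hx
    simpa only [Bool.and_eq_true, decide_eq_true_eq] using this
  obtain ⟨y, l, rfl⟩ : ∃ y l, path = y :: l := by
    cases path with
    | nil => simp at h17
    | cons y l => exact ⟨y, l, rfl⟩
  have hh : (pathV (y :: l)).head? = some (sgn y.2 y.1) := rfl
  rw [hh] at h18
  simp only at h18
  obtain ⟨hD, hs1, hs2⟩ := strictAt_sound h18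
  obtain ⟨w, hw⟩ : ∃ w, (pathV (y :: l)).getLast? = some w :=
    ⟨_, List.getLast?_eq_some_getLast (l := pathV (y :: l)) (by simp [pathV])⟩
  rw [hw] at h19
  simp only at h19
  obtain ⟨hD', ht1, ht2⟩ := strictAt_sound h19
  obtain ⟨iₖ, hi1, hi2⟩ := pathI_getLast? (L := L) (y :: l) hp w hw
  have hpush := pushZ_eq h11 h12 h13 R (y :: l) hp h15 p hD
  have hne : pathI L l (fun z hz => hp z (List.mem_cons_of_mem _ hz)) ≠ [] := by
    cases l with
    | nil => simp at h17
    | cons z l => simp [pathI]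
  have hnd := pathI_nodup R (y :: l) hp h16
  have hch := pathI_chain (y :: l) hp h15
  refine R.not_allNet
    ⟨(sgn y.2 y.1).toE, sgn_mem_nset (hp y (by simp)).2 (hp y (by simp)).1⟩
    (pathI L l (fun z hz => hp z (List.mem_cons_of_mem _ hz))) ?_ hnd hne hch (ptE p) hs1 ?_
    iₖ hi1 ?_ ?_
  · intro i
    exact (reach_symm (reach_from_one h8 h9 h10 _)).trans (reach_from_one h8 h9 h10 i)
  · intro k hk
    exact hs2 k k.2 (fun he => hk (Subtype.ext he))
  · have : ⟪(iₖ : E4), Reg.push (fun q : nset L => (q : E4)) (zr ha hb) (pathI L (y :: l) hp)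
        (ptE p)⟫ = zr ha hb := by
      rw [hpush, hi2]
      exact ht1
    exact this
  · intro k hk
    have : ⟪(k : E4), Reg.push (fun q : nset L => (q : E4)) (zr ha hb) (pathI L (y :: l) hp)
        (ptE p)⟫ < zr ha hb := by
      rw [hpush]
      exact ht2 k k.2 (fun he => hk (Subtype.ext (he.trans hi2.symm)))
    exact this

end Pool.Agent.Unfold
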