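import Pool.Agent.AllNet.Check

/-!
# Data for the 24-, 120- and 600-cell
-/

namespace Pool.Agent.Unfold

/-- nonnegative normals of the 24-cell -/
def L24 : List V8 := [
  ⟨2, 0, 0, 0, 0, 0, 0, 0⟩,
  ⟨1, 0, 1, 0, 1, 0, 1, 0⟩,
  ⟨0, 0, 2, 0, 0, 0, 0, 0⟩,
  ⟨0, 0, 0, 0, 2, 0, 0, 0⟩,
  ⟨0, 0, 0, 0, 0, 0, 2, 0⟩]

/-- parents -/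
def par24 : List ℕ := [0, 0, 1, 1, 1]

/-- path -/
def path24 : List (V8 × (ℤ × ℤ × ℤ × ℤ)) := [
  (⟨2, 0, 0, 0, 0, 0, 0, 0⟩, (1, 1, 1, 1)),
  (⟨1, 0, 1, 0, 1, 0, 1, 0⟩, (1, 1, -1, -1)),
  (⟨0, 0, 0, 0, 0, 0, 2, 0⟩, (1, 1, 1, -1)),
  (⟨1, 0, 1, 0, 1, 0, 1, 0⟩, (-1, -1, -1, -1)),
  (⟨0, 0, 0, 0, 2, 0, 0, 0⟩, (1, 1, -1, 1)),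
  (⟨1, 0, 1, 0, 1, 0, 1, 0⟩, (1, -1, -1, -1)),
  (⟨1, 0, 1, 0, 1, 0, 1, 0⟩, (1, -1, 1, -1)),
  (⟨1, 0, 1, 0, 1, 0, 1, 0⟩, (1, 1, 1, -1))]

/-- starting point -/
def pt24 : ℤ × V8 := (3, ⟨3, 0, -2, 0, 0, 0, 0, 0⟩)

theorem check24 : fullCheck 4 (2) (0) 2 0 (1) (0) 6 L24 par24 path24 pt24 = true := by
  decide +kernel

/-- nonnegative normals of the 120-cell -/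
def L120 : List V8 := [
  ⟨4, 0, 0, 0, 0, 0, 0, 0⟩,
  ⟨1, 1, 2, 0, -1, 1, 0, 0⟩,
  ⟨1, 1, -1, 1, 0, 0, 2, 0⟩,
  ⟨1, 1, 0, 0, 2, 0, -1, 1⟩,
  ⟨2, 0, 2, 0, 2, 0, 2, 0⟩,
  ⟨2, 0, 1, 1, 0, 0, -1, 1⟩,
  ⟨2, 0, -1, 1, 1, 1, 0, 0⟩,
  ⟨-1, 1, 1, 1, 2, 0, 0, 0⟩,
  ⟨2, 0, 0, 0, -1, 1, 1, 1⟩,
  ⟨-1, 1, 2, 0, 0, 0, 1, 1⟩,
  ⟨-1, 1, 0, 0, 1, 1, 2, 0⟩,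
  ⟨0, 0, 1, 1, -1, 1, 2, 0⟩,
  ⟨0, 0, 2, 0, 1, 1, -1, 1⟩,
  ⟨0, 0, -1, 1, 2, 0, 1, 1⟩,
  ⟨0, 0, 4, 0, 0, 0, 0, 0⟩,
  ⟨0, 0, 0, 0, 4, 0, 0, 0⟩,
  ⟨0, 0, 0, 0, 0, 0, 4, 0⟩]

/-- parents -/
def par120 : List ℕ := [0, 0, 0, 0, 1, 1, 1, 1, 2, 2, 3, 4, 4, 4, 5, 6, 8]

/-- path -/
def path120 : List (V8 × (ℤ × ℤ × ℤ × ℤ)) := [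
  (⟨4, 0, 0, 0, 0, 0, 0, 0⟩, (1, 1, 1, 1)),
  (⟨1, 1, 2, 0, -1, 1, 0, 0⟩, (1, 1, 1, 1)),
  (⟨2, 0, 2, 0, 2, 0, 2, 0⟩, (1, 1, 1, 1)),
  (⟨1, 1, -1, 1, 0, 0, 2, 0⟩, (1, 1, 1, 1)),
  (⟨1, 1, 2, 0, -1, 1, 0, 0⟩, (1, 1, -1, 1)),
  (⟨1, 1, -1, 1, 0, 0, 2, 0⟩, (1, 1, 1, -1))]

/-- starting point -/
def pt120 : ℤ × V8 := (5, ⟨5, 0, 1, 0, -1, 0, -1, 0⟩)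

theorem check120 : fullCheck 16 (4) (4) 4 0 (5) (-1) 80 L120 par120 path120 pt120 = true := by
  decide +kernel

/-- nonnegative normals of the 600-cell -/
def L600 : List V8 := [
  ⟨4, 0, 4, 0, 0, 0, 0, 0⟩,
  ⟨0, 2, 1, 1, 0, 0, -1, 1⟩,
  ⟨1, 1, 0, 2, -1, 1, 0, 0⟩,
  ⟨3, 1, 2, 0, 0, 0, 3, -1⟩,
  ⟨4, 0, 1, 1, -1, 1, 2, 0⟩,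
  ⟨2, 0, 3, 1, 3, -1, 0, 0⟩,
  ⟨1, 1, 4, 0, 2, 0, -1, 1⟩,
  ⟨3, 1, -1, 1, -1, 1, -1, 1⟩,
  ⟨0, 2, 2, 0, 2, 0, 2, 0⟩,
  ⟨1, 1, 1, 1, 3, -1, 1, 1⟩,
  ⟨-1, 1, 3, 1, -1, 1, -1, 1⟩,
  ⟨2, 0, 0, 2, 2, 0, 2, 0⟩,
  ⟨1, 1, 1, 1, 1, 1, 3, -1⟩,
  ⟨3, 1, 3, -1, 2, 0, 0, 0⟩,
  ⟨3, 1, 0, 0, 3, -1, 2, 0⟩,
  ⟨4, 0, 2, 0, 1, 1, -1, 1⟩,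
  ⟨4, 0, -1, 1, 2, 0, 1, 1⟩,
  ⟨2, 0, 4, 0, -1, 1, 1, 1⟩,
  ⟨1, 1, 2, 0, -1, 1, 4, 0⟩,
  ⟨3, -1, 3, 1, 0, 0, 2, 0⟩,
  ⟨0, 0, 3, 1, 2, 0, 3, -1⟩,
  ⟨-1, 1, 4, 0, 1, 1, 2, 0⟩,
  ⟨2, 0, 1, 1, 4, 0, -1, 1⟩,
  ⟨0, 2, -1, 1, 1, 1, 0, 0⟩,
  ⟨0, 2, 0, 0, -1, 1, 1, 1⟩,
  ⟨1, 1, -1, 1, 4, 0, 2, 0⟩,
  ⟨1, 1, 3, -1, 1, 1, 1, 1⟩,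
  ⟨-1, 1, 0, 2, 0, 0, 1, 1⟩,
  ⟨-1, 1, 1, 1, 2, 0, 4, 0⟩,
  ⟨2, 0, 2, 0, 2, 0, 0, 2⟩,
  ⟨1, 1, -1, 1, 0, 0, 0, 2⟩,
  ⟨0, 0, 0, 2, 1, 1, -1, 1⟩,
  ⟨3, -1, 1, 1, 1, 1, 1, 1⟩,
  ⟨2, 0, 2, 0, 0, 2, 2, 0⟩,
  ⟨-1, 1, 1, 1, 0, 2, 0, 0⟩,
  ⟨4, 0, 0, 0, 4, 0, 0, 0⟩,
  ⟨4, 0, 0, 0, 0, 0, 4, 0⟩,
  ⟨1, 1, 0, 0, 0, 2, -1, 1⟩,
  ⟨2, 0, -1, 1, 1, 1, 4, 0⟩,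
  ⟨0, 0, 4, 0, 0, 0, 4, 0⟩,
  ⟨0, 0, 1, 1, -1, 1, 0, 2⟩,
  ⟨-1, 1, -1, 1, -1, 1, 3, 1⟩,
  ⟨2, 0, 3, -1, 0, 0, 3, 1⟩,
  ⟨0, 0, 4, 0, 4, 0, 0, 0⟩,
  ⟨-1, 1, 2, 0, 4, 0, 1, 1⟩,
  ⟨-1, 1, -1, 1, 3, 1, -1, 1⟩,
  ⟨3, -1, 2, 0, 3, 1, 0, 0⟩,
  ⟨2, 0, 0, 0, 3, 1, 3, -1⟩,
  ⟨-1, 1, 0, 0, 1, 1, 0, 2⟩,
  ⟨0, 0, 2, 0, 3, -1, 3, 1⟩,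
  ⟨3, -1, 0, 0, 2, 0, 3, 1⟩,
  ⟨0, 0, -1, 1, 0, 2, 1, 1⟩,
  ⟨0, 0, 3, -1, 3, 1, 2, 0⟩,
  ⟨0, 0, 0, 0, 4, 0, 4, 0⟩]

/-- parents -/
def par600 : List ℕ := [0, 0, 0, 1, 1, 2, 2, 3, 4, 4, 5, 6, 6, 7, 7, 8, 8, 9, 9, 10, 10, 11, 12, 13, 14, 15, 16, 17, 17, 18, 18, 20, 21, 22, 22, 23, 24, 25, 26, 27, 28, 29, 30, 31, 32, 33, 34, 37, 38, 40, 41, 44, 45, 48]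

/-- path -/
def path600 : List (V8 × (ℤ × ℤ × ℤ × ℤ)) := [
  (⟨4, 0, 4, 0, 0, 0, 0, 0⟩, (1, 1, 1, 1)),
  (⟨0, 2, 1, 1, 0, 0, -1, 1⟩, (1, 1, 1, 1)),
  (⟨3, 1, 2, 0, 0, 0, 3, -1⟩, (1, 1, 1, 1)),
  (⟨3, 1, -1, 1, -1, 1, -1, 1⟩, (1, 1, 1, 1)),
  (⟨0, 2, 2, 0, 2, 0, 2, 0⟩, (1, 1, 1, 1)),
  (⟨4, 0, 1, 1, -1, 1, 2, 0⟩, (1, 1, 1, 1)),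
  (⟨1, 1, 4, 0, 2, 0, -1, 1⟩, (1, 1, 1, 1)),
  (⟨1, 1, 0, 2, -1, 1, 0, 0⟩, (1, 1, 1, 1)),
  (⟨1, 1, 4, 0, 2, 0, -1, 1⟩, (1, 1, 1, -1)),
  (⟨4, 0, 1, 1, -1, 1, 2, 0⟩, (1, 1, 1, -1)),
  (⟨0, 2, 1, 1, 0, 0, -1, 1⟩, (1, 1, 1, -1))]

/-- starting point -/
def pt600 : ℤ × V8 := (2000, ⟨633, 211, 867, 289, 27, 9, -258, -86⟩)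

theorem check600 : fullCheck 32 (4) (12) 3 1 (3) (-1) 48 L600 par600 path600 pt600 = true := by
  decide +kernel

end Pool.Agent.Unfold
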