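import Mathlib

/-!
# Ridge unfoldings of convex polytopes; the 24-cell, the 120-cell and the 600-cell
-/

namespace Pool.Agent.Unfold

open Module
open scoped RealInnerProductSpace

section Defs

variable {E : Type*} [NormedAddCommGroup E] [InnerProductSpace ℝ E]

/-- `F` is a `k`-dimensional face of the convex polytope `P`: a nonempty exposed subset of `P`
whose affine span has dimension `k`. -/
def IsFace (P : Set E) (k : ℕ) (F : Set E) : Prop :=
  F.Nonempty ∧ IsExposed ℝ P F ∧ finrank ℝ (vectorSpan ℝ F) = k

/-- The facets of `P ⊆ E`: its faces of dimension `dim E - 1`. -/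
abbrev Facet (P : Set E) : Type _ := {F : Set E // IsFace P (finrank ℝ E - 1) F}

/-- The dual graph: two distinct facets are adjacent when they share a ridge, that is, when their
intersection is a face of dimension `dim E - 2`. -/
def dualGraph (P : Set E) : SimpleGraph (Facet P) where
  Adj F G := F ≠ G ∧ IsFace P (finrank ℝ E - 2) (F.1 ∩ G.1)
  symm := ⟨fun _ _ h => ⟨h.1.symm, by rw [Set.inter_comm]; exact h.2⟩⟩
  loopless := ⟨fun _ h => h.1 rfl⟩

/-- A ridge unfolding of `P`: a spanning tree of the dual graph, a target hyperplane, and an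
isometric placement of every facet in the target hyperplane such that facets which are adjacent in
the tree are placed with their common ridge matched and on opposite sides of it. -/
structure RidgeUnfolding (P : Set E) where
  /-- the spanning tree formed by the uncut ridges -/
  tree : SimpleGraph (Facet P)
  tree_le : tree ≤ dualGraph P
  isTree : tree.IsTree
  /-- the hyperplane in which the facets are laid down -/
  target : AffineSubspace ℝ E
  finrank_target : finrank ℝ target.direction = finrank ℝ E - 1
  /-- the isometry with which the facet is laid down -/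
  place : Facet P → (E ≃ᵃⁱ[ℝ] E)
  place_mem : ∀ F : Facet P, ∀ x ∈ F.1, place F x ∈ target
  glue : ∀ F G : Facet P, tree.Adj F G → ∀ x ∈ F.1 ∩ G.1, place F x = place G x
  oppSide : ∀ F G : Facet P, tree.Adj F G → ∀ x ∈ F.1 \ G.1, ∀ y ∈ G.1 \ F.1,
    (affineSpan ℝ (place F '' (F.1 ∩ G.1))).SOppSide (place F x) (place G y)

/-- A ridge unfolding is a net if the relative interiors of the images of any two distinct facets
are disjoint. -/
def RidgeUnfolding.IsNet {P : Set E} (U : RidgeUnfolding P) : Prop :=
  ∀ F G : Facet P, F ≠ G →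
    Disjoint (intrinsicInterior ℝ (U.place F '' F.1)) (intrinsicInterior ℝ (U.place G '' G.1))

/-- `P` is all-net if every ridge unfolding of `P` is a net. -/
def AllNet (P : Set E) : Prop := ∀ U : RidgeUnfolding P, U.IsNet

end Defs

section Cells

/-- All vectors obtained from `b` by permuting the coordinates with a permutation from `A` and then
changing signs arbitrarily. -/
def signedPerms (A : Set (Equiv.Perm (Fin 4))) (b : Fin 4 → ℝ) :
    Set (EuclideanSpace ℝ (Fin 4)) :=
  {q | ∃ σ ∈ A, ∃ s : Fin 4 → ℝ, (∀ i, s i = 1 ∨ s i = -1) ∧ ∀ i, q i = s i * b (σ i)}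

/-- The 24-cell: the convex hull of the 24 points with coordinates `±1, ±1, 0, 0` in any order. -/
def cell24 : Set (EuclideanSpace ℝ (Fin 4)) :=
  convexHull ℝ (signedPerms Set.univ ![1, 1, 0, 0])

/-- The 120 unit icosians: the 8 points `(±1, 0, 0, 0)` in any order, the 16 points
`(±1/2, ±1/2, ±1/2, ±1/2)`, and the 96 even permutations of `(±φ/2, ±1/2, ±φ⁻¹/2, 0)`, where `φ` is
the golden ratio. -/
noncomputable def icosians : Set (EuclideanSpace ℝ (Fin 4)) :=
  signedPerms Set.univ ![1, 0, 0, 0] ∪ signedPerms Set.univ ![1 / 2, 1 / 2, 1 / 2, 1 / 2] ∪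
    signedPerms {σ | Equiv.Perm.sign σ = 1}
      ![Real.goldenRatio / 2, 1 / 2, Real.goldenRatio⁻¹ / 2, 0]

/-- The 600-cell: the convex hull of the 120 unit icosians. -/
noncomputable def cell600 : Set (EuclideanSpace ℝ (Fin 4)) := convexHull ℝ icosians

/-- The 120-cell: the polar dual of the 600-cell. -/
noncomputable def cell120 : Set (EuclideanSpace ℝ (Fin 4)) :=
  {x | ∀ y ∈ cell600, ⟪y, x⟫ ≤ 1}

end Cells

end Pool.Agent.Unfold
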