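import Pool.Agent.AllNet.Check

/-!
# Convex hulls given by inequalities: polytopes with simplicial facets
-/

set_option linter.unusedSectionVars false

namespace Pool.Agent.Unfold

open Module
open scoped RealInnerProductSpace

/-- One facet: the normal, and four pairs (neighbouring normal, opposite vertex). -/
structure HullRow where
  u : V8
  n0 : V8 × (ℤ × ℤ × ℤ × ℤ)
  v0 : V8 × (ℤ × ℤ × ℤ × ℤ)
  n1 : V8 × (ℤ × ℤ × ℤ × ℤ)
  v1 : V8 × (ℤ × ℤ × ℤ × ℤ)
  n2 : V8 × (ℤ × ℤ × ℤ × ℤ)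
  v2 : V8 × (ℤ × ℤ × ℤ × ℤ)
  n3 : V8 × (ℤ × ℤ × ℤ × ℤ)
  v3 : V8 × (ℤ × ℤ × ℤ × ℤ)

namespace HullRow

/-- the normals -/
def n (R : HullRow) : Fin 4 → V8 × (ℤ × ℤ × ℤ × ℤ) := ![R.n0, R.n1, R.n2, R.n3]

/-- the vertices -/
def v (R : HullRow) : Fin 4 → V8 × (ℤ × ℤ × ℤ × ℤ) := ![R.v0, R.v1, R.v2, R.v3]

end HullRow

/-- the signed vector -/
def sv (x : V8 × (ℤ × ℤ × ℤ × ℤ)) : V8 := sgn x.2 x.1

/-- `⟪p, q⟫ = ga + gb√5` -/
def ipIs (ga gb : ℤ) (p q : V8) : Bool := decide (ipA p q = ga) && decide (ipB p q = gb)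

/-- the check of one row -/
def rowOK (ga gb : ℤ) (L V : List V8) (R : HullRow) : Bool :=
  (List.finRange 4).all fun j =>
    decide ((R.n j).1 ∈ L) && decide ((R.n j).2 ∈ S16) && decide ((R.v j).1 ∈ V) &&
    decide ((R.v j).2 ∈ S16) && ipIs ga gb R.u (sv (R.v j)) &&
    negQ (ipA (sv (R.n j)) (sv (R.v j)) - ga) (ipB (sv (R.n j)) (sv (R.v j)) - gb) &&
    (List.finRange 4).all fun k => decide (j = k) || ipIs ga gb (sv (R.n j)) (sv (R.v k))

/-- the full check -/
def hullCheck (ga gb : ℤ) (L V : List V8) (rows : List HullRow) : Bool :=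
  decide (rows.map HullRow.u = L) && (rows.all (rowOK ga gb L V)) && negQ (-ga) (-gb) &&
    allNonneg L && allNonneg V && (L.all fun u => V.all fun w => leQ (ipA u w - ga) (ipB u w - gb))

section General

variable {E : Type*} [NormedAddCommGroup E] [InnerProductSpace ℝ E] [FiniteDimensional ℝ E]

/-- Expansion in a basis with a dual system. -/
lemma dual_expansion {ι : Type*} [Fintype ι] [DecidableEq ι] (hcard : Fintype.card ι = finrank ℝ E)
    (m v : ι → E) (δ : ι → ℝ) (hδ : ∀ j, 0 < δ j)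
    (h1 : ∀ j k, ⟪m j, v k⟫ = if j = k then δ j else 0) (x : E) :
    x = ∑ j, (⟪m j, x⟫ / δ j) • v j := by
  have hli : LinearIndependent ℝ v := by
    rw [Fintype.linearIndependent_iff]
    intro g hg j
    have h2 : ⟪m j, ∑ i, g i • v i⟫ = 0 := by rw [hg, inner_zero_right]
    rw [inner_sum, Finset.sum_eq_single j] at h2
    · rw [inner_smul_right, h1, if_pos rfl] at h2
      rcases mul_eq_zero.1 h2 with h | h
      · exact h
      · exact absurd h (hδ j).ne'
    · intro k _ hk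
      rw [inner_smul_right, h1, if_neg hk.symm, mul_zero]
    · intro h; exact absurd (Finset.mem_univ j) h
  have hspan : ⊤ ≤ Submodule.span ℝ (Set.range v) := by
    rw [LinearIndependent.span_eq_top_of_card_eq_finrank' hli hcard]
  let b := Basis.mk hli hspan
  have hb : ∀ j, b j = v j := fun j => Basis.mk_apply hli hspan j
  conv_lhs => rw [← b.sum_repr x]
  apply Finset.sum_congr rfl
  intro j _
  rw [hb]
  congr 1
  have h2 : ⟪m j, x⟫ = b.repr x j * δ j := by
    conv_lhs => rw [← b.sum_repr x]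
    rw [inner_sum, Finset.sum_eq_single j]
    · rw [inner_smul_right, hb, h1, if_pos rfl]
    · intro k _ hk
      rw [inner_smul_right, hb, h1, if_neg hk.symm, mul_zero]
    · intro h; exact absurd (Finset.mem_univ j) h
  rw [h2, mul_div_assoc, div_self (hδ j).ne', mul_one]

lemma mem_hull_of_dual {ι : Type*} [Fintype ι] [DecidableEq ι]
    (hcard : Fintype.card ι = finrank ℝ E) (u : E) (m v : ι → E) (δ : ι → ℝ) (hδ : ∀ j, 0 < δ j)
    {g : ℝ} (hg : 0 < g) (h1 : ∀ j k, ⟪u - m j, v k⟫ = if j = k then δ j else 0)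
    (h2 : ∀ j, ⟪u, v j⟫ = g) {x : E} (hx : ⟪u, x⟫ = g) (hx2 : ∀ j, ⟪m j, x⟫ ≤ g) :
    x ∈ convexHull ℝ (Set.range v) := by
  have h3 := dual_expansion hcard (fun j => u - m j) v δ hδ h1 x
  have h4 : ∑ j, ⟪u - m j, x⟫ / δ j = 1 := by
    have h5 : ⟪u, x⟫ = ∑ j, (⟪u - m j, x⟫ / δ j) * g := by
      conv_lhs => rw [h3]
      rw [inner_sum]
      apply Finset.sum_congr rfl
      intro j _
      rw [inner_smul_right, h2]
    rw [← Finset.sum_mul, hx] at h5
    have h6 : (∑ j, ⟪u - m j, x⟫ / δ j - 1) * g = 0 := by linear_combination -h5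
    rcases mul_eq_zero.1 h6 with h | h
    · linarith
    · exact absurd h hg.ne'
  rw [h3]
  apply (convex_convexHull ℝ _).sum_mem
  · intro j _
    apply div_nonneg _ (hδ j).le
    rw [inner_sub_left, hx]
    linarith [hx2 j]
  · exact h4
  · intro j _
    exact subset_convexHull ℝ _ ⟨j, rfl⟩

end General

lemma finrank_E4 : finrank ℝ E4 = 4 := by simp [E4]

/-- sign change of a vector -/
noncomputable def sx (s : Fin 4 → ℝ) (x : E4) : E4 := WithLp.toLp 2 (fun i => s i * x i)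

lemma sx_apply (s : Fin 4 → ℝ) (x : E4) (i : Fin 4) : sx s x i = s i * x i := rfl

lemma inner_sx {s : Fin 4 → ℝ} (hs : ∀ i, s i = 1 ∨ s i = -1) (x y : E4) :
    ⟪sx s x, sx s y⟫ = ⟪x, y⟫ := by
  have h : ∀ i, s i * s i = 1 := by
    intro i
    rcases hs i with h | h <;> rw [h] <;> norm_num
  rw [inner_E4, inner_E4]
  simp only [sx_apply]
  linear_combination (x 0 * y 0) * h 0 + (x 1 * y 1) * h 1 + (x 2 * y 2) * h 2 + (x 3 * y 3) * h 3

lemma sx_mem_nset {L : List V8} {s : Fin 4 → ℝ} (hs : ∀ i, s i = 1 ∨ s i = -1) {q : E4}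
    (hq : q ∈ nset L) : sx s q ∈ nset L := by
  obtain ⟨u, hu, t, ht, rfl⟩ := mem_nset.1 hq
  refine mem_nset.2 ⟨u, hu, fun i => s i * t i, fun i => sign_mul (hs i) (ht i), ?_⟩
  ext i
  rw [sx_apply, sE_apply, sE_apply, mul_assoc]

lemma neg_mem_nset {L : List V8} {q : E4} (hq : q ∈ nset L) : -q ∈ nset L := by
  obtain ⟨u, hu, t, ht, rfl⟩ := mem_nset.1 hq
  refine mem_nset.2 ⟨u, hu, fun i => - t i, fun i => ?_, ?_⟩
  · show -t i = 1 ∨ -t i = -1
    rcases ht i with h | h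
    · right; rw [h]
    · left; rw [h]; norm_num
  · ext i
    rw [PiLp.neg_apply, sE_apply, sE_apply]
    ring

section

variable {ga gb : ℤ} {L V : List V8} {rows : List HullRow}

lemma ipIs_iff {p q : V8} (h : ipIs ga gb p q = true) : ⟪p.toE, q.toE⟫ = zr ga gb := by
  unfold ipIs at h
  rw [Bool.and_eq_true, decide_eq_true_eq, decide_eq_true_eq] at h
  rw [inner_toE, h.1, h.2]

/-- Facts from a row, transported by a sign change. -/
lemma row_facts {R : HullRow} (hR : rowOK ga gb L V R = true) {s : Fin 4 → ℝ}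
    (hs : ∀ i, s i = 1 ∨ s i = -1) :
    ∃ (m v : Fin 4 → E4) (δ : Fin 4 → ℝ), (∀ j, m j ∈ nset L) ∧ (∀ j, v j ∈ nset V) ∧
      (∀ j, 0 < δ j) ∧ (∀ j k, ⟪sE s R.u - m j, v k⟫ = if j = k then δ j else 0) ∧
      (∀ j, ⟪sE s R.u, v j⟫ = zr ga gb) := by
  have hall := List.all_eq_true.1 hR
  have hfin : ∀ j : Fin 4, j ∈ List.finRange 4 := List.mem_finRange
  have key : ∀ j : Fin 4, (R.n j).1 ∈ L ∧ (R.n j).2 ∈ S16 ∧ (R.v j).1 ∈ V ∧ (R.v j).2 ∈ S16 ∧
      ⟪R.u.toE, (sv (R.v j)).toE⟫ = zr ga gb ∧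
      ⟪(sv (R.n j)).toE, (sv (R.v j)).toE⟫ < zr ga gb ∧
      ∀ k, j ≠ k → ⟪(sv (R.n j)).toE, (sv (R.v k)).toE⟫ = zr ga gb := by
    intro j
    have h := hall j (hfin j)
    simp only [Bool.and_eq_true, decide_eq_true_eq] at h
    obtain ⟨⟨⟨⟨⟨⟨h1, h2⟩, h3⟩, h4⟩, h5⟩, h6⟩, h7⟩ := h
    refine ⟨h1, h2, h3, h4, ipIs_iff h5, ?_, ?_⟩
    · have := negQ_sound h6
      rw [inner_toE]
      unfold zr at this ⊢
      push_cast at this
      linarith
    · intro k hk
      have h8 := List.all_eq_true.1 h7 k (hfin k)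
      rw [Bool.or_eq_true, decide_eq_true_eq] at h8
      exact ipIs_iff (h8.resolve_left hk)
  have hsE : ∀ u : V8, sE s u = sx s u.toE := fun u => rfl
  refine ⟨fun j => sx s (sv (R.n j)).toE, fun j => sx s (sv (R.v j)).toE,
    fun j => zr ga gb - ⟪(sv (R.n j)).toE, (sv (R.v j)).toE⟫, ?_, ?_, ?_, ?_, ?_⟩
  · intro j
    exact sx_mem_nset hs (sgn_mem_nset (key j).2.1 (key j).1)
  · intro j
    exact sx_mem_nset hs (sgn_mem_nset (key j).2.2.2.1 (key j).2.2.1)
  · intro j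
    linarith [(key j).2.2.2.2.2.1]
  · intro j k
    rw [inner_sub_left, hsE, inner_sx hs, inner_sx hs, (key k).2.2.2.2.1]
    split_ifs with hjk
    · subst hjk; rfl
    · rw [(key j).2.2.2.2.2.2 k hjk, sub_self]
  · intro j
    rw [hsE, inner_sx hs, (key j).2.2.2.2.1]

theorem hull_eq (hc : hullCheck ga gb L V rows = true) (hL : L ≠ []) :
    convexHull ℝ (nset V) = {x : E4 | ∀ q ∈ nset L, ⟪q, x⟫ ≤ zr ga gb} := by
  unfold hullCheck at hc
  simp only [Bool.and_eq_true, decide_eq_true_eq] at hc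
  obtain ⟨⟨⟨⟨⟨h1, h2⟩, h3⟩, h4⟩, h5⟩, h6⟩ := hc
  have hg : 0 < zr ga gb := by
    have := negQ_sound h3
    unfold zr at this ⊢
    push_cast at this
    linarith
  have hfacts : ∀ q ∈ nset L, ∃ (m v : Fin 4 → E4) (δ : Fin 4 → ℝ), (∀ j, m j ∈ nset L) ∧
      (∀ j, v j ∈ nset V) ∧
      (∀ j, 0 < δ j) ∧ (∀ j k, ⟪q - m j, v k⟫ = if j = k then δ j else 0) ∧
      (∀ j, ⟪q, v j⟫ = zr ga gb) := by
    intro q hq
    obtain ⟨u, hu, s, hs, rfl⟩ := mem_nset.1 hq
    rw [← h1, List.mem_map] at hu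
    obtain ⟨R, hR, rfl⟩ := hu
    exact row_facts (List.all_eq_true.1 h2 R hR) hs
  have hcard : Fintype.card (Fin 4) = finrank ℝ E4 := by rw [finrank_E4, Fintype.card_fin]
  apply le_antisymm
  · apply convexHull_min
    · intro v hv q hq
      obtain ⟨u, hu, s, hs, rfl⟩ := mem_nset.1 hq
      obtain ⟨w, hw, t, ht, rfl⟩ := mem_nset.1 hv
      have h7 := leQ_sound (List.all_eq_true.1 (List.all_eq_true.1 h6 u hu) w hw)
      rw [← zr_sub, ← inner_toE, inner_toE_sum] at h7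
      rw [inner_sE]
      have h8 : ∑ i, (s i * t i) * (u.co i * w.co i) ≤ ∑ i, u.co i * w.co i := by
        apply Finset.sum_le_sum
        intro i _
        have h9 : s i * t i ≤ 1 := by
          rcases sign_mul (hs i) (ht i) with h | h <;> rw [h]
          norm_num
        have h10 := mul_nonneg (co_nonneg h4 hu i) (co_nonneg h5 hw i)
        nlinarith
      linarith
    · intro x hx y hy a b ha hb hab q hq
      rw [inner_add_right, inner_smul_right, inner_smul_right]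
      calc a * ⟪q, x⟫ + b * ⟪q, y⟫ ≤ a * zr ga gb + b * zr ga gb :=
            add_le_add (mul_le_mul_of_nonneg_left (hx q hq) ha)
              (mul_le_mul_of_nonneg_left (hy q hq) hb)
        _ = zr ga gb := by rw [← add_mul, hab, one_mul]
  · intro x hx
    -- some element of `nset L`
    have hne : (nset L).Nonempty := by
      obtain ⟨a, l, rfl⟩ := List.exists_cons_of_ne_nil hL
      exact ⟨sE (fun _ => 1) a, mem_nset.2 ⟨a, by simp, fun _ => 1, fun _ => Or.inl rfl, rfl⟩⟩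
    obtain ⟨n, hn, hmax⟩ := Set.exists_max_image (nset L) (fun q => ⟪q, x⟫) (nset_finite L) hne
    obtain ⟨m, v, δ, hm, hv, hδ, hd, hu⟩ := hfacts n hn
    have hrange : convexHull ℝ (Set.range v) ⊆ convexHull ℝ (nset V) :=
      convexHull_mono (by rintro _ ⟨j, rfl⟩; exact hv j)
    have h0 : (0 : E4) ∈ convexHull ℝ (nset V) := by
      have e1 : (0 : E4) = (1 / 2 : ℝ) • v 0 + (1 / 2 : ℝ) • (-v 0) := by
        rw [smul_neg, add_neg_cancel]
      rw [e1]
      exact (convex_convexHull ℝ _) (subset_convexHull ℝ _ (hv 0))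
        (subset_convexHull ℝ _ (neg_mem_nset (hv 0))) (by norm_num) (by norm_num) (by norm_num)
    have hexp := dual_expansion hcard (fun j => n - m j) v δ hδ hd x
    by_cases hM : ⟪n, x⟫ ≤ 0
    · have hz : ∀ q ∈ nset L, ⟪q, x⟫ = 0 := by
        intro q hq
        apply le_antisymm ((hmax q hq).trans hM)
        have := (hmax (-q) (neg_mem_nset hq)).trans hM
        rw [inner_neg_left] at this
        linarith
      have hx0 : x = 0 := by
        rw [hexp]
        apply Finset.sum_eq_zero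
        intro j _
        rw [inner_sub_left, hz n hn, hz _ (hm j), sub_self, zero_div, zero_smul]
      rw [hx0]
      exact h0
    · push Not at hM
      have hx' : (zr ga gb / ⟪n, x⟫) • x ∈ convexHull ℝ (Set.range v) := by
        apply mem_hull_of_dual hcard n m v δ hδ hg hd hu
        · rw [inner_smul_right, div_mul_cancel₀ _ hM.ne']
        · intro j
          rw [inner_smul_right]
          have h7 := hmax _ (hm j)
          calc zr ga gb / ⟪n, x⟫ * ⟪m j, x⟫ ≤ zr ga gb / ⟪n, x⟫ * ⟪n, x⟫ :=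
                mul_le_mul_of_nonneg_left h7 (div_nonneg hg.le hM.le)
            _ = zr ga gb := div_mul_cancel₀ _ hM.ne'
      have hle : ⟪n, x⟫ ≤ zr ga gb := hx n hn
      have e1 : x = (⟪n, x⟫ / zr ga gb) • ((zr ga gb / ⟪n, x⟫) • x) +
          (1 - ⟪n, x⟫ / zr ga gb) • (0 : E4) := by
        rw [smul_zero, add_zero, smul_smul]
        have : ⟪n, x⟫ / zr ga gb * (zr ga gb / ⟪n, x⟫) = 1 := by
          field_simp
        rw [this, one_smul]
      rw [e1]
      refine (convex_convexHull ℝ _) (hrange hx') h0 (div_nonneg hM.le hg.le) ?_ (by ring)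
      rw [sub_nonneg]
      exact div_le_one_of_le₀ hle hg.le

end

end Pool.Agent.Unfold
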