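import Pool.Agent.AllNet.Hull
import Pool.Agent.AllNet.Data

/-!
# The facets of the 600-cell are simplices
-/

namespace Pool.Agent.Unfold

/-- For each nonnegative facet normal of the 600-cell: the four neighbouring normals and the
opposite vertices. -/
def hull600 : List HullRow := [
  ⟨⟨4, 0, 4, 0, 0, 0, 0, 0⟩,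
    (⟨1, 1, 0, 2, -1, 1, 0, 0⟩, (1, 1, -1, 1)), (⟨1, 1, 2, 0, -1, 1, 0, 0⟩, (1, 1, 1, 1)),
    (⟨1, 1, 0, 2, -1, 1, 0, 0⟩, (1, 1, 1, 1)), (⟨1, 1, 2, 0, -1, 1, 0, 0⟩, (1, 1, -1, 1)),
    (⟨0, 2, 1, 1, 0, 0, -1, 1⟩, (1, 1, 1, -1)), (⟨2, 0, 1, 1, 0, 0, -1, 1⟩, (1, 1, 1, 1)),
    (⟨0, 2, 1, 1, 0, 0, -1, 1⟩, (1, 1, 1, 1)), (⟨2, 0, 1, 1, 0, 0, -1, 1⟩, (1, 1, 1, -1))⟩,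
  ⟨⟨0, 2, 1, 1, 0, 0, -1, 1⟩,
    (⟨4, 0, 1, 1, -1, 1, 2, 0⟩, (1, 1, -1, 1)), (⟨1, 1, 2, 0, -1, 1, 0, 0⟩, (1, 1, 1, 1)),
    (⟨4, 0, 1, 1, -1, 1, 2, 0⟩, (1, 1, 1, 1)), (⟨1, 1, 2, 0, -1, 1, 0, 0⟩, (1, 1, -1, 1)),
    (⟨4, 0, 4, 0, 0, 0, 0, 0⟩, (1, 1, 1, 1)), (⟨1, 1, -1, 1, 0, 0, 2, 0⟩, (1, 1, 1, 1)),
    (⟨3, 1, 2, 0, 0, 0, 3, -1⟩, (1, 1, 1, 1)), (⟨2, 0, 1, 1, 0, 0, -1, 1⟩, (1, 1, 1, 1))⟩,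
  ⟨⟨1, 1, 0, 2, -1, 1, 0, 0⟩,
    (⟨2, 0, 3, 1, 3, -1, 0, 0⟩, (1, 1, 1, 1)), (⟨1, 1, 2, 0, -1, 1, 0, 0⟩, (1, 1, 1, 1)),
    (⟨1, 1, 4, 0, 2, 0, -1, 1⟩, (1, 1, 1, -1)), (⟨2, 0, 1, 1, 0, 0, -1, 1⟩, (1, 1, 1, 1)),
    (⟨1, 1, 4, 0, 2, 0, -1, 1⟩, (1, 1, 1, 1)), (⟨2, 0, 1, 1, 0, 0, -1, 1⟩, (1, 1, 1, -1)),
    (⟨4, 0, 4, 0, 0, 0, 0, 0⟩, (1, 1, 1, 1)), (⟨-1, 1, 1, 1, 2, 0, 0, 0⟩, (1, 1, 1, 1))⟩,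
  ⟨⟨3, 1, 2, 0, 0, 0, 3, -1⟩,
    (⟨0, 2, 1, 1, 0, 0, -1, 1⟩, (1, 1, 1, 1)), (⟨4, 0, 0, 0, 0, 0, 0, 0⟩, (1, 1, 1, 1)),
    (⟨3, 1, -1, 1, -1, 1, -1, 1⟩, (1, 1, -1, 1)), (⟨1, 1, 2, 0, -1, 1, 0, 0⟩, (1, 1, 1, 1)),
    (⟨3, 1, -1, 1, -1, 1, -1, 1⟩, (1, 1, 1, 1)), (⟨1, 1, 2, 0, -1, 1, 0, 0⟩, (1, 1, -1, 1)),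
    (⟨3, 1, 2, 0, 0, 0, 3, -1⟩, (1, 1, 1, -1)), (⟨1, 1, -1, 1, 0, 0, 2, 0⟩, (1, 1, 1, 1))⟩,
  ⟨⟨4, 0, 1, 1, -1, 1, 2, 0⟩,
    (⟨0, 2, 1, 1, 0, 0, -1, 1⟩, (1, 1, 1, 1)), (⟨2, 0, 2, 0, 2, 0, 2, 0⟩, (1, 1, 1, 1)),
    (⟨1, 1, 1, 1, 3, -1, 1, 1⟩, (1, 1, 1, 1)), (⟨1, 1, 2, 0, -1, 1, 0, 0⟩, (1, 1, 1, 1)),
    (⟨1, 1, 4, 0, 2, 0, -1, 1⟩, (1, 1, 1, 1)), (⟨1, 1, -1, 1, 0, 0, 2, 0⟩, (1, 1, 1, 1)),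
    (⟨0, 2, 2, 0, 2, 0, 2, 0⟩, (1, 1, 1, 1)), (⟨2, 0, 1, 1, 0, 0, -1, 1⟩, (1, 1, 1, 1))⟩,
  ⟨⟨2, 0, 3, 1, 3, -1, 0, 0⟩,
    (⟨1, 1, 0, 2, -1, 1, 0, 0⟩, (1, 1, 1, 1)), (⟨0, 0, 4, 0, 0, 0, 0, 0⟩, (1, 1, 1, 1)),
    (⟨-1, 1, 3, 1, -1, 1, -1, 1⟩, (1, 1, 1, -1)), (⟨2, 0, 1, 1, 0, 0, -1, 1⟩, (1, 1, 1, 1)),
    (⟨-1, 1, 3, 1, -1, 1, -1, 1⟩, (1, 1, 1, 1)), (⟨2, 0, 1, 1, 0, 0, -1, 1⟩, (1, 1, 1, -1)),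
    (⟨2, 0, 3, 1, 3, -1, 0, 0⟩, (1, 1, -1, 1)), (⟨-1, 1, 1, 1, 2, 0, 0, 0⟩, (1, 1, 1, 1))⟩,
  ⟨⟨1, 1, 4, 0, 2, 0, -1, 1⟩,
    (⟨1, 1, 0, 2, -1, 1, 0, 0⟩, (1, 1, 1, 1)), (⟨2, 0, 2, 0, 2, 0, 2, 0⟩, (1, 1, 1, 1)),
    (⟨2, 0, 0, 2, 2, 0, 2, 0⟩, (1, 1, 1, 1)), (⟨1, 1, 2, 0, -1, 1, 0, 0⟩, (1, 1, 1, 1)),
    (⟨1, 1, 1, 1, 1, 1, 3, -1⟩, (1, 1, 1, 1)), (⟨2, 0, 1, 1, 0, 0, -1, 1⟩, (1, 1, 1, 1)),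
    (⟨4, 0, 1, 1, -1, 1, 2, 0⟩, (1, 1, 1, 1)), (⟨-1, 1, 1, 1, 2, 0, 0, 0⟩, (1, 1, 1, 1))⟩,
  ⟨⟨3, 1, -1, 1, -1, 1, -1, 1⟩,
    (⟨0, 2, 2, 0, 2, 0, 2, 0⟩, (1, 1, 1, 1)), (⟨4, 0, 0, 0, 0, 0, 0, 0⟩, (1, 1, 1, 1)),
    (⟨3, 1, 0, 0, 3, -1, 2, 0⟩, (1, 1, 1, 1)), (⟨1, 1, 2, 0, -1, 1, 0, 0⟩, (1, 1, 1, 1)),
    (⟨3, 1, 3, -1, 2, 0, 0, 0⟩, (1, 1, 1, 1)), (⟨1, 1, -1, 1, 0, 0, 2, 0⟩, (1, 1, 1, 1)),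
    (⟨3, 1, 2, 0, 0, 0, 3, -1⟩, (1, 1, 1, 1)), (⟨1, 1, 0, 0, 2, 0, -1, 1⟩, (1, 1, 1, 1))⟩,
  ⟨⟨0, 2, 2, 0, 2, 0, 2, 0⟩,
    (⟨3, 1, -1, 1, -1, 1, -1, 1⟩, (1, 1, 1, 1)), (⟨2, 0, 2, 0, 2, 0, 2, 0⟩, (1, 1, 1, 1)),
    (⟨4, 0, -1, 1, 2, 0, 1, 1⟩, (1, 1, 1, 1)), (⟨1, 1, 2, 0, -1, 1, 0, 0⟩, (1, 1, 1, 1)),
    (⟨4, 0, 2, 0, 1, 1, -1, 1⟩, (1, 1, 1, 1)), (⟨1, 1, -1, 1, 0, 0, 2, 0⟩, (1, 1, 1, 1)),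
    (⟨4, 0, 1, 1, -1, 1, 2, 0⟩, (1, 1, 1, 1)), (⟨1, 1, 0, 0, 2, 0, -1, 1⟩, (1, 1, 1, 1))⟩,
  ⟨⟨1, 1, 1, 1, 3, -1, 1, 1⟩,
    (⟨1, 1, 1, 1, 3, -1, 1, 1⟩, (1, 1, -1, 1)), (⟨2, 0, 2, 0, 2, 0, 2, 0⟩, (1, 1, 1, 1)),
    (⟨2, 0, 4, 0, -1, 1, 1, 1⟩, (1, 1, 1, 1)), (⟨1, 1, -1, 1, 0, 0, 2, 0⟩, (1, 1, 1, 1)),
    (⟨1, 1, 2, 0, -1, 1, 4, 0⟩, (1, 1, 1, 1)), (⟨2, 0, 1, 1, 0, 0, -1, 1⟩, (1, 1, 1, 1)),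
    (⟨4, 0, 1, 1, -1, 1, 2, 0⟩, (1, 1, 1, 1)), (⟨-1, 1, 2, 0, 0, 0, 1, 1⟩, (1, 1, 1, 1))⟩,
  ⟨⟨-1, 1, 3, 1, -1, 1, -1, 1⟩,
    (⟨2, 0, 0, 2, 2, 0, 2, 0⟩, (1, 1, 1, 1)), (⟨0, 0, 4, 0, 0, 0, 0, 0⟩, (1, 1, 1, 1)),
    (⟨0, 0, 3, 1, 2, 0, 3, -1⟩, (1, 1, 1, 1)), (⟨2, 0, 1, 1, 0, 0, -1, 1⟩, (1, 1, 1, 1)),
    (⟨3, -1, 3, 1, 0, 0, 2, 0⟩, (1, 1, 1, 1)), (⟨-1, 1, 1, 1, 2, 0, 0, 0⟩, (1, 1, 1, 1)),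
    (⟨2, 0, 3, 1, 3, -1, 0, 0⟩, (1, 1, 1, 1)), (⟨0, 0, 1, 1, -1, 1, 2, 0⟩, (1, 1, 1, 1))⟩,
  ⟨⟨2, 0, 0, 2, 2, 0, 2, 0⟩,
    (⟨-1, 1, 3, 1, -1, 1, -1, 1⟩, (1, 1, 1, 1)), (⟨2, 0, 2, 0, 2, 0, 2, 0⟩, (1, 1, 1, 1)),
    (⟨-1, 1, 4, 0, 1, 1, 2, 0⟩, (1, 1, 1, 1)), (⟨2, 0, 1, 1, 0, 0, -1, 1⟩, (1, 1, 1, 1)),
    (⟨2, 0, 4, 0, -1, 1, 1, 1⟩, (1, 1, 1, 1)), (⟨-1, 1, 1, 1, 2, 0, 0, 0⟩, (1, 1, 1, 1)),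
    (⟨1, 1, 4, 0, 2, 0, -1, 1⟩, (1, 1, 1, 1)), (⟨0, 0, 1, 1, -1, 1, 2, 0⟩, (1, 1, 1, 1))⟩,
  ⟨⟨1, 1, 1, 1, 1, 1, 3, -1⟩,
    (⟨1, 1, 1, 1, 1, 1, 3, -1⟩, (1, 1, 1, -1)), (⟨2, 0, 2, 0, 2, 0, 2, 0⟩, (1, 1, 1, 1)),
    (⟨2, 0, 1, 1, 4, 0, -1, 1⟩, (1, 1, 1, 1)), (⟨1, 1, 2, 0, -1, 1, 0, 0⟩, (1, 1, 1, 1)),
    (⟨1, 1, 4, 0, 2, 0, -1, 1⟩, (1, 1, 1, 1)), (⟨2, 0, -1, 1, 1, 1, 0, 0⟩, (1, 1, 1, 1)),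
    (⟨4, 0, 2, 0, 1, 1, -1, 1⟩, (1, 1, 1, 1)), (⟨-1, 1, 1, 1, 2, 0, 0, 0⟩, (1, 1, 1, 1))⟩,
  ⟨⟨3, 1, 3, -1, 2, 0, 0, 0⟩,
    (⟨0, 2, -1, 1, 1, 1, 0, 0⟩, (1, 1, 1, 1)), (⟨4, 0, 0, 0, 0, 0, 0, 0⟩, (1, 1, 1, 1)),
    (⟨3, 1, 3, -1, 2, 0, 0, 0⟩, (1, -1, 1, 1)), (⟨1, 1, 2, 0, -1, 1, 0, 0⟩, (1, 1, 1, 1)),
    (⟨3, 1, -1, 1, -1, 1, -1, 1⟩, (1, 1, 1, -1)), (⟨1, 1, 0, 0, 2, 0, -1, 1⟩, (1, 1, 1, 1)),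
    (⟨3, 1, -1, 1, -1, 1, -1, 1⟩, (1, 1, 1, 1)), (⟨1, 1, 0, 0, 2, 0, -1, 1⟩, (1, 1, 1, -1))⟩,
  ⟨⟨3, 1, 0, 0, 3, -1, 2, 0⟩,
    (⟨0, 2, 0, 0, -1, 1, 1, 1⟩, (1, 1, 1, 1)), (⟨4, 0, 0, 0, 0, 0, 0, 0⟩, (1, 1, 1, 1)),
    (⟨3, 1, -1, 1, -1, 1, -1, 1⟩, (1, -1, 1, 1)), (⟨1, 1, -1, 1, 0, 0, 2, 0⟩, (1, 1, 1, 1)),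
    (⟨3, 1, -1, 1, -1, 1, -1, 1⟩, (1, 1, 1, 1)), (⟨1, 1, -1, 1, 0, 0, 2, 0⟩, (1, -1, 1, 1)),
    (⟨3, 1, 0, 0, 3, -1, 2, 0⟩, (1, 1, -1, 1)), (⟨1, 1, 0, 0, 2, 0, -1, 1⟩, (1, 1, 1, 1))⟩,
  ⟨⟨4, 0, 2, 0, 1, 1, -1, 1⟩,
    (⟨0, 2, -1, 1, 1, 1, 0, 0⟩, (1, 1, 1, 1)), (⟨2, 0, 2, 0, 2, 0, 2, 0⟩, (1, 1, 1, 1)),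
    (⟨1, 1, -1, 1, 4, 0, 2, 0⟩, (1, 1, 1, 1)), (⟨1, 1, 2, 0, -1, 1, 0, 0⟩, (1, 1, 1, 1)),
    (⟨1, 1, 1, 1, 1, 1, 3, -1⟩, (1, 1, 1, 1)), (⟨1, 1, 0, 0, 2, 0, -1, 1⟩, (1, 1, 1, 1)),
    (⟨0, 2, 2, 0, 2, 0, 2, 0⟩, (1, 1, 1, 1)), (⟨2, 0, -1, 1, 1, 1, 0, 0⟩, (1, 1, 1, 1))⟩,
  ⟨⟨4, 0, -1, 1, 2, 0, 1, 1⟩,
    (⟨0, 2, 0, 0, -1, 1, 1, 1⟩, (1, 1, 1, 1)), (⟨2, 0, 2, 0, 2, 0, 2, 0⟩, (1, 1, 1, 1)),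
    (⟨1, 1, 3, -1, 1, 1, 1, 1⟩, (1, 1, 1, 1)), (⟨1, 1, -1, 1, 0, 0, 2, 0⟩, (1, 1, 1, 1)),
    (⟨1, 1, 2, 0, -1, 1, 4, 0⟩, (1, 1, 1, 1)), (⟨1, 1, 0, 0, 2, 0, -1, 1⟩, (1, 1, 1, 1)),
    (⟨0, 2, 2, 0, 2, 0, 2, 0⟩, (1, 1, 1, 1)), (⟨2, 0, 0, 0, -1, 1, 1, 1⟩, (1, 1, 1, 1))⟩,
  ⟨⟨2, 0, 4, 0, -1, 1, 1, 1⟩,
    (⟨-1, 1, 0, 2, 0, 0, 1, 1⟩, (1, 1, 1, 1)), (⟨2, 0, 2, 0, 2, 0, 2, 0⟩, (1, 1, 1, 1)),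
    (⟨-1, 1, 1, 1, 2, 0, 4, 0⟩, (1, 1, 1, 1)), (⟨2, 0, 1, 1, 0, 0, -1, 1⟩, (1, 1, 1, 1)),
    (⟨2, 0, 0, 2, 2, 0, 2, 0⟩, (1, 1, 1, 1)), (⟨-1, 1, 2, 0, 0, 0, 1, 1⟩, (1, 1, 1, 1)),
    (⟨1, 1, 1, 1, 3, -1, 1, 1⟩, (1, 1, 1, 1)), (⟨0, 0, 1, 1, -1, 1, 2, 0⟩, (1, 1, 1, 1))⟩,
  ⟨⟨1, 1, 2, 0, -1, 1, 4, 0⟩,
    (⟨1, 1, -1, 1, 0, 0, 0, 2⟩, (1, 1, 1, 1)), (⟨2, 0, 2, 0, 2, 0, 2, 0⟩, (1, 1, 1, 1)),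
    (⟨2, 0, 2, 0, 2, 0, 0, 2⟩, (1, 1, 1, 1)), (⟨1, 1, -1, 1, 0, 0, 2, 0⟩, (1, 1, 1, 1)),
    (⟨1, 1, 1, 1, 3, -1, 1, 1⟩, (1, 1, 1, 1)), (⟨2, 0, 0, 0, -1, 1, 1, 1⟩, (1, 1, 1, 1)),
    (⟨4, 0, -1, 1, 2, 0, 1, 1⟩, (1, 1, 1, 1)), (⟨-1, 1, 2, 0, 0, 0, 1, 1⟩, (1, 1, 1, 1))⟩,
  ⟨⟨3, -1, 3, 1, 0, 0, 2, 0⟩,
    (⟨-1, 1, 0, 2, 0, 0, 1, 1⟩, (1, 1, 1, 1)), (⟨0, 0, 4, 0, 0, 0, 0, 0⟩, (1, 1, 1, 1)),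
    (⟨3, -1, 3, 1, 0, 0, 2, 0⟩, (-1, 1, 1, 1)), (⟨2, 0, 1, 1, 0, 0, -1, 1⟩, (1, 1, 1, 1)),
    (⟨-1, 1, 3, 1, -1, 1, -1, 1⟩, (1, 1, -1, 1)), (⟨0, 0, 1, 1, -1, 1, 2, 0⟩, (1, 1, 1, 1)),
    (⟨-1, 1, 3, 1, -1, 1, -1, 1⟩, (1, 1, 1, 1)), (⟨0, 0, 1, 1, -1, 1, 2, 0⟩, (1, 1, -1, 1))⟩,
  ⟨⟨0, 0, 3, 1, 2, 0, 3, -1⟩,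
    (⟨0, 0, 0, 2, 1, 1, -1, 1⟩, (1, 1, 1, 1)), (⟨0, 0, 4, 0, 0, 0, 0, 0⟩, (1, 1, 1, 1)),
    (⟨-1, 1, 3, 1, -1, 1, -1, 1⟩, (-1, 1, 1, 1)), (⟨-1, 1, 1, 1, 2, 0, 0, 0⟩, (1, 1, 1, 1)),
    (⟨-1, 1, 3, 1, -1, 1, -1, 1⟩, (1, 1, 1, 1)), (⟨-1, 1, 1, 1, 2, 0, 0, 0⟩, (-1, 1, 1, 1)),
    (⟨0, 0, 3, 1, 2, 0, 3, -1⟩, (1, 1, 1, -1)), (⟨0, 0, 1, 1, -1, 1, 2, 0⟩, (1, 1, 1, 1))⟩,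
  ⟨⟨-1, 1, 4, 0, 1, 1, 2, 0⟩,
    (⟨0, 0, 0, 2, 1, 1, -1, 1⟩, (1, 1, 1, 1)), (⟨2, 0, 2, 0, 2, 0, 2, 0⟩, (1, 1, 1, 1)),
    (⟨3, -1, 1, 1, 1, 1, 1, 1⟩, (1, 1, 1, 1)), (⟨-1, 1, 1, 1, 2, 0, 0, 0⟩, (1, 1, 1, 1)),
    (⟨2, 0, 1, 1, 4, 0, -1, 1⟩, (1, 1, 1, 1)), (⟨0, 0, 1, 1, -1, 1, 2, 0⟩, (1, 1, 1, 1)),
    (⟨2, 0, 0, 2, 2, 0, 2, 0⟩, (1, 1, 1, 1)), (⟨0, 0, 2, 0, 1, 1, -1, 1⟩, (1, 1, 1, 1))⟩,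
  ⟨⟨2, 0, 1, 1, 4, 0, -1, 1⟩,
    (⟨-1, 1, 1, 1, 0, 2, 0, 0⟩, (1, 1, 1, 1)), (⟨2, 0, 2, 0, 2, 0, 2, 0⟩, (1, 1, 1, 1)),
    (⟨-1, 1, 4, 0, 1, 1, 2, 0⟩, (1, 1, 1, 1)), (⟨2, 0, -1, 1, 1, 1, 0, 0⟩, (1, 1, 1, 1)),
    (⟨2, 0, 2, 0, 0, 2, 2, 0⟩, (1, 1, 1, 1)), (⟨-1, 1, 1, 1, 2, 0, 0, 0⟩, (1, 1, 1, 1)),
    (⟨1, 1, 1, 1, 1, 1, 3, -1⟩, (1, 1, 1, 1)), (⟨0, 0, 2, 0, 1, 1, -1, 1⟩, (1, 1, 1, 1))⟩,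
  ⟨⟨0, 2, -1, 1, 1, 1, 0, 0⟩,
    (⟨4, 0, 0, 0, 4, 0, 0, 0⟩, (1, 1, 1, 1)), (⟨1, 1, 2, 0, -1, 1, 0, 0⟩, (1, 1, 1, 1)),
    (⟨4, 0, 2, 0, 1, 1, -1, 1⟩, (1, 1, 1, -1)), (⟨1, 1, 0, 0, 2, 0, -1, 1⟩, (1, 1, 1, 1)),
    (⟨4, 0, 2, 0, 1, 1, -1, 1⟩, (1, 1, 1, 1)), (⟨1, 1, 0, 0, 2, 0, -1, 1⟩, (1, 1, 1, -1)),
    (⟨3, 1, 3, -1, 2, 0, 0, 0⟩, (1, 1, 1, 1)), (⟨2, 0, -1, 1, 1, 1, 0, 0⟩, (1, 1, 1, 1))⟩,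
  ⟨⟨0, 2, 0, 0, -1, 1, 1, 1⟩,
    (⟨4, 0, -1, 1, 2, 0, 1, 1⟩, (1, -1, 1, 1)), (⟨1, 1, -1, 1, 0, 0, 2, 0⟩, (1, 1, 1, 1)),
    (⟨4, 0, -1, 1, 2, 0, 1, 1⟩, (1, 1, 1, 1)), (⟨1, 1, -1, 1, 0, 0, 2, 0⟩, (1, -1, 1, 1)),
    (⟨4, 0, 0, 0, 0, 0, 4, 0⟩, (1, 1, 1, 1)), (⟨1, 1, 0, 0, 2, 0, -1, 1⟩, (1, 1, 1, 1)),
    (⟨3, 1, 0, 0, 3, -1, 2, 0⟩, (1, 1, 1, 1)), (⟨2, 0, 0, 0, -1, 1, 1, 1⟩, (1, 1, 1, 1))⟩,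
  ⟨⟨1, 1, -1, 1, 4, 0, 2, 0⟩,
    (⟨1, 1, 0, 0, 0, 2, -1, 1⟩, (1, 1, 1, 1)), (⟨2, 0, 2, 0, 2, 0, 2, 0⟩, (1, 1, 1, 1)),
    (⟨2, 0, 2, 0, 0, 2, 2, 0⟩, (1, 1, 1, 1)), (⟨1, 1, 0, 0, 2, 0, -1, 1⟩, (1, 1, 1, 1)),
    (⟨1, 1, 3, -1, 1, 1, 1, 1⟩, (1, 1, 1, 1)), (⟨2, 0, -1, 1, 1, 1, 0, 0⟩, (1, 1, 1, 1)),
    (⟨4, 0, 2, 0, 1, 1, -1, 1⟩, (1, 1, 1, 1)), (⟨-1, 1, 0, 0, 1, 1, 2, 0⟩, (1, 1, 1, 1))⟩,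
  ⟨⟨1, 1, 3, -1, 1, 1, 1, 1⟩,
    (⟨1, 1, 3, -1, 1, 1, 1, 1⟩, (1, -1, 1, 1)), (⟨2, 0, 2, 0, 2, 0, 2, 0⟩, (1, 1, 1, 1)),
    (⟨2, 0, -1, 1, 1, 1, 4, 0⟩, (1, 1, 1, 1)), (⟨1, 1, 0, 0, 2, 0, -1, 1⟩, (1, 1, 1, 1)),
    (⟨1, 1, -1, 1, 4, 0, 2, 0⟩, (1, 1, 1, 1)), (⟨2, 0, 0, 0, -1, 1, 1, 1⟩, (1, 1, 1, 1)),
    (⟨4, 0, -1, 1, 2, 0, 1, 1⟩, (1, 1, 1, 1)), (⟨-1, 1, 0, 0, 1, 1, 2, 0⟩, (1, 1, 1, 1))⟩,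
  ⟨⟨-1, 1, 0, 2, 0, 0, 1, 1⟩,
    (⟨0, 0, 4, 0, 0, 0, 4, 0⟩, (1, 1, 1, 1)), (⟨2, 0, 1, 1, 0, 0, -1, 1⟩, (1, 1, 1, 1)),
    (⟨3, -1, 3, 1, 0, 0, 2, 0⟩, (1, 1, 1, 1)), (⟨-1, 1, 2, 0, 0, 0, 1, 1⟩, (1, 1, 1, 1)),
    (⟨2, 0, 4, 0, -1, 1, 1, 1⟩, (1, 1, -1, 1)), (⟨0, 0, 1, 1, -1, 1, 2, 0⟩, (1, 1, 1, 1)),
    (⟨2, 0, 4, 0, -1, 1, 1, 1⟩, (1, 1, 1, 1)), (⟨0, 0, 1, 1, -1, 1, 2, 0⟩, (1, 1, -1, 1))⟩,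
  ⟨⟨-1, 1, 1, 1, 2, 0, 4, 0⟩,
    (⟨0, 0, 1, 1, -1, 1, 0, 2⟩, (1, 1, 1, 1)), (⟨2, 0, 2, 0, 2, 0, 2, 0⟩, (1, 1, 1, 1)),
    (⟨3, -1, 1, 1, 1, 1, 1, 1⟩, (1, 1, 1, 1)), (⟨-1, 1, 2, 0, 0, 0, 1, 1⟩, (1, 1, 1, 1)),
    (⟨2, 0, 2, 0, 2, 0, 0, 2⟩, (1, 1, 1, 1)), (⟨0, 0, 1, 1, -1, 1, 2, 0⟩, (1, 1, 1, 1)),
    (⟨2, 0, 4, 0, -1, 1, 1, 1⟩, (1, 1, 1, 1)), (⟨0, 0, -1, 1, 2, 0, 1, 1⟩, (1, 1, 1, 1))⟩,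
  ⟨⟨2, 0, 2, 0, 2, 0, 0, 2⟩,
    (⟨-1, 1, -1, 1, -1, 1, 3, 1⟩, (1, 1, 1, 1)), (⟨2, 0, 2, 0, 2, 0, 2, 0⟩, (1, 1, 1, 1)),
    (⟨-1, 1, 1, 1, 2, 0, 4, 0⟩, (1, 1, 1, 1)), (⟨2, 0, 0, 0, -1, 1, 1, 1⟩, (1, 1, 1, 1)),
    (⟨2, 0, -1, 1, 1, 1, 4, 0⟩, (1, 1, 1, 1)), (⟨-1, 1, 2, 0, 0, 0, 1, 1⟩, (1, 1, 1, 1)),
    (⟨1, 1, 2, 0, -1, 1, 4, 0⟩, (1, 1, 1, 1)), (⟨0, 0, -1, 1, 2, 0, 1, 1⟩, (1, 1, 1, 1))⟩,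
  ⟨⟨1, 1, -1, 1, 0, 0, 0, 2⟩,
    (⟨2, 0, 3, -1, 0, 0, 3, 1⟩, (1, 1, 1, 1)), (⟨1, 1, -1, 1, 0, 0, 2, 0⟩, (1, 1, 1, 1)),
    (⟨1, 1, 2, 0, -1, 1, 4, 0⟩, (1, 1, -1, 1)), (⟨2, 0, 0, 0, -1, 1, 1, 1⟩, (1, 1, 1, 1)),
    (⟨1, 1, 2, 0, -1, 1, 4, 0⟩, (1, 1, 1, 1)), (⟨2, 0, 0, 0, -1, 1, 1, 1⟩, (1, 1, -1, 1)),
    (⟨4, 0, 0, 0, 0, 0, 4, 0⟩, (1, 1, 1, 1)), (⟨-1, 1, 2, 0, 0, 0, 1, 1⟩, (1, 1, 1, 1))⟩,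
  ⟨⟨0, 0, 0, 2, 1, 1, -1, 1⟩,
    (⟨-1, 1, 4, 0, 1, 1, 2, 0⟩, (-1, 1, 1, 1)), (⟨-1, 1, 1, 1, 2, 0, 0, 0⟩, (1, 1, 1, 1)),
    (⟨-1, 1, 4, 0, 1, 1, 2, 0⟩, (1, 1, 1, 1)), (⟨-1, 1, 1, 1, 2, 0, 0, 0⟩, (-1, 1, 1, 1)),
    (⟨0, 0, 4, 0, 4, 0, 0, 0⟩, (1, 1, 1, 1)), (⟨0, 0, 1, 1, -1, 1, 2, 0⟩, (1, 1, 1, 1)),
    (⟨0, 0, 3, 1, 2, 0, 3, -1⟩, (1, 1, 1, 1)), (⟨0, 0, 2, 0, 1, 1, -1, 1⟩, (1, 1, 1, 1))⟩,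
  ⟨⟨3, -1, 1, 1, 1, 1, 1, 1⟩,
    (⟨3, -1, 1, 1, 1, 1, 1, 1⟩, (-1, 1, 1, 1)), (⟨2, 0, 2, 0, 2, 0, 2, 0⟩, (1, 1, 1, 1)),
    (⟨-1, 1, 2, 0, 4, 0, 1, 1⟩, (1, 1, 1, 1)), (⟨0, 0, 1, 1, -1, 1, 2, 0⟩, (1, 1, 1, 1)),
    (⟨-1, 1, 1, 1, 2, 0, 4, 0⟩, (1, 1, 1, 1)), (⟨0, 0, 2, 0, 1, 1, -1, 1⟩, (1, 1, 1, 1)),
    (⟨-1, 1, 4, 0, 1, 1, 2, 0⟩, (1, 1, 1, 1)), (⟨0, 0, -1, 1, 2, 0, 1, 1⟩, (1, 1, 1, 1))⟩,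
  ⟨⟨2, 0, 2, 0, 0, 2, 2, 0⟩,
    (⟨-1, 1, -1, 1, 3, 1, -1, 1⟩, (1, 1, 1, 1)), (⟨2, 0, 2, 0, 2, 0, 2, 0⟩, (1, 1, 1, 1)),
    (⟨-1, 1, 2, 0, 4, 0, 1, 1⟩, (1, 1, 1, 1)), (⟨2, 0, -1, 1, 1, 1, 0, 0⟩, (1, 1, 1, 1)),
    (⟨2, 0, 1, 1, 4, 0, -1, 1⟩, (1, 1, 1, 1)), (⟨-1, 1, 0, 0, 1, 1, 2, 0⟩, (1, 1, 1, 1)),
    (⟨1, 1, -1, 1, 4, 0, 2, 0⟩, (1, 1, 1, 1)), (⟨0, 0, 2, 0, 1, 1, -1, 1⟩, (1, 1, 1, 1))⟩,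
  ⟨⟨-1, 1, 1, 1, 0, 2, 0, 0⟩,
    (⟨0, 0, 4, 0, 4, 0, 0, 0⟩, (1, 1, 1, 1)), (⟨2, 0, -1, 1, 1, 1, 0, 0⟩, (1, 1, 1, 1)),
    (⟨3, -1, 2, 0, 3, 1, 0, 0⟩, (1, 1, 1, 1)), (⟨-1, 1, 1, 1, 2, 0, 0, 0⟩, (1, 1, 1, 1)),
    (⟨2, 0, 1, 1, 4, 0, -1, 1⟩, (1, 1, 1, -1)), (⟨0, 0, 2, 0, 1, 1, -1, 1⟩, (1, 1, 1, 1)),
    (⟨2, 0, 1, 1, 4, 0, -1, 1⟩, (1, 1, 1, 1)), (⟨0, 0, 2, 0, 1, 1, -1, 1⟩, (1, 1, 1, -1))⟩,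
  ⟨⟨4, 0, 0, 0, 4, 0, 0, 0⟩,
    (⟨1, 1, 0, 0, 0, 2, -1, 1⟩, (1, 1, 1, -1)), (⟨1, 1, 0, 0, 2, 0, -1, 1⟩, (1, 1, 1, 1)),
    (⟨1, 1, 0, 0, 0, 2, -1, 1⟩, (1, 1, 1, 1)), (⟨1, 1, 0, 0, 2, 0, -1, 1⟩, (1, 1, 1, -1)),
    (⟨0, 2, -1, 1, 1, 1, 0, 0⟩, (1, -1, 1, 1)), (⟨2, 0, -1, 1, 1, 1, 0, 0⟩, (1, 1, 1, 1)),
    (⟨0, 2, -1, 1, 1, 1, 0, 0⟩, (1, 1, 1, 1)), (⟨2, 0, -1, 1, 1, 1, 0, 0⟩, (1, -1, 1, 1))⟩,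
  ⟨⟨4, 0, 0, 0, 0, 0, 4, 0⟩,
    (⟨1, 1, -1, 1, 0, 0, 0, 2⟩, (1, -1, 1, 1)), (⟨1, 1, -1, 1, 0, 0, 2, 0⟩, (1, 1, 1, 1)),
    (⟨1, 1, -1, 1, 0, 0, 0, 2⟩, (1, 1, 1, 1)), (⟨1, 1, -1, 1, 0, 0, 2, 0⟩, (1, -1, 1, 1)),
    (⟨0, 2, 0, 0, -1, 1, 1, 1⟩, (1, 1, -1, 1)), (⟨2, 0, 0, 0, -1, 1, 1, 1⟩, (1, 1, 1, 1)),
    (⟨0, 2, 0, 0, -1, 1, 1, 1⟩, (1, 1, 1, 1)), (⟨2, 0, 0, 0, -1, 1, 1, 1⟩, (1, 1, -1, 1))⟩,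
  ⟨⟨1, 1, 0, 0, 0, 2, -1, 1⟩,
    (⟨2, 0, 0, 0, 3, 1, 3, -1⟩, (1, 1, 1, 1)), (⟨1, 1, 0, 0, 2, 0, -1, 1⟩, (1, 1, 1, 1)),
    (⟨1, 1, -1, 1, 4, 0, 2, 0⟩, (1, -1, 1, 1)), (⟨2, 0, -1, 1, 1, 1, 0, 0⟩, (1, 1, 1, 1)),
    (⟨1, 1, -1, 1, 4, 0, 2, 0⟩, (1, 1, 1, 1)), (⟨2, 0, -1, 1, 1, 1, 0, 0⟩, (1, -1, 1, 1)),
    (⟨4, 0, 0, 0, 4, 0, 0, 0⟩, (1, 1, 1, 1)), (⟨-1, 1, 0, 0, 1, 1, 2, 0⟩, (1, 1, 1, 1))⟩,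
  ⟨⟨2, 0, -1, 1, 1, 1, 4, 0⟩,
    (⟨-1, 1, 0, 0, 1, 1, 0, 2⟩, (1, 1, 1, 1)), (⟨2, 0, 2, 0, 2, 0, 2, 0⟩, (1, 1, 1, 1)),
    (⟨-1, 1, 2, 0, 4, 0, 1, 1⟩, (1, 1, 1, 1)), (⟨2, 0, 0, 0, -1, 1, 1, 1⟩, (1, 1, 1, 1)),
    (⟨2, 0, 2, 0, 2, 0, 0, 2⟩, (1, 1, 1, 1)), (⟨-1, 1, 0, 0, 1, 1, 2, 0⟩, (1, 1, 1, 1)),
    (⟨1, 1, 3, -1, 1, 1, 1, 1⟩, (1, 1, 1, 1)), (⟨0, 0, -1, 1, 2, 0, 1, 1⟩, (1, 1, 1, 1))⟩,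
  ⟨⟨0, 0, 4, 0, 0, 0, 4, 0⟩,
    (⟨-1, 1, 0, 2, 0, 0, 1, 1⟩, (-1, 1, 1, 1)), (⟨-1, 1, 2, 0, 0, 0, 1, 1⟩, (1, 1, 1, 1)),
    (⟨-1, 1, 0, 2, 0, 0, 1, 1⟩, (1, 1, 1, 1)), (⟨-1, 1, 2, 0, 0, 0, 1, 1⟩, (-1, 1, 1, 1)),
    (⟨0, 0, 1, 1, -1, 1, 0, 2⟩, (1, 1, -1, 1)), (⟨0, 0, 1, 1, -1, 1, 2, 0⟩, (1, 1, 1, 1)),
    (⟨0, 0, 1, 1, -1, 1, 0, 2⟩, (1, 1, 1, 1)), (⟨0, 0, 1, 1, -1, 1, 2, 0⟩, (1, 1, -1, 1))⟩,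
  ⟨⟨0, 0, 1, 1, -1, 1, 0, 2⟩,
    (⟨-1, 1, 1, 1, 2, 0, 4, 0⟩, (-1, 1, 1, 1)), (⟨-1, 1, 2, 0, 0, 0, 1, 1⟩, (1, 1, 1, 1)),
    (⟨-1, 1, 1, 1, 2, 0, 4, 0⟩, (1, 1, 1, 1)), (⟨-1, 1, 2, 0, 0, 0, 1, 1⟩, (-1, 1, 1, 1)),
    (⟨0, 0, 2, 0, 3, -1, 3, 1⟩, (1, 1, 1, 1)), (⟨0, 0, 1, 1, -1, 1, 2, 0⟩, (1, 1, 1, 1)),
    (⟨0, 0, 4, 0, 0, 0, 4, 0⟩, (1, 1, 1, 1)), (⟨0, 0, -1, 1, 2, 0, 1, 1⟩, (1, 1, 1, 1))⟩,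
  ⟨⟨-1, 1, -1, 1, -1, 1, 3, 1⟩,
    (⟨2, 0, 2, 0, 2, 0, 0, 2⟩, (1, 1, 1, 1)), (⟨0, 0, 0, 0, 0, 0, 4, 0⟩, (1, 1, 1, 1)),
    (⟨0, 0, 2, 0, 3, -1, 3, 1⟩, (1, 1, 1, 1)), (⟨2, 0, 0, 0, -1, 1, 1, 1⟩, (1, 1, 1, 1)),
    (⟨3, -1, 0, 0, 2, 0, 3, 1⟩, (1, 1, 1, 1)), (⟨-1, 1, 2, 0, 0, 0, 1, 1⟩, (1, 1, 1, 1)),
    (⟨2, 0, 3, -1, 0, 0, 3, 1⟩, (1, 1, 1, 1)), (⟨0, 0, -1, 1, 2, 0, 1, 1⟩, (1, 1, 1, 1))⟩,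
  ⟨⟨2, 0, 3, -1, 0, 0, 3, 1⟩,
    (⟨1, 1, -1, 1, 0, 0, 0, 2⟩, (1, 1, 1, 1)), (⟨0, 0, 0, 0, 0, 0, 4, 0⟩, (1, 1, 1, 1)),
    (⟨-1, 1, -1, 1, -1, 1, 3, 1⟩, (1, 1, -1, 1)), (⟨2, 0, 0, 0, -1, 1, 1, 1⟩, (1, 1, 1, 1)),
    (⟨-1, 1, -1, 1, -1, 1, 3, 1⟩, (1, 1, 1, 1)), (⟨2, 0, 0, 0, -1, 1, 1, 1⟩, (1, 1, -1, 1)),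
    (⟨2, 0, 3, -1, 0, 0, 3, 1⟩, (1, -1, 1, 1)), (⟨-1, 1, 2, 0, 0, 0, 1, 1⟩, (1, 1, 1, 1))⟩,
  ⟨⟨0, 0, 4, 0, 4, 0, 0, 0⟩,
    (⟨-1, 1, 1, 1, 0, 2, 0, 0⟩, (-1, 1, 1, 1)), (⟨-1, 1, 1, 1, 2, 0, 0, 0⟩, (1, 1, 1, 1)),
    (⟨-1, 1, 1, 1, 0, 2, 0, 0⟩, (1, 1, 1, 1)), (⟨-1, 1, 1, 1, 2, 0, 0, 0⟩, (-1, 1, 1, 1)),
    (⟨0, 0, 0, 2, 1, 1, -1, 1⟩, (1, 1, 1, -1)), (⟨0, 0, 2, 0, 1, 1, -1, 1⟩, (1, 1, 1, 1)),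
    (⟨0, 0, 0, 2, 1, 1, -1, 1⟩, (1, 1, 1, 1)), (⟨0, 0, 2, 0, 1, 1, -1, 1⟩, (1, 1, 1, -1))⟩,
  ⟨⟨-1, 1, 2, 0, 4, 0, 1, 1⟩,
    (⟨0, 0, -1, 1, 0, 2, 1, 1⟩, (1, 1, 1, 1)), (⟨2, 0, 2, 0, 2, 0, 2, 0⟩, (1, 1, 1, 1)),
    (⟨3, -1, 1, 1, 1, 1, 1, 1⟩, (1, 1, 1, 1)), (⟨-1, 1, 0, 0, 1, 1, 2, 0⟩, (1, 1, 1, 1)),
    (⟨2, 0, -1, 1, 1, 1, 4, 0⟩, (1, 1, 1, 1)), (⟨0, 0, 2, 0, 1, 1, -1, 1⟩, (1, 1, 1, 1)),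
    (⟨2, 0, 2, 0, 0, 2, 2, 0⟩, (1, 1, 1, 1)), (⟨0, 0, -1, 1, 2, 0, 1, 1⟩, (1, 1, 1, 1))⟩,
  ⟨⟨-1, 1, -1, 1, 3, 1, -1, 1⟩,
    (⟨2, 0, 2, 0, 0, 2, 2, 0⟩, (1, 1, 1, 1)), (⟨0, 0, 0, 0, 4, 0, 0, 0⟩, (1, 1, 1, 1)),
    (⟨0, 0, 3, -1, 3, 1, 2, 0⟩, (1, 1, 1, 1)), (⟨2, 0, -1, 1, 1, 1, 0, 0⟩, (1, 1, 1, 1)),
    (⟨3, -1, 2, 0, 3, 1, 0, 0⟩, (1, 1, 1, 1)), (⟨-1, 1, 0, 0, 1, 1, 2, 0⟩, (1, 1, 1, 1)),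
    (⟨2, 0, 0, 0, 3, 1, 3, -1⟩, (1, 1, 1, 1)), (⟨0, 0, 2, 0, 1, 1, -1, 1⟩, (1, 1, 1, 1))⟩,
  ⟨⟨3, -1, 2, 0, 3, 1, 0, 0⟩,
    (⟨-1, 1, 1, 1, 0, 2, 0, 0⟩, (1, 1, 1, 1)), (⟨0, 0, 0, 0, 4, 0, 0, 0⟩, (1, 1, 1, 1)),
    (⟨3, -1, 2, 0, 3, 1, 0, 0⟩, (-1, 1, 1, 1)), (⟨2, 0, -1, 1, 1, 1, 0, 0⟩, (1, 1, 1, 1)),
    (⟨-1, 1, -1, 1, 3, 1, -1, 1⟩, (1, 1, 1, -1)), (⟨0, 0, 2, 0, 1, 1, -1, 1⟩, (1, 1, 1, 1)),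
    (⟨-1, 1, -1, 1, 3, 1, -1, 1⟩, (1, 1, 1, 1)), (⟨0, 0, 2, 0, 1, 1, -1, 1⟩, (1, 1, 1, -1))⟩,
  ⟨⟨2, 0, 0, 0, 3, 1, 3, -1⟩,
    (⟨1, 1, 0, 0, 0, 2, -1, 1⟩, (1, 1, 1, 1)), (⟨0, 0, 0, 0, 4, 0, 0, 0⟩, (1, 1, 1, 1)),
    (⟨-1, 1, -1, 1, 3, 1, -1, 1⟩, (1, -1, 1, 1)), (⟨2, 0, -1, 1, 1, 1, 0, 0⟩, (1, 1, 1, 1)),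
    (⟨-1, 1, -1, 1, 3, 1, -1, 1⟩, (1, 1, 1, 1)), (⟨2, 0, -1, 1, 1, 1, 0, 0⟩, (1, -1, 1, 1)),
    (⟨2, 0, 0, 0, 3, 1, 3, -1⟩, (1, 1, 1, -1)), (⟨-1, 1, 0, 0, 1, 1, 2, 0⟩, (1, 1, 1, 1))⟩,
  ⟨⟨-1, 1, 0, 0, 1, 1, 0, 2⟩,
    (⟨0, 0, 0, 0, 4, 0, 4, 0⟩, (1, 1, 1, 1)), (⟨2, 0, 0, 0, -1, 1, 1, 1⟩, (1, 1, 1, 1)),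
    (⟨3, -1, 0, 0, 2, 0, 3, 1⟩, (1, 1, 1, 1)), (⟨-1, 1, 0, 0, 1, 1, 2, 0⟩, (1, 1, 1, 1)),
    (⟨2, 0, -1, 1, 1, 1, 4, 0⟩, (1, -1, 1, 1)), (⟨0, 0, -1, 1, 2, 0, 1, 1⟩, (1, 1, 1, 1)),
    (⟨2, 0, -1, 1, 1, 1, 4, 0⟩, (1, 1, 1, 1)), (⟨0, 0, -1, 1, 2, 0, 1, 1⟩, (1, -1, 1, 1))⟩,
  ⟨⟨0, 0, 2, 0, 3, -1, 3, 1⟩,
    (⟨0, 0, 1, 1, -1, 1, 0, 2⟩, (1, 1, 1, 1)), (⟨0, 0, 0, 0, 0, 0, 4, 0⟩, (1, 1, 1, 1)),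
    (⟨-1, 1, -1, 1, -1, 1, 3, 1⟩, (-1, 1, 1, 1)), (⟨-1, 1, 2, 0, 0, 0, 1, 1⟩, (1, 1, 1, 1)),
    (⟨-1, 1, -1, 1, -1, 1, 3, 1⟩, (1, 1, 1, 1)), (⟨-1, 1, 2, 0, 0, 0, 1, 1⟩, (-1, 1, 1, 1)),
    (⟨0, 0, 2, 0, 3, -1, 3, 1⟩, (1, 1, -1, 1)), (⟨0, 0, -1, 1, 2, 0, 1, 1⟩, (1, 1, 1, 1))⟩,
  ⟨⟨3, -1, 0, 0, 2, 0, 3, 1⟩,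
    (⟨-1, 1, 0, 0, 1, 1, 0, 2⟩, (1, 1, 1, 1)), (⟨0, 0, 0, 0, 0, 0, 4, 0⟩, (1, 1, 1, 1)),
    (⟨3, -1, 0, 0, 2, 0, 3, 1⟩, (-1, 1, 1, 1)), (⟨2, 0, 0, 0, -1, 1, 1, 1⟩, (1, 1, 1, 1)),
    (⟨-1, 1, -1, 1, -1, 1, 3, 1⟩, (1, -1, 1, 1)), (⟨0, 0, -1, 1, 2, 0, 1, 1⟩, (1, 1, 1, 1)),
    (⟨-1, 1, -1, 1, -1, 1, 3, 1⟩, (1, 1, 1, 1)), (⟨0, 0, -1, 1, 2, 0, 1, 1⟩, (1, -1, 1, 1))⟩,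
  ⟨⟨0, 0, -1, 1, 0, 2, 1, 1⟩,
    (⟨-1, 1, 2, 0, 4, 0, 1, 1⟩, (-1, 1, 1, 1)), (⟨-1, 1, 0, 0, 1, 1, 2, 0⟩, (1, 1, 1, 1)),
    (⟨-1, 1, 2, 0, 4, 0, 1, 1⟩, (1, 1, 1, 1)), (⟨-1, 1, 0, 0, 1, 1, 2, 0⟩, (-1, 1, 1, 1)),
    (⟨0, 0, 0, 0, 4, 0, 4, 0⟩, (1, 1, 1, 1)), (⟨0, 0, 2, 0, 1, 1, -1, 1⟩, (1, 1, 1, 1)),
    (⟨0, 0, 3, -1, 3, 1, 2, 0⟩, (1, 1, 1, 1)), (⟨0, 0, -1, 1, 2, 0, 1, 1⟩, (1, 1, 1, 1))⟩,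
  ⟨⟨0, 0, 3, -1, 3, 1, 2, 0⟩,
    (⟨0, 0, -1, 1, 0, 2, 1, 1⟩, (1, 1, 1, 1)), (⟨0, 0, 0, 0, 4, 0, 0, 0⟩, (1, 1, 1, 1)),
    (⟨-1, 1, -1, 1, 3, 1, -1, 1⟩, (-1, 1, 1, 1)), (⟨-1, 1, 0, 0, 1, 1, 2, 0⟩, (1, 1, 1, 1)),
    (⟨-1, 1, -1, 1, 3, 1, -1, 1⟩, (1, 1, 1, 1)), (⟨-1, 1, 0, 0, 1, 1, 2, 0⟩, (-1, 1, 1, 1)),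
    (⟨0, 0, 3, -1, 3, 1, 2, 0⟩, (1, -1, 1, 1)), (⟨0, 0, 2, 0, 1, 1, -1, 1⟩, (1, 1, 1, 1))⟩,
  ⟨⟨0, 0, 0, 0, 4, 0, 4, 0⟩,
    (⟨-1, 1, 0, 0, 1, 1, 0, 2⟩, (-1, 1, 1, 1)), (⟨-1, 1, 0, 0, 1, 1, 2, 0⟩, (1, 1, 1, 1)),
    (⟨-1, 1, 0, 0, 1, 1, 0, 2⟩, (1, 1, 1, 1)), (⟨-1, 1, 0, 0, 1, 1, 2, 0⟩, (-1, 1, 1, 1)),
    (⟨0, 0, -1, 1, 0, 2, 1, 1⟩, (1, -1, 1, 1)), (⟨0, 0, -1, 1, 2, 0, 1, 1⟩, (1, 1, 1, 1)),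
    (⟨0, 0, -1, 1, 0, 2, 1, 1⟩, (1, 1, 1, 1)), (⟨0, 0, -1, 1, 2, 0, 1, 1⟩, (1, -1, 1, 1))⟩]

theorem checkHull600 : hullCheck 12 4 L600 L120 hull600 = true := by
  decide +kernel

end Pool.Agent.Unfold
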